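import Pool.Agent.P.MP_cb5d8b_an.Pt.Iface
import Pool.Agent.P.MP_cb5d8b_an.Jct
import Pool.Agent.P.MP_d66c6d_pr.T.Eil
import Pool.Agent.P.MP_d66c6d_pr.T.Loga
import Pool.Agent.P.MP_d66c6d_pr.T.Fill

/-!
Iterates of a Thurston map.
-/

namespace Pool.Agent.P.MP_cb5d8b_an.Pt

open Set Metric Filter Topology

namespace BcA

theorem near {f : S2 → S2} (hf : IsBranchedCovering f) (p : S2) :
    ∀ᶠ x in 𝓝 p, f x = f p → x = p := by
  obtain ⟨-, -, 𝒜, -, h⟩ := hf
  obtain ⟨φ, -, ψ, -, d, hd, hp, -, h0, h1, he⟩ := h p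
  filter_upwards [he, φ.open_source.mem_nhds hp] with x hx hs e
  rw [e, h1] at hx
  have h2 : φ x = 0 := pow_eq_zero_iff (by omega) |>.1 hx.symm
  exact φ.injOn hs hp (h2.trans h0.symm)

theorem fib {f : S2 → S2} (hf : IsBranchedCovering f) (z : S2) : (f ⁻¹' {z}).Finite := by
  have hc : IsCompact (f ⁻¹' {z}) := (isClosed_singleton.preimage hf.1).isCompact
  obtain ⟨t, h1, ht⟩ := hc.elim_nhds_subcover (fun p => {x | f x = f p → x = p})
    (fun p _ => near hf p)
  refine t.finite_toSet.subset fun x hx => ?_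
  obtain ⟨p, hp, hx'⟩ := mem_iUnion₂.1 (ht hx)
  have : x = p := hx' ((mem_singleton_iff.1 hx).trans (mem_singleton_iff.1 (h1 p hp)).symm)
  rw [this]
  exact hp

theorem loc {f : S2 → S2} {P : Set S2} (hP : post f ⊆ P) : IsLocalHomeomorphOn f (f ⁻¹' Pᶜ) := by
  intro y hy
  have h : y ∉ crit f := fun hc =>
    hy (hP (mem_iUnion₂.2 ⟨1, le_rfl, ⟨y, hc, rfl⟩⟩))
  exact (not_not.1 h : IsLocalHomeomorphOn f {y}) y rfl

end BcA

theorem p_BC : S_BC := by
  intro f hf
  refine ⟨fun y hy => ?_, fun P hfin hP hinv n => ?_⟩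
  · obtain ⟨n, hn, x, hx, rfl⟩ := mem_iUnion₂.1 hy
    exact mem_iUnion₂.2 ⟨n + 1, Nat.le_add_left 1 n, x, hx, Function.iterate_succ_apply' f n x⟩
  · induction n with
    | zero =>
      exact ⟨continuous_id, fun z => finite_singleton z,
        (Homeomorph.refl S2).isLocalHomeomorph.isLocalHomeomorphOn, hfin, mapsTo_id P⟩
    | succ n ih =>
      rw [Function.iterate_succ']
      refine ⟨hf.1.1.comp ih.cont, fun z => ?_, ?_, hfin, hinv.comp ih.inv⟩
      · rw [preimage_comp]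
        exact (BcA.fib hf.1 z).preimage' fun b _ => ih.fib b
      · exact (BcA.loc hP).comp (ih.loc.mono fun y hy hy' => hy (hinv hy')) fun y hy => hy

end Pool.Agent.P.MP_cb5d8b_an.Pt

/-! Path lifting. -/

namespace Pool.Agent.P.MP_cb5d8b_an.Pt

open Set Metric Filter Topology

namespace LiftB

variable {g : S2 → S2} {P : Set S2}

theorem cov (h : Br g P) : IsCoveringMapOn g Pᶜ := fun x hx =>
  h.cont.isClosedMap.isEvenlyCovered_of_openPartialHomeomorph (h.fib x) fun e he => by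
    obtain ⟨φ, h1, h2⟩ := h.loc e (show g e ∈ Pᶜ from he.symm ▸ hx)
    exact ⟨φ, h1, h2.symm⟩

theorem finP (h : Br g P) : (g ⁻¹' P).Finite := h.fin.preimage' fun z _ => h.fib z

theorem nebot (y : S2) : NeBot (𝓝[≠] y) := by
  have hc : PreconnectedSpace S2 := Subtype.preconnectedSpace (isPreconnected_sphere
    (by rw [← Module.finrank_eq_rank]; simp) _ _)
  have : Nontrivial S2 := ⟨y, -y, fun e => by
    have h1 : (y : EuclideanSpace ℝ (Fin 3)) = -y := congrArg Subtype.val e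
    have h2 : (y : EuclideanSpace ℝ (Fin 3)) = 0 := by
      have : (2 : ℝ) • (y : EuclideanSpace ℝ (Fin 3)) = 0 := by
        rw [two_smul]; nth_rewrite 2 [h1]; simp
      simpa using this
    have := y.2
    simp [h2] at this⟩
  have : ConnectedSpace S2 := ⟨inferInstance⟩
  exact ConnectedSpace.neBot_nhdsWithin_compl_of_nontrivial_of_t1space y

theorem dense (h : Br g P) {U : Set S2} (hU : Dense U) : Dense (g ⁻¹' U) := by
  have := nebot
  have hd : Dense (g ⁻¹' P)ᶜ := by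
    simpa [sdiff_eq] using dense_univ.sdiff_finite (finP h)
  rw [dense_iff_inter_open] at hU ⊢
  intro W hW hne
  obtain ⟨y, hy, hy'⟩ := hd.inter_open_nonempty W hW hne
  obtain ⟨φ, h1, rfl⟩ := h.loc y hy'
  obtain ⟨_, ⟨w, hw, rfl⟩, hu⟩ := hU _ (φ.isOpen_image_source_inter hW) ⟨_, y, ⟨h1, hy⟩, rfl⟩
  exact ⟨w, hw.2, hu⟩

theorem uniq (h : Br g P) {d d' : unitInterval → S2} (hd : Continuous d) (hd' : Continuous d')
    (e : ∀ t, g (d t) = g (d' t)) (hP : ∀ t, t ≠ 0 → t ≠ 1 → g (d t) ∉ P) (t₀ : unitInterval)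
    (h0 : g (d t₀) ∉ P) (h1 : d t₀ = d' t₀) : d = d' := by
  have sub : Ioo (0 : unitInterval) 1 ⊆ {t | g (d t) ∉ P} := fun t ht => hP t ht.1.ne' ht.2.ne
  have den : Dense (Ioo (0 : unitInterval) 1) := by
    rw [dense_iff_closure_eq, closure_Ioo zero_ne_one]
    exact eq_univ_of_forall fun t => ⟨t.2.1, t.2.2⟩
  have pre : IsPreconnected {t | g (d t) ∉ P} :=
    isPreconnected_Ioo.subset_closure sub (den.closure_eq ▸ subset_univ _)
  have key : {t | g (d t) ∉ P} ⊆ interior {t | d t = d' t} := by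
    have loc : ∀ t, g (d t) ∉ P → d t = d' t → t ∈ interior {t | d t = d' t} := fun t ht et => by
      obtain ⟨φ, h1, h2⟩ := h.loc (d t) ht
      have n := φ.open_source.mem_nhds h1
      refine mem_interior_iff_mem_nhds.2 ?_
      filter_upwards [hd.continuousAt n, hd'.continuousAt (et ▸ n)] with s a b
      exact φ.injOn a b (h2 ▸ e s)
    refine pre.subset_left_of_subset_union isOpen_interior (isOpen_ne_fun hd hd')
      (disjoint_left.2 fun t a b => b (interior_subset (s := {t | d t = d' t}) a)) (fun t ht => ?_) ⟨t₀, h0, loc _ h0 h1⟩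
    by_cases et : d t = d' t
    · exact Or.inl (loc t ht et)
    · exact Or.inr et
  exact Continuous.ext_on den hd hd' fun t ht =>
    interior_subset (s := {t | d t = d' t}) (key (sub ht))

theorem lim (h : Br g P) {G : ℝ → S2} {z : S2} (hG : ContinuousOn G (Ioo 0 1))
    (hz : Tendsto (fun s => g (G s)) (𝓝[<] 1) (𝓝 z)) :
    ∃ q, g q = z ∧ Tendsto G (𝓝[<] 1) (𝓝 q) := by
  obtain ⟨V, hV, disj⟩ := (h.fib z).t2_separation
  have h1 : (⋃ e ∈ g ⁻¹' {z}, V e) ∈ nhdsSet (g ⁻¹' {z}) :=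
    (isOpen_biUnion fun e _ => (hV e).2).mem_nhdsSet.2 fun e he => mem_biUnion he (hV e).1
  obtain ⟨W, hW, hWV⟩ := isClosedMap_iff_comap_nhds_le.1 h.cont.isClosedMap h1
  obtain ⟨s, hs, hs'⟩ := (mem_nhdsLT_iff_exists_Ioo_subset).1
    (inter_mem (hz hW) (Ioo_mem_nhdsLT (zero_lt_one' ℝ)))
  obtain ⟨m, hm⟩ := nonempty_Ioo.2 (show s < 1 from hs)
  obtain ⟨q, hq, hmq⟩ := mem_iUnion₂.1 (hWV (hs' hm).1)
  have pre : IsPreconnected (G '' Ioo s 1) :=
    isPreconnected_Ioo.image G (hG.mono fun t ht => (hs' ht).2)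
  have sub : G '' Ioo s 1 ⊆ V q := by
    refine pre.subset_left_of_subset_union (hV q).2
      (isOpen_biUnion fun e (_ : e ∈ g ⁻¹' {z} \ {q}) => (hV e).2) ?_ ?_ ⟨_, ⟨m, hm, rfl⟩, hmq⟩
    · exact disjoint_iUnion₂_right.2 fun e he => disj hq he.1 (Ne.symm he.2)
    · rintro _ ⟨t, ht, rfl⟩
      obtain ⟨e, he, hte⟩ := mem_iUnion₂.1 (hWV (hs' ht).1)
      by_cases a : e = q
      · exact Or.inl (a ▸ hte)
      · exact Or.inr (mem_biUnion (show e ∈ g ⁻¹' {z} \ {q} from ⟨he, a⟩) hte)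
  refine ⟨q, hq, isCompact_univ.tendsto_nhds_of_unique_mapClusterPt (by simp) fun p _ hp => ?_⟩
  have h2 : g p = z := by
    have := hp.continuousAt_comp h.cont.continuousAt
    exact eq_of_nhds_neBot (ClusterPt.mono this hz)
  by_contra a
  obtain ⟨t, h3, h4⟩ := ((mapClusterPt_iff_frequently.1 hp _
    ((hV p).2.mem_nhds (hV p).1)).and_eventually (Ioo_mem_nhdsLT (show s < 1 from hs))).exists
  exact disjoint_left.1 (disj h2 hq a) h3 (sub ⟨t, h4, rfl⟩)

theorem ex (h : Br g P) {c : unitInterval → S2} (hc : Continuous c) (hP : ∀ t, t ≠ 1 → c t ∉ P)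
    {y : S2} (hy : g y = c 0) :
    ∃ d : unitInterval → S2, Continuous d ∧ d 0 = y ∧ ∀ t, g (d t) = c t := by
  classical
  have := (convex_Ico (0 : ℝ) 1).contractibleSpace ⟨0, le_rfl, zero_lt_one⟩
  have := (convex_Ico (0 : ℝ) 1).locallyPathConnectedSpace
  obtain ⟨F, ⟨h1, h2⟩, -⟩ := (cov h).existsUnique_continuousMap_lifts
    (⟨fun s : Ico (0 : ℝ) 1 => c ⟨s, s.2.1, s.2.2.le⟩, by fun_prop⟩ : C(Ico (0 : ℝ) 1, S2))
    (a₀ := ⟨0, le_rfl, zero_lt_one⟩) hy fun s => hP _ fun e => s.2.2.ne (congrArg Subtype.val e)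
  let G : ℝ → S2 := fun s => if hs : s ∈ Ico (0 : ℝ) 1 then F ⟨s, hs⟩ else y
  have hG : ContinuousOn G (Ico 0 1) := continuousOn_iff_continuous_domRestrict.2
    (F.continuous.congr fun s => by simp only [domRestrict_apply, G, dif_pos s.2])
  have hg : ∀ s ∈ Ico (0 : ℝ) 1, g (G s) = c (projIcc 0 1 zero_le_one s) := fun s hs => by
    rw [projIcc_of_mem _ (Ico_subset_Icc_self hs)]
    simp only [G, dif_pos hs]
    exact congrFun h2 ⟨s, hs⟩
  obtain ⟨q, hq, ht⟩ := lim h (z := c 1) (hG.mono Ioo_subset_Ico_self) (by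
    have : Tendsto (fun s : ℝ => c (projIcc 0 1 zero_le_one s)) (𝓝[<] 1) (𝓝 (c 1)) := by
      have := (hc.comp (continuous_projIcc (h := zero_le_one))).tendsto (1 : ℝ)
      simp only [Function.comp_apply, projIcc_right] at this
      exact this.mono_left nhdsWithin_le_nhds
    refine this.congr' ?_
    filter_upwards [Ioo_mem_nhdsLT (zero_lt_one' ℝ)] with s hs
    exact (hg s (Ioo_subset_Ico_self hs)).symm)
  have hU : ContinuousOn (Function.update G 1 q) (Icc 0 1) := by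
    rw [continuousOn_update_iff, Icc_sdiff_right]
    exact ⟨hG, fun _ => ht.mono_left (nhdsWithin_mono _ fun s hs => hs.2)⟩
  refine ⟨fun t => Function.update G 1 q t, hU.comp_continuous continuous_subtype_val
    fun t => t.2, ?_, fun t => ?_⟩
  · show Function.update G 1 q (0 : ℝ) = y
    rw [Function.update_of_ne zero_ne_one, ← h1]
    exact dif_pos _
  · by_cases e : t = 1
    · simp [e, hq]
    · have e' : (t : ℝ) ≠ 1 := fun a => e (Subtype.ext a)
      dsimp only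
      rw [Function.update_of_ne e', hg t ⟨t.2.1, lt_of_le_of_ne t.2.2 e'⟩, projIcc_val]

end LiftB

theorem p_LIFT : S_LIFT := fun _ _ h =>
  ⟨LiftB.cov h, fun _ => LiftB.dense h, fun _ hc hP _ hy => LiftB.ex h hc hP hy,
    fun _ _ hd hd' => LiftB.uniq h hd hd'⟩

end Pool.Agent.P.MP_cb5d8b_an.Pt

/-!
Preimages of star shaped sets under branched coverings.
-/

namespace Pool.Agent.P.MP_cb5d8b_an.Pt

open Set Metric Filter Topology

namespace StarA

/-- a preconnected set covered by disjoint open sets stays in one of them -/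
theorem stay {F : Set S2} {O : S2 → Set S2} (ho : ∀ q ∈ F, IsOpen (O q))
    (hd : ∀ q ∈ F, ∀ q' ∈ F, ∀ y, y ∈ O q → y ∈ O q' → q = q') {s : Set S2}
    (hs : IsPreconnected s) (hc : ∀ y ∈ s, ∃ q ∈ F, y ∈ O q) {q : S2} (hq : q ∈ F) {x : S2}
    (hx : x ∈ s) (hxq : x ∈ O q) : s ⊆ O q := by
  refine IsPreconnected.subset_left_of_subset_union (v := ⋃ q' ∈ F \ {q}, O q') (ho q hq)
    (isOpen_biUnion fun q' h => ho q' h.1) ?_ ?_ ⟨x, hx, hxq⟩ hs
  · rw [Set.disjoint_left]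
    intro y hy hy'
    simp only [mem_iUnion] at hy'
    obtain ⟨q', h1, h2⟩ := hy'
    exact h1.2 (hd q hq q' h1.1 y hy h2).symm
  · intro y hy
    obtain ⟨q', h1, h2⟩ := hc y hy
    by_cases h : q' = q
    · exact Or.inl (h ▸ h2)
    · exact Or.inr (mem_biUnion (show q' ∈ F \ {q} from ⟨h1, h⟩) h2)

/-- the radial path from `z` to `c` -/
noncomputable def rad (c z : ℂ) (t : ℝ) : ℂ := c + ((1 - t : ℝ) : ℂ) * (z - c)

theorem rad_zero (c z : ℂ) : rad c z 0 = z := by simp [rad]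

theorem rad_one (c z : ℂ) : rad c z 1 = c := by simp [rad]

theorem rad_self (c : ℂ) (t : ℝ) : rad c c t = c := by simp [rad]

theorem rad_cont (c : ℂ) : Continuous fun p : ℂ × ℝ => rad c p.1 p.2 := by
  unfold rad; fun_prop

theorem rad_mem {S : Set ℂ} {c z : ℂ} (hS : StarConvex ℝ c S) (hz : z ∈ S) {t : ℝ} (h0 : 0 ≤ t)
    (h1 : t ≤ 1) : rad c z t ∈ S := by
  have := hS hz h0 (sub_nonneg.2 h1) (by ring)
  convert this using 1
  simp only [rad, Complex.real_smul]
  push_cast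
  ring

theorem rad_ne {c z : ℂ} (hz : z ≠ c) {t : ℝ} (h1 : t ≠ 1) : rad c z t ≠ c := by
  intro h
  have : ((1 - t : ℝ) : ℂ) * (z - c) = 0 := by
    have := h
    unfold rad at this
    linear_combination this
  rcases mul_eq_zero.1 this with h | h
  · exact h1 (by have := Complex.ofReal_eq_zero.1 h; linarith)
  · exact hz (sub_eq_zero.1 h)

theorem rad_dist (c z : ℂ) {t : ℝ} (h1 : t ≤ 1) : dist (rad c z t) c = (1 - t) * dist z c := by
  rw [dist_eq_norm, dist_eq_norm, rad, add_sub_cancel_left, norm_mul, Complex.norm_real,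
    Real.norm_of_nonneg (sub_nonneg.2 h1)]

/-- `d` lifts the radial path from `z` -/
def Lf (g : S2 → S2) (φ : ℂ → S2) (c z : ℂ) (d : unitInterval → S2) : Prop :=
  Continuous d ∧ ∀ t : unitInterval, g (d t) = φ (rad c z t)

theorem const {g : S2 → S2} {u : S2} (hf : (g ⁻¹' {u}).Finite) {d : unitInterval → S2}
    (hd : Continuous d) (h : ∀ t, g (d t) = u) (s t : unitInterval) : d s = d t := by
  have h1 : (range d).Finite := hf.subset (by rintro _ ⟨t, rfl⟩; exact h t)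
  have h2 : IsPreconnected (range d) := isPreconnected_range hd
  exact (Set.Countable.isTotallyDisconnected (Set.Finite.countable h1) _ Subset.rfl h2) ⟨s, rfl⟩ ⟨t, rfl⟩

section

variable {g : S2 → S2} {P : Set S2} {φ : ℂ → S2} {S : Set ℂ} {c : ℂ}

theorem lf_ex (hL : S_LIFT) (hb : Br g P) (hφ : IsOpenEmbedding φ) (hS : StarConvex ℝ c S)
    (hP : ∀ z ∈ S, φ z ∈ P → z = c) {z : ℂ} (hz : z ∈ S) {y : S2} (hy : g y = φ z) :
    ∃ d, Lf g φ c z d ∧ d 0 = y := by
  by_cases h : z = c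
  · subst h
    exact ⟨fun _ => y, ⟨continuous_const, fun t => by rw [rad_self, hy]⟩, rfl⟩
  · obtain ⟨d, h1, h2, h3⟩ := (hL g P hb).2.2.1 (fun t => φ (rad c z t))
      (hφ.continuous.comp ((rad_cont c).comp (continuous_const.prodMk continuous_subtype_val)))
      (fun t ht hp => rad_ne h (fun e => ht (Subtype.ext e)) (hP _ (rad_mem hS hz t.2.1 t.2.2) hp))
      y (by simp [rad_zero, hy])
    exact ⟨d, ⟨h1, h3⟩, h2⟩

theorem lf_uniq (hL : S_LIFT) (hb : Br g P) (hS : StarConvex ℝ c S)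
    (hP : ∀ z ∈ S, φ z ∈ P → z = c) {z : ℂ} (hz : z ∈ S) {d d' : unitInterval → S2}
    (hd : Lf g φ c z d) (hd' : Lf g φ c z d') (h0 : d 0 = d' 0) : d = d' := by
  by_cases h : z = c
  · subst h
    funext t
    rw [const (hb.fib (φ z)) hd.1 (fun t => by rw [hd.2, rad_self]) t 0, h0,
      const (hb.fib (φ z)) hd'.1 (fun t => by rw [hd'.2, rad_self]) t 0]
  · have key : ∀ t : unitInterval, t ≠ 1 → g (d t) ∉ P := fun t ht hp =>
      rad_ne h (fun e => ht (Subtype.ext e)) (hP _ (rad_mem hS hz t.2.1 t.2.2) (hd.2 t ▸ hp))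
    exact (hL g P hb).2.2.2 d d' hd.1 hd'.1 (fun t => by rw [hd.2, hd'.2])
      (fun t _ ht => key t ht) 0 (key 0 zero_ne_one) h0

theorem lf_cc (hS : StarConvex ℝ c S) {z : ℂ} (hz : z ∈ S) {d : unitInterval → S2}
    (hd : Lf g φ c z d) (s t : unitInterval) : d t ∈ cc g (φ '' S) (d s) :=
  (isPreconnected_range hd.1).subset_connectedComponentIn ⟨s, rfl⟩
    (by rintro _ ⟨t, rfl⟩; exact ⟨_, rad_mem hS hz t.2.1 t.2.2, (hd.2 t).symm⟩) ⟨t, rfl⟩

theorem lf_one {z : ℂ} {d : unitInterval → S2} (hd : Lf g φ c z d) : g (d 1) = φ c := by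
  rw [hd.2]; simp [rad_one]

theorem lf_zero {z : ℂ} {d : unitInterval → S2} (hd : Lf g φ c z d) : g (d 0) = φ z := by
  rw [hd.2]; simp [rad_zero]

/-- the points whose radial lift ends at `q` -/
def W (g : S2 → S2) (φ : ℂ → S2) (S : Set ℂ) (c : ℂ) (q : S2) : Set S2 :=
  {y | ∃ z ∈ S, ∃ d, Lf g φ c z d ∧ d 0 = y ∧ d 1 = q}

theorem W_open (hL : S_LIFT) (hb : Br g P) (hφ : IsOpenEmbedding φ) (ho : IsOpen S)
    (hS : StarConvex ℝ c S) (hc : c ∈ S) (hP : ∀ z ∈ S, φ z ∈ P → z = c) (q : S2) :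
    IsOpen (W g φ S c q) := by
  classical
  obtain ⟨O, hO, hOd⟩ := (hb.fib (φ c)).t2_separation
  set F := g ⁻¹' {φ c} with hF
  have hOd' : ∀ q ∈ F, ∀ q' ∈ F, ∀ y, y ∈ O q → y ∈ O q' → q = q' := fun q hq q' hq' y h1 h2 => by
    by_contra h
    exact Set.disjoint_left.1 (hOd hq hq' h) h1 h2
  -- a small disc whose preimage lies in the union
  obtain ⟨r, hr, hrS, hrO⟩ : ∃ r > 0, ball c r ⊆ S ∧
      ∀ y z, g y = φ z → dist z c < r → ∃ q ∈ F, y ∈ O q := by
    have h1 : IsClosed (g '' (⋃ q ∈ F, O q)ᶜ) :=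
      hb.cont.isClosedMap _ (isOpen_biUnion fun q _ => (hO q).2).isClosed_compl
    have h2 : φ ⁻¹' (g '' (⋃ q ∈ F, O q)ᶜ)ᶜ ∩ S ∈ 𝓝 c := by
      refine ((h1.isOpen_compl.preimage hφ.continuous).inter ho).mem_nhds ⟨?_, hc⟩
      rintro ⟨y, hy, e⟩
      exact hy (mem_biUnion (show y ∈ F from e) (hO y).1)
    obtain ⟨r, hr, h3⟩ := Metric.mem_nhds_iff.1 h2
    refine ⟨r, hr, fun z hz => (h3 hz).2, fun y z e hz => ?_⟩
    by_contra h
    refine (h3 hz).1 ⟨y, fun hy => h ?_, e⟩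
    simpa only [mem_iUnion, exists_prop] using hy
  -- tails of lifts stay in one of the open sets
  have tail : ∀ z d (τ : unitInterval), Lf g φ c z d → (1 - τ) * dist z c < r →
      ∀ q ∈ F, (d τ ∈ O q ↔ d 1 = q) := by
    intro z d τ hd hτ q hq
    have hpc : IsPreconnected (d '' Ici τ) := isPreconnected_Ici.image d hd.1.continuousOn
    have hcov : ∀ y ∈ d '' Ici τ, ∃ q ∈ F, y ∈ O q := by
      rintro _ ⟨t, ht, rfl⟩
      refine hrO _ _ (hd.2 t) ?_
      rw [rad_dist c z t.2.2]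
      have : (τ : ℝ) ≤ t := ht
      nlinarith [dist_nonneg (x := z) (y := c)]
    have h1 : d 1 ∈ F := lf_one hd
    constructor
    · intro h
      have := stay (fun q _ => (hO q).2) hOd' hpc hcov hq ⟨τ, self_mem_Ici, rfl⟩ h
        ⟨1, show τ ≤ 1 from τ.2.2, rfl⟩
      exact hOd' _ h1 _ hq _ (hO _).1 this
    · rintro rfl
      exact stay (fun q _ => (hO q).2) hOd' hpc hcov hq ⟨1, show τ ≤ 1 from τ.2.2, rfl⟩ (hO _).1
        ⟨τ, self_mem_Ici, rfl⟩
  rw [isOpen_iff_mem_nhds]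
  rintro _ ⟨z₀, hz₀, d₀, hd₀, rfl, rfl⟩
  have hq : d₀ 1 ∈ F := lf_one hd₀
  by_cases h : z₀ = c
  · subst h
    have h1 : O (d₀ 1) ∩ g ⁻¹' (φ '' ball z₀ r) ∈ 𝓝 (d₀ 0) := by
      refine ((hO _).2.inter ((hφ.isOpenMap _ isOpen_ball).preimage hb.cont)).mem_nhds
        ⟨(tail z₀ d₀ 0 hd₀ (by simpa using hr) _ hq).2 rfl, z₀, mem_ball_self hr, (lf_zero hd₀).symm⟩
    filter_upwards [h1] with y hy
    obtain ⟨hy1, z, hz, e⟩ := hy
    obtain ⟨d, hd, h0⟩ := lf_ex hL hb hφ hS hP (hrS hz) e.symm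
    exact ⟨z, hrS hz, d, hd, h0, (tail z d 0 hd (by simpa using hz) _ hq).1 (h0 ▸ hy1)⟩
  · have hdp : 0 < dist z₀ c := dist_pos.2 h
    obtain ⟨τ, hτ1, hτ⟩ : ∃ τ : unitInterval, (τ : ℝ) < 1 ∧ (1 - τ) * dist z₀ c < r := by
      have hm : 0 < min 1 (r / (2 * dist z₀ c)) := lt_min one_pos (by positivity)
      refine ⟨⟨1 - min 1 (r / (2 * dist z₀ c)), by linarith [min_le_left 1 (r / (2 * dist z₀ c))],
        by linarith⟩, by simpa using hm, ?_⟩
      have h2 : min 1 (r / (2 * dist z₀ c)) * dist z₀ c ≤ r / (2 * dist z₀ c) * dist z₀ c :=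
        mul_le_mul_of_nonneg_right (min_le_right _ _) hdp.le
      have h3 : r / (2 * dist z₀ c) * dist z₀ c = r / 2 := by field_simp
      simp only [sub_sub_cancel]
      linarith
    let A : Set S2 := g ⁻¹' (φ '' (S \ {c}))
    have hA : IsOpen A := (hφ.isOpenMap _ (ho.sdiff isClosed_singleton)).preimage hb.cont
    have hz : ∀ a : A, ∃ z, (z ∈ S ∧ z ≠ c) ∧ φ z = g a := fun a => a.2
    choose ζ hζ eζ using hz
    have cζ : Continuous ζ := by
      rw [hφ.isInducing.continuous_iff]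
      have : φ ∘ ζ = fun a : A => g a := funext eζ
      rw [this]
      exact hb.cont.comp continuous_subtype_val
    choose D hD hD0 using fun a : A => lf_ex hL hb hφ hS hP (hζ a).1 (eζ a).symm
    have hne : ∀ (a : A) (s : unitInterval), φ (rad c (ζ a) (s * τ : unitInterval)) ∈ Pᶜ := by
      intro a s hp
      refine rad_ne (hζ a).2 ?_ (hP _ (rad_mem hS (hζ a).1 (s * τ).2.1 (s * τ).2.2) hp)
      have : ((s * τ : unitInterval) : ℝ) ≤ τ := by
        rw [Set.Icc.coe_mul]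
        nlinarith [s.2.1, s.2.2, τ.2.1]
      linarith
    have hcov := (hL g P hb).1.isCoveringMap_restrictPreimage
    have cm : Continuous fun p : unitInterval × A => ((p.1 * τ : unitInterval) : ℝ) := by
      simp only [Set.Icc.coe_mul]
      fun_prop
    let f : C(unitInterval × A, (Pᶜ : Set S2)) :=
      ⟨fun p => ⟨φ (rad c (ζ p.2) (p.1 * τ : unitInterval)), hne p.2 p.1⟩,
        (hφ.continuous.comp ((rad_cont c).comp ((cζ.comp continuous_snd).prodMk cm))).subtype_mk _⟩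
    let G : unitInterval × A → (g ⁻¹' Pᶜ : Set S2) := fun p =>
      ⟨D p.2 (p.1 * τ), by
        show g _ ∈ Pᶜ
        rw [(hD p.2).2]; exact hne p.2 p.1⟩
    have cG : Continuous G := by
      refine hcov.isLocalHomeomorph.continuous_lift hcov.isSeparatedMap f ?_ ?_ ?_
      · funext p
        exact Subtype.ext ((hD p.2).2 _)
      · refine Continuous.subtype_mk ?_ _
        simp only [zero_mul, hD0]
        exact continuous_subtype_val
      · intro a
        refine Continuous.subtype_mk ((hD a).1.comp ?_) _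
        exact Continuous.subtype_mk (cm.comp (continuous_id.prodMk (continuous_const (y := a)))) _
    have cD : Continuous fun a : A => D a τ := by
      have := (continuous_subtype_val.comp cG).comp
        ((continuous_const (y := (1 : unitInterval))).prodMk (continuous_id (X := A)))
      simpa only [G, Function.comp_def, one_mul, id] using this
    let a₀ : A := ⟨d₀ 0, z₀, ⟨hz₀, h⟩, (lf_zero hd₀).symm⟩
    have e₀ : ζ a₀ = z₀ := hφ.injective ((eζ a₀).trans (lf_zero hd₀))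
    have eD : D a₀ = d₀ := lf_uniq hL hb hS hP hz₀ (e₀ ▸ hD a₀) hd₀ (hD0 a₀)
    have h1 : IsOpen {a : A | D a τ ∈ O (d₀ 1) ∧ (1 - τ) * dist (ζ a) c < r} :=
      ((hO _).2.preimage cD).inter 
        (isOpen_lt (continuous_const.mul (cζ.dist continuous_const)) continuous_const)
    have h2 := (hA.isOpenMap_subtype_val _ h1).mem_nhds
      ⟨a₀, ⟨by rw [eD]; exact (tail z₀ d₀ τ hd₀ hτ _ hq).2 rfl, by rw [e₀]; exact hτ⟩, rfl⟩
    filter_upwards [h2] with y hy
    obtain ⟨a, ⟨h3, h4⟩, rfl⟩ := hy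
    exact ⟨ζ a, (hζ a).1, D a, hD a, hD0 a, (tail _ _ τ (hD a) h4 _ hq).1 h3⟩

end

end StarA

open StarA in
theorem p_STAR (hLIFT : S_LIFT) : S_STAR := by
  intro g P hb φ hφ S c ho hS hc hP
  have hu : ∀ q q', g q = φ c → g q' = φ c → q' ∈ cc g (φ '' S) q → q' = q := by
    have hW : ∀ q, g q = φ c → q ∈ W g φ S c q := fun q hq =>
      ⟨c, hc, fun _ => q, ⟨continuous_const, fun t => by rw [rad_self, hq]⟩, rfl, rfl⟩
    have hd : ∀ q ∈ g ⁻¹' {φ c}, ∀ q' ∈ g ⁻¹' {φ c}, ∀ y, y ∈ W g φ S c q → y ∈ W g φ S c q' →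
        q = q' := by
      rintro _ - _ - _ ⟨z, hz, d, h1, rfl, rfl⟩ ⟨z', -, d', h2, e, rfl⟩
      obtain rfl : z' = z := hφ.injective (by rw [← lf_zero h1, ← lf_zero h2, e])
      rw [lf_uniq hLIFT hb hS hP hz h1 h2 e.symm]
    intro q q' hq hq' h
    have := stay (F := g ⁻¹' {φ c}) (fun q _ => W_open hLIFT hb hφ ho hS hc hP q) hd
      (s := cc g (φ '' S) q) isPreconnected_connectedComponentIn (fun y hy => by
        obtain ⟨z, hz, e⟩ := connectedComponentIn_subset _ _ hy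
        obtain ⟨d, h1, h2⟩ := lf_ex hLIFT hb hφ hS hP hz e.symm
        exact ⟨d 1, lf_one h1, z, hz, d, h1, h2, rfl⟩) hq
      (mem_connectedComponentIn (show g q ∈ φ '' S from ⟨c, hc, hq.symm⟩)) (hW q hq) h
    exact hd _ hq' _ hq _ (hW q' hq') this
  refine ⟨⟨?_, hu⟩, fun hn => ⟨?_, ?_⟩⟩
  · rintro y ⟨z, hz, e⟩
    obtain ⟨d, h1, rfl⟩ := lf_ex hLIFT hb hφ hS hP hz e.symm
    exact ⟨d 1, lf_cc hS hz h1 0 1, lf_one h1⟩
  · intro y y' hy e
    obtain ⟨z, hz, e'⟩ := connectedComponentIn_subset _ _ hy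
    obtain ⟨d, h1, rfl⟩ := lf_ex hLIFT hb hφ hS hP hz (e.symm.trans e'.symm)
    obtain ⟨d', h2, rfl⟩ := lf_ex hLIFT hb hφ hS hP hz e'.symm
    have h3 : d' 1 ∈ cc g (φ '' S) (d 1) := by
      have a1 : cc g (φ '' S) (d 1) = cc g (φ '' S) (d 0) :=
        connectedComponentIn_eq (lf_cc hS hz h1 1 0)
      have a2 : cc g (φ '' S) (d 0) = cc g (φ '' S) (d' 0) := connectedComponentIn_eq hy
      rw [a1, a2]
      exact lf_cc hS hz h2 0 1
    have key : ∀ t : unitInterval, g (d t) ∉ P := fun t hp => by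
      rw [h1.2] at hp
      exact hn (hP _ (rad_mem hS hz t.2.1 t.2.2) hp ▸ hp)
    rw [(hLIFT g P hb).2.2.2 d d' h1.1 h2.1 (fun t => by rw [h1.2, h2.2]) (fun t _ _ => key t) 1
      (key 1) (hu _ _ (lf_one h1) (lf_one h2) h3).symm]
  · rintro y ⟨z, hz, e⟩ _ ⟨w, hw, rfl⟩
    obtain ⟨d, h1, rfl⟩ := lf_ex hLIFT hb hφ hS hP hz e.symm
    obtain ⟨d', h2, h3, h4⟩ := (hLIFT g P hb).2.2.1 (fun t => φ (rad c w (1 - t)))
      (hφ.continuous.comp ((rad_cont c).comp
        (continuous_const.prodMk (continuous_const.sub continuous_subtype_val))))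
      (fun t _ hp => hn (hP _ (rad_mem hS hw (by linarith [t.2.2]) (by linarith [t.2.1])) hp ▸ hp))
      (d 1) (by simp [rad_one, lf_one h1])
    refine ⟨d' 1, ?_, by rw [h4]; simp [rad_zero]⟩
    have a1 : cc g (φ '' S) (d 0) = cc g (φ '' S) (d 1) :=
      connectedComponentIn_eq (lf_cc hS hz h1 0 1)
    rw [a1, ← h3]
    exact (isPreconnected_range h2).subset_connectedComponentIn ⟨0, rfl⟩
      (by
        rintro _ ⟨t, rfl⟩
        exact ⟨_, rad_mem hS hw (by linarith [t.2.2]) (by linarith [t.2.1]), (h4 t).symm⟩) ⟨1, rfl⟩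

end Pool.Agent.P.MP_cb5d8b_an.Pt

/-!
Star shaped sets have small lifts.
-/

namespace Pool.Agent.P.MP_cb5d8b_an.Pt

open Set Metric Filter Topology

namespace SmA

theorem piece {g : S2 → S2} {U : Set S2} {D : ℝ → S2} (hD : Continuous D) {s t : ℝ}
    (hst : s ≤ t) (h : ∀ u ∈ Icc s t, g (D u) ∈ U) : D t ∈ cc g U (D s) :=
  (isPreconnected_Icc.image D hD.continuousOn).subset_connectedComponentIn
    (mem_image_of_mem D (left_mem_Icc.2 hst)) (by rintro _ ⟨u, hu, rfl⟩; exact h u hu)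
    (mem_image_of_mem D (right_mem_Icc.2 hst))

theorem far (Φ : OnePoint ℂ ≃ₜ S2) (c : ℂ) {η : ℝ} (hη : 0 < η) :
    ∃ R : ℝ, 0 < R ∧ ∀ w : ℂ, R ≤ dist w c → Φ (w : ℂ) ∈ ball (Φ OnePoint.infty) η := by
  have h := (Φ.continuous.tendsto _).comp (OnePoint.tendsto_coe_infty (X := ℂ))
  rw [coclosedCompact_eq_cocompact] at h
  obtain ⟨K, hK, hK'⟩ := mem_cocompact.1 (h (ball_mem_nhds _ hη))
  obtain ⟨R, hR, hR'⟩ := hK.isBounded.subset_ball_lt 0 c
  exact ⟨R, hR, fun w hw => hK' fun h => absurd (mem_ball.1 (hR' h)) (not_lt.2 hw)⟩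

theorem chain (Φ : OnePoint ℂ ≃ₜ S2) (c : ℂ) {η : ℝ} (hη : 0 < η) :
    ∃ N : ℕ, ∀ (g : S2 → S2) (ε : ℝ), 0 ≤ ε → (∀ x, Sm g (ball x η) ε) → ∀ (z : ℂ) (D : ℝ → S2),
      z ≠ c → Continuous D → (∀ u ∈ Icc (0 : ℝ) 1, g (D u) = Φ (c + (1 - u) • (z - c) : ℂ)) →
      dist (D 1) (D 0) ≤ (N + 1) * ε := by
  obtain ⟨R, hR, hfar⟩ := far Φ c hη
  have hφ : Continuous fun z : ℂ => Φ z := Φ.continuous.comp OnePoint.continuous_coe
  obtain ⟨θ, hθ, huc⟩ := Metric.uniformContinuousOn_iff.1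
    ((isCompact_closedBall c R).uniformContinuousOn_of_continuous hφ.continuousOn) η hη
  obtain ⟨N, hN⟩ := exists_nat_gt (R / θ)
  have hN0 : (0 : ℝ) < N := (div_pos hR hθ).trans hN
  refine ⟨N, fun g ε hε hS z D hz hD hg => ?_⟩
  obtain ⟨ρ, hρe⟩ : ∃ ρ, ρ = ‖z - c‖ := ⟨_, rfl⟩
  have hρ : 0 < ρ := hρe ▸ norm_pos_iff.2 (sub_ne_zero.2 hz)
  have hd : ∀ u : ℝ, u ≤ 1 → dist (c + (1 - u) • (z - c)) c = (1 - u) * ρ := fun u hu => by
    rw [dist_eq_norm, add_sub_cancel_left, norm_smul, Real.norm_of_nonneg (sub_nonneg.2 hu), hρe]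
  obtain ⟨u0, h0, h1, h2, h3⟩ : ∃ u0 : ℝ, 0 ≤ u0 ∧ u0 ≤ 1 ∧ (1 - u0) * ρ ≤ R ∧
      dist (D u0) (D 0) ≤ ε := by
    rcases le_total ρ R with h | h
    · exact ⟨0, le_rfl, zero_le_one, by simpa using h, by simpa using hε⟩
    · have e : (1 - (1 - R / ρ)) * ρ = R := by field_simp; ring
      have a1 : R / ρ ≤ 1 := (div_le_one hρ).2 h
      have a2 : 0 < R / ρ := div_pos hR hρ
      refine ⟨1 - R / ρ, by linarith, by linarith, e.le,
        hS (Φ OnePoint.infty) _ _ (piece hD (by linarith) fun u hu => ?_)⟩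
      rw [hg u ⟨hu.1, by linarith [hu.2]⟩]
      refine hfar _ ?_
      rw [hd u (by linarith [hu.2]), ← e]
      exact mul_le_mul_of_nonneg_right (by linarith [hu.2]) hρ.le
  obtain ⟨δ, hδe⟩ : ∃ δ, δ = (1 - u0) / N := ⟨_, rfl⟩
  have hδ : 0 ≤ δ := hδe ▸ div_nonneg (sub_nonneg.2 h1) hN0.le
  have hNδ : u0 + N * δ = 1 := by rw [hδe]; field_simp; ring
  have hδθ : δ * ρ < θ := by
    rw [div_lt_iff₀ hθ] at hN
    rw [hδe, div_mul_eq_mul_div, div_lt_iff₀ hN0]
    linarith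
  have hin : ∀ u : ℝ, u0 ≤ u → u ≤ 1 → c + (1 - u) • (z - c) ∈ closedBall c R := fun u a b => by
    rw [mem_closedBall, hd u b]
    exact (mul_le_mul_of_nonneg_right (by linarith) hρ.le).trans h2
  have key : ∀ k : ℕ, k ≤ N → dist (D (u0 + k * δ)) (D 0) ≤ (k + 1) * ε := by
    intro k
    induction k with
    | zero => intro _; simpa using h3
    | succ k ih =>
      intro hk
      have hk' : ((k : ℝ) + 1) * δ ≤ N * δ :=
        mul_le_mul_of_nonneg_right (by exact_mod_cast hk) hδ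
      have hk0 : 0 ≤ (k : ℝ) * δ := by positivity
      have a1 : dist (D (u0 + (k + 1) * δ)) (D (u0 + k * δ)) ≤ ε := by
        refine hS (Φ (c + (1 - (u0 + k * δ)) • (z - c) : ℂ)) _ _
          (piece hD (by linarith) fun u hu => ?_)
        obtain ⟨b1, b2⟩ := hu
        rw [hg u ⟨by linarith, by linarith⟩]
        refine huc _ (hin u (by linarith) (by linarith)) _
          (hin _ (by linarith) (by linarith)) ?_
        rw [dist_eq_norm, add_sub_add_left_eq_sub, ← sub_smul, norm_smul, ← hρe,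
          Real.norm_of_nonpos (by linarith)]
        exact (mul_le_mul_of_nonneg_right (by linarith) hρ.le).trans_lt hδθ
      have a2 := ih (by omega)
      push_cast
      linarith [dist_triangle (D (u0 + (k + 1) * δ)) (D (u0 + k * δ)) (D 0)]
  have := key N le_rfl
  rwa [hNδ] at this

end SmA

theorem p_SM (hLIFT : S_LIFT) (hSTAR : S_STAR) : S_SM := by
  rintro f P hB ⟨η, hη, hRE⟩ Φ S c hS hstar hc hP ε hε
  have hφ : IsOpenEmbedding fun z : ℂ => Φ z :=
    Φ.isOpenEmbedding.comp OnePoint.isOpenEmbedding_coe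
  obtain ⟨N, hN⟩ := SmA.chain Φ c hη
  have hε' : 0 < ε / 2 / (N + 1) := by positivity
  filter_upwards [hRE _ hε'] with n hn
  have hC := (hSTAR _ P (hB n) _ hφ S c hS hstar hc hP).1
  have key : ∀ y, f^[n] y ∈ (fun z : ℂ => Φ z) '' S →
      ∃ q ∈ cc f^[n] ((fun z : ℂ => Φ z) '' S) y, f^[n] q = Φ (c : ℂ) ∧ dist q y ≤ ε / 2 := by
    rintro y hy
    obtain ⟨z, hz, e⟩ := id hy
    by_cases hzc : z = c
    · exact ⟨y, mem_connectedComponentIn hy, by rw [← e, hzc], by rw [dist_self]; positivity⟩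
    have hin : ∀ u ∈ Icc (0 : ℝ) 1, c + (1 - u) • (z - c) ∈ S := fun u hu =>
      hstar.add_smul_sub_mem hz (sub_nonneg.2 hu.2) (by linarith [hu.1])
    obtain ⟨d, hd, hd0, hd1⟩ := (hLIFT _ P (hB n)).2.2.1
      (fun t => Φ (c + (1 - (t : ℝ)) • (z - c) : ℂ)) (hφ.continuous.comp (by fun_prop))
      (fun t ht h => by
        have h1 := hP _ (hin t t.2) h
        rw [add_eq_left, smul_eq_zero, sub_eq_zero, sub_eq_zero] at h1
        exact h1.elim (fun h2 => ht (Subtype.ext h2.symm)) hzc) y (by simpa using e.symm)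
    have hD : Continuous (IccExtend zero_le_one d) := hd.Icc_extend'
    have hg : ∀ u ∈ Icc (0 : ℝ) 1, f^[n] (IccExtend zero_le_one d u) =
        Φ (c + (1 - u) • (z - c) : ℂ) := fun u hu => by
      rw [IccExtend_of_mem _ _ hu, hd1]
    have e0 : IccExtend zero_le_one d 0 = y := by rw [IccExtend_left]; exact hd0
    refine ⟨IccExtend zero_le_one d 1, ?_, by simpa using hg 1 (right_mem_Icc.2 zero_le_one), ?_⟩
    · rw [← e0]
      exact SmA.piece hD zero_le_one fun u hu => by rw [hg u hu]; exact ⟨_, hin u hu, rfl⟩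
    · have := hN _ _ hε'.le hn z _ hzc hD hg
      rwa [e0, mul_div_cancel₀ _ (by positivity)] at this
  intro y z hz
  have hy : y ∈ f^[n] ⁻¹' ((fun z : ℂ => Φ z) '' S) := by
    by_contra h
    rw [cc, connectedComponentIn_eq_empty h] at hz
    exact hz
  obtain ⟨q, hq, e, hd⟩ := key y hy
  obtain ⟨q', hq', e', hd'⟩ := key z
    (connectedComponentIn_subset (f^[n] ⁻¹' ((fun z : ℂ => Φ z) '' S)) y hz)
  have : q' = q := by
    refine hC.2 q q' e e' ?_
    rw [cc, ← connectedComponentIn_eq hq, connectedComponentIn_eq hz]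
    exact hq'
  rw [this] at hd'
  linarith [dist_triangle_left z y q]

end Pool.Agent.P.MP_cb5d8b_an.Pt

/-! Local complementary components of a Jordan curve accumulate at its points. -/

namespace Pool.Agent.P.MP_cb5d8b_an.Pt

open Set Metric Filter Topology

namespace LjA

/-- a periodic parametrisation that starts at a given point -/
theorem par {C : Set S2} (h : IsJordanCurve C) {x : S2} (hx : x ∈ C) :
    ∃ c : ℝ → S2, Continuous c ∧ c 0 = x ∧
      (∀ a b, b - a < 2 * Real.pi → InjOn c (Icc a b)) ∧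
      ∀ r, C ⊆ c '' Icc (-r) r ∪ c '' Icc r (2 * Real.pi - r) ∧
        c '' Icc r (2 * Real.pi - r) ⊆ C := by
  obtain ⟨γ, hc, hi, rfl⟩ := h
  obtain ⟨u, rfl⟩ := hx
  refine ⟨fun t => γ (u * Circle.exp t), by fun_prop, by simp, fun a b hab s hs t ht e =>
    Circle.exp_injOn_Icc hab hs ht (mul_left_cancel (hi e)), fun r => ⟨?_, ?_⟩⟩
  · rintro _ ⟨v, rfl⟩
    obtain ⟨s, hs⟩ := Circle.exp_surjective (u⁻¹ * v)
    obtain ⟨t, ht, e⟩ := Circle.periodic_exp.exists_mem_Ico Real.two_pi_pos s (-r)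
    have e' : γ (u * Circle.exp t) = γ v := by rw [← e, hs]; simp
    rcases le_total t r with h | h
    · exact Or.inl ⟨t, ⟨ht.1, h⟩, e'⟩
    · exact Or.inr ⟨t, ⟨h, by linarith [ht.2]⟩, e'⟩
  · rintro _ ⟨t, -, rfl⟩
    exact ⟨_, rfl⟩

/-- the starting point is not on the far arc -/
theorem far {c : ℝ → S2} (hi : ∀ a b, b - a < 2 * Real.pi → InjOn c (Icc a b)) {r : ℝ}
    (hr : 0 < r) : c 0 ∉ c '' Icc r (2 * Real.pi - r) := by
  rintro ⟨t, ht, e⟩
  have := hi 0 (2 * Real.pi - r) (by linarith) ⟨by linarith [ht.1], ht.2⟩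
    ⟨le_rfl, by linarith [ht.1, ht.2]⟩ e
  linarith [ht.1]

/-- a short parameter interval is mapped into a given neighbourhood -/
theorem small {c : ℝ → S2} (hc : Continuous c) {N : Set S2} (hN : N ∈ 𝓝 (c 0)) {s : ℝ}
    (hs : 0 < s) : ∃ r, 0 < r ∧ r ≤ s ∧ c '' Icc (-r) r ⊆ N := by
  obtain ⟨δ, hδ, hb⟩ := Metric.mem_nhds_iff.1 (hc.continuousAt.preimage_mem_nhds hN)
  refine ⟨min s (δ / 2), lt_min hs (half_pos hδ), min_le_left _ _, ?_⟩
  rintro _ ⟨t, ht, rfl⟩
  refine hb (?_ : dist t 0 < δ)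
  have := min_le_right s (δ / 2)
  rw [Real.dist_eq, sub_zero, abs_lt]
  constructor <;> linarith [ht.1, ht.2]

theorem dense {C : Set S2} (h : IsJordanCurve C) : Dense Cᶜ := by
  rw [← interior_eq_empty_iff_dense_compl, eq_empty_iff_forall_notMem]
  intro x hx
  obtain ⟨c, hc, rfl, hi, hC⟩ := par h (interior_subset hx)
  have hπ := Real.pi_gt_three
  obtain ⟨g, e, hg, -, he, hge⟩ := Jct.chart (c 2)
  have h0 : ∀ t ∈ Icc (-1 : ℝ) 1, c t ≠ c 2 := fun t ht e => by
    have := hi (-1) 2 (by linarith) ⟨ht.1, by linarith [ht.2]⟩ ⟨by norm_num, le_rfl⟩ e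
    linarith [ht.2]
  have hm : ∀ u : unitInterval, 2 * (u : ℝ) - 1 ∈ Icc (-1 : ℝ) 1 := fun u =>
    ⟨by linarith [u.2.1], by linarith [u.2.2]⟩
  have hD : Dense (range fun u : unitInterval => e (c (2 * (u : ℝ) - 1)))ᶜ :=
    Jct.dense_arc (he.comp_continuous (by fun_prop) fun u => h0 _ (hm u)) fun u v h => by
      have := hi (-1) 1 (by linarith) (hm u) (hm v)
        (by rw [← hge _ (h0 _ (hm u)), ← hge _ (h0 _ (hm v))]; exact congrArg g h)
      exact Subtype.ext (by linarith)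
  have hO : IsOpen (g ⁻¹' (interior C ∩ (c '' Icc 1 (2 * Real.pi - 1))ᶜ)) :=
    (isOpen_interior.inter (isCompact_Icc.image hc).isClosed.isOpen_compl).preimage hg.continuous
  obtain ⟨w, hw, hw'⟩ := hD.inter_open_nonempty _ hO ⟨e (c 0), by
    rw [mem_preimage, hge _ (h0 0 (by norm_num))]
    exact ⟨hx, far hi one_pos⟩⟩
  obtain ⟨t, ht, e'⟩ := ((hC 1).1 (interior_subset hw.1)).resolve_right hw.2
  refine hw' ⟨⟨(t + 1) / 2, by linarith [ht.1], by linarith [ht.2]⟩, hg.injective ?_⟩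
  have : 2 * ((t + 1) / 2) - 1 = t := by ring
  simp only [this]
  rw [hge _ (h0 t ht), e']

/-- an arc together with a closed set that meets it in a connected set -/
theorem sep {A K N : Set S2} {p q o z x : S2} (hA : ArcSet A p q) (hK : IsClosed K)
    (hAK : IsPreconnected (A ∩ K)) (hoA : o ∉ A) (hoK : o ∉ K) (hz : z ∉ A) (hx : x ∉ A)
    (hN : IsPreconnected N) (hNK : N ⊆ Kᶜ) (hoN : o ∉ N) (hzN : z ∈ N) (hxN : x ∈ N) :
    ∃ W : Set S2, IsPreconnected W ∧ W ⊆ (A ∪ K)ᶜ ∧ z ∈ W ∧ x ∈ W := by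
  obtain ⟨g, e, hg, -, he, hge⟩ := Jct.chart o
  have hr : ∀ S : Set S2, o ∉ S → S ⊆ range g := fun S h y hy =>
    ⟨e y, hge y fun e => h (e ▸ hy)⟩
  have pc : ∀ S : Set S2, o ∉ S → IsPreconnected S → IsPreconnected (g ⁻¹' S) := fun S h h' => by
    rw [← hg.isInducing.isPreconnected_image, image_preimage_eq_of_subset (hr S h)]
    exact h'
  have ez : g (e z) = z := hge z fun e => hoN (e ▸ hzN)
  have ex : g (e x) = x := hge x fun e => hoN (e ▸ hxN)
  have hA' := Jct.pull hg he hge hA hoA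
  have hK' : IsCompact (g ⁻¹' K) := hg.isInducing.isCompact_preimage' hK.isCompact (hr K hoK)
  have nz : ∀ w ∈ g ⁻¹' A, w - e z ≠ 0 := fun w hw h => hz (by
    rw [← ez, ← sub_eq_zero.1 h]; exact hw)
  have nx : ∀ w ∈ g ⁻¹' A, w - e x ≠ 0 := fun w hw h => hx (by
    rw [← ex, ← sub_eq_zero.1 h]; exact hw)
  have l1 : HasLog (fun w => (w - e z) / (w - e x)) (g ⁻¹' A) :=
    Lg.arc hA' (ContinuousOn.div (by fun_prop) (by fun_prop) nx)
      fun w hw => div_ne_zero (nz w hw) (nx w hw)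
  have l2 : HasLog (fun w => (w - e z) / (w - e x)) (g ⁻¹' K) :=
    Lg.move hK'.isClosed (pc N hoN hN) (fun w hw => hNK hw) (by rwa [mem_preimage, ez])
      (by rwa [mem_preimage, ex])
  have l3 := Lg.glue _ _ _ hA'.compact.isClosed hK'.isClosed (pc _ (fun h => hoA h.1) hAK) l1 l2
  have mz : e z ∉ g ⁻¹' A ∪ g ⁻¹' K := by
    rw [← preimage_union, mem_preimage, ez]
    exact fun h => h.elim hz (hNK hzN)
  have mx : e x ∉ g ⁻¹' A ∪ g ⁻¹' K := by
    rw [← preimage_union, mem_preimage, ex]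
    exact fun h => h.elim hx (hNK hxN)
  have hE := ((MP_d66c6d_pr.p_EIL MP_d66c6d_pr.p_LOGA MP_d66c6d_pr.p_FILL).2.1 _
    (hA'.compact.union hK') _ mz _ mx).2 l3
  refine ⟨g '' connectedComponentIn (g ⁻¹' A ∪ g ⁻¹' K)ᶜ (e z),
    isPreconnected_connectedComponentIn.image _ hg.continuous.continuousOn, ?_,
    ⟨_, mem_connectedComponentIn mz, ez⟩, ⟨_, hE, ex⟩⟩
  rintro _ ⟨w, hw, rfl⟩
  have := connectedComponentIn_subset _ _ hw
  exact this

theorem loc {C : Set S2} (h : IsJordanCurve C) (hcl : IsClosed C) {x : S2} (hx : x ∈ C)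
    {B : Set S2} (hB : IsOpen B) (hxB : x ∈ B) :
    ∃ B' ∈ 𝓝 x, ∀ z ∈ B' \ C, x ∈ closure (connectedComponentIn (B \ C) z) := by
  have : Fact (Module.finrank ℝ (EuclideanSpace ℝ (Fin 3)) = 2 + 1) := ⟨by simp⟩
  have : LocallyConnectedSpace S2 :=
    ChartedSpace.locallyConnectedSpace (EuclideanSpace ℝ (Fin 2)) S2
  obtain ⟨o, hoB, hoC⟩ := (dense h).inter_open_nonempty B hB ⟨x, hxB⟩
  obtain ⟨c, hc, rfl, hi, hC⟩ := par h hx
  have hπ := Real.pi_gt_three
  obtain ⟨r, hr, hr1, hal⟩ := small hc (hB.mem_nhds hxB) one_pos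
  set be := c '' Icc r (2 * Real.pi - r) with hbe
  have hK : IsClosed (be ∪ Bᶜ) := (isCompact_Icc.image hc).isClosed.union hB.isClosed_compl
  have hO : (be ∪ Bᶜ)ᶜ ∩ {o}ᶜ ∈ 𝓝 (c 0) :=
    (hK.isOpen_compl.inter isOpen_compl_singleton).mem_nhds
      ⟨fun h => h.elim (far hi hr) fun h => h hxB, fun e => hoC (e ▸ hx)⟩
  have hs := connectedComponentIn_subset ((be ∪ Bᶜ)ᶜ ∩ {o}ᶜ) (c 0)
  refine ⟨_, connectedComponentIn_mem_nhds hO, fun z hz => ?_⟩
  by_contra hn
  have hzB : z ∈ B \ C := ⟨not_not.1 fun h => (hs hz.1).1 (Or.inr h), hz.2⟩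
  set V := connectedComponentIn (B \ C) z with hV
  have hzV : z ∈ V := mem_connectedComponentIn hzB
  obtain ⟨s, hs0, hsr, hal'⟩ := small hc (isClosed_closure.isOpen_compl.mem_nhds hn) hr
  have hA : ArcSet (c '' Icc s (2 * Real.pi - s)) (c s) (c (2 * Real.pi - s)) :=
    ⟨c, s, _, by linarith, hc, hi _ _ (by linarith), rfl, rfl, rfl⟩
  have hAK : c '' Icc s (2 * Real.pi - s) ∩ (be ∪ Bᶜ) = be := by
    refine Subset.antisymm (fun w hw => hw.2.elim id fun h => ?_)
      (subset_inter (image_mono (Icc_subset_Icc hsr (by linarith))) subset_union_left)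
    exact ((hC r).1 ((hC s).2 hw.1)).resolve_left fun h' => h (hal h')
  obtain ⟨W, hW, hWs, hzW, hxW⟩ := sep (o := o) hA hK
    (by rw [hAK]; exact isPreconnected_Icc.image c hc.continuousOn) (fun h => hoC ((hC s).2 h))
    (fun h => h.elim (fun h => hoC ((hC r).2 h)) fun h => h hoB) (fun h => hz.2 ((hC s).2 h))
    (far hi hs0) isPreconnected_connectedComponentIn (fun w hw => (hs hw).1)
    (fun h => (hs h).2 rfl) hz.1 (mem_of_mem_nhds (connectedComponentIn_mem_nhds hO))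
  have hcov : W ⊆ V ∪ (closure V)ᶜ := fun w hw => by
    by_cases hw' : w ∈ closure V
    · have hwB : w ∈ B \ C := ⟨not_not.1 fun h => hWs hw (Or.inr (Or.inr h)), fun h =>
        ((hC s).1 h).elim (fun h => hal' h hw') fun h => hWs hw (Or.inl h)⟩
      have hp : IsPreconnected (insert w V) :=
        isPreconnected_connectedComponentIn.subset_closure (subset_insert _ _)
          (insert_subset hw' subset_closure)
      exact Or.inl (hp.subset_connectedComponentIn (mem_insert_of_mem _ hzV)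
        (insert_subset hwB (connectedComponentIn_subset _ _)) (mem_insert _ _))
    · exact Or.inr hw'
  rcases hW.subset_or_subset (hB.sdiff hcl).connectedComponentIn isClosed_closure.isOpen_compl
    (disjoint_compl_right.mono_left subset_closure) hcov with h | h
  · exact hn (subset_closure (h hxW))
  · exact h hzW (subset_closure hzV)

end LjA

theorem p_LJ : S_LJ := by
  intro C h
  have hcl : IsClosed C := by
    obtain ⟨γ, hc, -, rfl⟩ := h
    exact (isCompact_range hc).isClosed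
  refine ⟨hcl, LjA.dense h, fun x hx B hB => ?_⟩
  obtain ⟨B', h1, h2⟩ := LjA.loc h hcl hx isOpen_interior (mem_interior_iff_mem_nhds.2 hB)
  exact ⟨B', h1, fun z hz => closure_mono
    (connectedComponentIn_mono z (sdiff_subset_sdiff_left interior_subset)) (h2 z hz)⟩

end Pool.Agent.P.MP_cb5d8b_an.Pt

/-! Expansion is robust. -/

namespace Pool.Agent.P.MP_cb5d8b_an.Pt

open Set Metric Filter Topology

namespace SlA

theorem chart (x : S2) : ∃ (φ : ℂ → S2) (c : ℂ), IsOpenEmbedding φ ∧ φ c = x := by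
  have : Fact (Module.finrank ℝ (EuclideanSpace ℝ (Fin 3)) = 2 + 1) := ⟨by simp⟩
  let φ := (stereographic' 2 (-x)).transHomeomorph
    Complex.orthonormalBasisOneI.repr.symm.toHomeomorph
  have hs : φ.source = {-x}ᶜ := by simp [φ]
  have ht : φ.target = univ := by simp [φ]
  exact ⟨φ.symm, φ x, φ.symm.isOpenEmbedding ht, φ.left_inv (hs ▸ ne_neg_of_mem_unit_sphere ℝ x)⟩

theorem lpc : LocallyPathConnectedSpace S2 := by
  have : Fact (Module.finrank ℝ (EuclideanSpace ℝ (Fin 3)) = 2 + 1) := ⟨by simp⟩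
  exact ChartedSpace.locallyPathConnectedSpace (EuclideanSpace ℝ (Fin 2)) S2

theorem cc_mono (g : S2 → S2) {U V : Set S2} (h : U ⊆ V) (y : S2) : cc g U y ⊆ cc g V y :=
  connectedComponentIn_mono y (preimage_mono h)

theorem cc_self {g : S2 → S2} {U : Set S2} {y z : S2} (h : z ∈ cc g U y) : g y ∈ U :=
  (connectedComponentIn_nonempty_iff (F := g ⁻¹' U)).1 ⟨z, h⟩

theorem cc_mem {g : S2 → S2} {U : Set S2} {y z : S2} (h : z ∈ cc g U y) : g z ∈ U :=
  connectedComponentIn_subset (g ⁻¹' U) y h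

theorem cc_eq {g : S2 → S2} {U : Set S2} {y z : S2} (h : z ∈ cc g U y) :
    cc g U y = cc g U z := connectedComponentIn_eq h

/-- tiles are small -/
theorem tile {g : S2 → S2} {C : Set S2} {ε : ℝ}
    (h : ∀ x, diam (connectedComponentIn (g ⁻¹' C)ᶜ x) ≤ ε) : Sm g Cᶜ ε := fun y _ hz =>
  (dist_le_diam_of_mem isBounded_of_compactSpace hz
    (mem_connectedComponentIn (cc_self hz))).trans (h y)

/-- a point off the preimage of the curve is close to its centre -/
theorem off (hLIFT : S_LIFT) {g : S2 → S2} {P C B : Set S2} {x y q : S2} {ε : ℝ} (hg : Br g P)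
    (hPC : P ⊆ C) (hC : IsClosed C) (hB : IsOpen B) (hx : x ∈ B) (hc : Ctr g B x)
    (hs : Sm g Cᶜ ε) (hy : g y ∈ B \ C) (hcl : x ∈ closure (connectedComponentIn (B \ C) (g y)))
    (hq : q ∈ cc g B y) (hqx : g q = x) : dist q y ≤ ε := by
  have := lpc
  set V := connectedComponentIn (B \ C) (g y) with hV
  have hVs : V ⊆ B \ C := connectedComponentIn_subset _ _
  have hVo : IsOpen V := (hB.sdiff hC).connectedComponentIn
  have hyV : g y ∈ V := mem_connectedComponentIn hy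
  have hVp : IsPathConnected V :=
    hVo.isConnected_iff_isPathConnected.1 (isConnected_connectedComponentIn_iff.2 hy)
  have hyY : y ∈ cc g V y := mem_connectedComponentIn hyV
  have hon : V ⊆ g '' closure (cc g V y) := fun v hv => by
    obtain ⟨c, hcV⟩ := hVp.joinedIn _ hyV _ hv
    obtain ⟨d, hd, d0, hgd⟩ := (hLIFT g P hg).2.2.1 c c.continuous
      (fun t _ h => (hVs (hcV t)).2 (hPC h)) y c.source.symm
    refine ⟨d 1, subset_closure ?_, (hgd 1).trans c.target⟩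
    refine (isPreconnected_range hd).subset_connectedComponentIn ⟨0, d0⟩ ?_ ⟨1, rfl⟩
    rintro _ ⟨t, rfl⟩
    show g (d t) ∈ V
    rw [hgd]; exact hcV t
  obtain ⟨q', hq', hq'x⟩ : x ∈ g '' closure (cc g V y) :=
    closure_minimal hon (isClosed_closure.isCompact.image hg.cont).isClosed hcl
  have hin : q' ∈ cc g B y := by
    have hp : IsPreconnected (insert q' (cc g V y)) :=
      isPreconnected_connectedComponentIn.subset_closure (subset_insert _ _)
        (insert_subset hq' subset_closure)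
    refine hp.subset_connectedComponentIn (mem_insert_of_mem _ hyY) ?_ (mem_insert _ _)
    rintro w (rfl | hw)
    · show g w ∈ B
      rwa [hq'x]
    · exact (hVs (cc_mem hw)).1
  have e : q = q' := hc.2 q' q hq'x hqx (cc_eq hin ▸ hq)
  have hb : cc g V y ⊆ closedBall y ε := fun w hw =>
    hs y w (cc_mono g (fun v hv => (hVs hv).2) y hw)
  exact e ▸ closure_minimal hb isClosed_closedBall hq'

/-- the local statement at a point of the curve -/
theorem on (hLIFT : S_LIFT) {g : S2 → S2} {P C B U : Set S2} {x : S2} {ε : ℝ} (hg : Br g P)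
    (hPC : P ⊆ C) (hC : IsClosed C) (hD : Dense Cᶜ) (hB : IsOpen B) (hx : x ∈ B) (hc : Ctr g B x)
    (hs : Sm g Cᶜ ε) (hU : IsOpen U) (hUB : U ⊆ B)
    (hcl : ∀ z ∈ U \ C, x ∈ closure (connectedComponentIn (B \ C) z)) : Sm g U (ε + ε) := by
  have := lpc
  have key : ∀ y q, g y ∈ U → q ∈ cc g B y → g q = x → dist y q ≤ ε := fun y q hy hq hqx => by
    have ho : IsOpen (cc g B y ∩ g ⁻¹' U) :=
      (hB.preimage hg.cont).connectedComponentIn.inter (hU.preimage hg.cont)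
    have hb : cc g B y ∩ g ⁻¹' U ∩ g ⁻¹' Cᶜ ⊆ closedBall q ε := fun w hw => by
      rw [mem_closedBall, dist_comm]
      exact off hLIFT hg hPC hC hB hx hc hs ⟨hUB hw.1.2, hw.2⟩ (hcl _ ⟨hw.1.2, hw.2⟩)
        (cc_eq hw.1.1 ▸ hq) hqx
    exact closure_minimal hb isClosed_closedBall
      (((hLIFT g P hg).2.1 _ hD).open_subset_closure_inter ho
        ⟨mem_connectedComponentIn (hUB hy), hy⟩)
  intro y z hz
  obtain ⟨q, hq, hqx⟩ := hc.1 y (hUB (cc_self hz))
  exact (dist_triangle_right z y q).trans (add_le_add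
    (key z q (cc_mem hz) (cc_eq (cc_mono g hUB y hz) ▸ hq) hqx) (key y q (cc_self hz) hq hqx))

end SlA

open SlA in
theorem p_SL (hBC : S_BC) (hLIFT : S_LIFT) (hSTAR : S_STAR) (hLJ : S_LJ) : S_SL := by
  rintro f hf ⟨C, hJ, hPC, hE⟩
  obtain ⟨hC, hD, hL⟩ := hLJ C hJ
  have hBr : ∀ n : ℕ, Br f^[n] (post f) :=
    (hBC f hf).2 _ hf.2.2 Subset.rfl (hBC f hf).1
  have loc : ∀ x : S2, ∃ U : Set S2, IsOpen U ∧ x ∈ U ∧
      ∀ ε : ℝ, 0 < ε → ∀ᶠ n : ℕ in atTop, Sm f^[n] U ε := fun x => by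
    by_cases hx : x ∈ C
    · obtain ⟨φ, c, hφ, hcx⟩ := chart x
      have hcl : IsClosed (φ ⁻¹' (post f \ {x})) :=
        (hf.2.2.subset sdiff_subset).isClosed.preimage hφ.continuous
      obtain ⟨r, hr, hb⟩ := Metric.isOpen_iff.1 hcl.isOpen_compl c fun h => h.2 hcx
      have hB : IsOpen (φ '' ball c r) := hφ.isOpenMap _ isOpen_ball
      have hxB : x ∈ φ '' ball c r := ⟨c, mem_ball_self hr, hcx⟩
      obtain ⟨B', hB', hcl'⟩ := hL x hx _ (hB.mem_nhds hxB)
      refine ⟨interior (B' ∩ φ '' ball c r), isOpen_interior,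
        mem_interior_iff_mem_nhds.2 (inter_mem hB' (hB.mem_nhds hxB)), fun ε hε => ?_⟩
      filter_upwards [hE (ε / 2) (half_pos hε)] with n hn
      have hc := (hSTAR _ _ (hBr n) φ hφ (ball c r) c isOpen_ball
        ((convex_ball c r).starConvex (mem_ball_self hr)) (mem_ball_self hr) fun z hz hp => by
          by_contra hne
          exact hb hz ⟨hp, fun e => hne (hφ.injective (e.trans hcx.symm))⟩).1
      rw [hcx] at hc
      rw [← add_halves ε]
      exact on hLIFT (hBr n) hPC hC hD hB hxB hc (tile hn) isOpen_interior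
        (interior_subset.trans inter_subset_right)
        fun z hz => hcl' z ⟨(interior_subset hz.1).1, hz.2⟩
    · exact ⟨Cᶜ, hC.isOpen_compl, hx, fun ε hε => (hE ε hε).mono fun n hn => tile hn⟩
  choose U hUo hxU hU using loc
  obtain ⟨t, ht⟩ := isCompact_univ.elim_finite_subcover U hUo fun x _ => mem_iUnion.2 ⟨x, hxU x⟩
  obtain ⟨η, hη, hb⟩ := lebesgue_number_lemma_of_metric (c := fun i : t => U i) isCompact_univ
    (fun i => hUo i) fun x hx => by
      obtain ⟨i, hi, h⟩ := mem_iUnion₂.1 (ht hx)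
      exact mem_iUnion.2 ⟨⟨i, hi⟩, h⟩
  refine ⟨η, hη, fun ε hε => ?_⟩
  filter_upwards [eventually_all.2 fun i : t => hU i ε hε] with n hn x y z hz
  obtain ⟨i, hi⟩ := hb x (mem_univ x)
  exact hn i y z (cc_mono _ hi y hz)

end Pool.Agent.P.MP_cb5d8b_an.Pt

/-! Connectedness of balls, thickenings and punctured domains of the sphere. -/

namespace Pool.Agent.P.MP_cb5d8b_an.Pt

open Set Metric Filter Topology

namespace BallA

theorem dist_sq (y k : S2) : dist y k ^ 2 = 2 - 2 * inner ℝ y.1 k.1 := by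
  rw [Subtype.dist_eq, dist_eq_norm, norm_sub_sq_real, norm_eq_of_mem_sphere,
    norm_eq_of_mem_sphere]
  ring

theorem ball_pre (k : S2) (r : ℝ) : IsPreconnected (ball k r) := by
  have hk : ‖k.1‖ = 1 := norm_eq_of_mem_sphere k
  rcases le_or_gt r 0 with h0 | h0
  · rw [ball_eq_empty.2 h0]
    exact isPreconnected_empty
  rw [← IsInducing.subtypeVal.isPreconnected_image]
  rcases lt_or_ge 2 r with h2 | h2
  · have : ball k r = univ := eq_univ_of_forall fun y => by
      rw [mem_ball, Subtype.dist_eq, dist_eq_norm]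
      have := norm_sub_le y.1 k.1
      rw [norm_eq_of_mem_sphere, hk] at this
      linarith
    rw [this, image_univ, Subtype.range_coe]
    refine isPreconnected_sphere ?_ _ _
    rw [← Module.finrank_eq_rank]
    simp
  obtain ⟨c, hc⟩ : ∃ c : ℝ, c = 1 - r ^ 2 / 2 := ⟨_, rfl⟩
  have c1 : c < 1 := by rw [hc]; nlinarith
  have c2 : -1 ≤ c := by rw [hc]; nlinarith
  have hb : ∀ y : S2, y ∈ ball k r ↔ c < inner ℝ y.1 k.1 := fun y => by
    rw [mem_ball, ← sq_lt_sq₀ dist_nonneg h0.le, dist_sq, hc]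
    constructor <;> intro h <;> linarith
  have hkk : inner ℝ k.1 k.1 = (1 : ℝ) := by rw [real_inner_self_eq_norm_sq, hk]; norm_num
  let W : Set (EuclideanSpace ℝ (Fin 3)) := {w | c * ‖w‖ < inner ℝ w k.1}
  have hW0 : ∀ w ∈ W, w ≠ 0 := by
    rintro w hw rfl
    simp [W] at hw
  have hs : StarConvex ℝ k.1 W := by
    intro w hw a b ha hb' hab
    have hw' : c * ‖w‖ < inner ℝ w k.1 := hw
    change c * ‖a • k.1 + b • w‖ < inner ℝ (a • k.1 + b • w) k.1
    rw [inner_add_left, real_inner_smul_left, real_inner_smul_left, hkk]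
    rcases hb'.eq_or_lt with rfl | hb0
    · have : a = 1 := by linarith
      subst this
      simpa [hk] using c1
    have e1 : ‖a • k.1‖ = a := by rw [norm_smul, hk, Real.norm_of_nonneg ha, mul_one]
    have e2 : ‖b • w‖ = b * ‖w‖ := by rw [norm_smul, Real.norm_of_nonneg hb']
    have e3 : |‖a • k.1 + b • w‖ - b * ‖w‖| ≤ a := by
      have := abs_norm_sub_norm_le (a • k.1 + b • w) (b • w)
      rwa [add_sub_cancel_right, e1, e2] at this
    have e4 : c * (‖a • k.1 + b • w‖ - b * ‖w‖) ≤ a := by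
      refine (le_abs_self _).trans ?_
      rw [abs_mul]
      exact (mul_le_mul (abs_le.2 ⟨c2, c1.le⟩) e3 (abs_nonneg _) zero_le_one).trans_eq (one_mul a)
    have e5 := mul_lt_mul_of_pos_left hw' hb0
    nlinarith
  have hkW : k.1 ∈ W := by
    change c * ‖k.1‖ < inner ℝ k.1 k.1
    rw [hkk, hk, mul_one]
    exact c1
  have him : Subtype.val '' ball k r = (fun w => ‖w‖⁻¹ • w) '' W := by
    ext z
    constructor
    · rintro ⟨y, hy, rfl⟩
      have hy1 : ‖y.1‖ = 1 := norm_eq_of_mem_sphere y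
      refine ⟨y.1, ?_, by simp [hy1]⟩
      change c * ‖y.1‖ < inner ℝ y.1 k.1
      rw [hy1, mul_one]
      exact (hb y).1 hy
    · rintro ⟨w, hw, rfl⟩
      have hn : 0 < ‖w‖ := norm_pos_iff.2 (hW0 w hw)
      refine ⟨⟨‖w‖⁻¹ • w, by simp [norm_smul, hn.ne']⟩, (hb _).2 ?_, rfl⟩
      change c < inner ℝ (‖w‖⁻¹ • w) k.1
      rw [real_inner_smul_left, lt_inv_mul_iff₀ hn, mul_comm]
      exact hw
  rw [him]
  refine (hs.isPathConnected hkW).isConnected.isPreconnected.image _ ?_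
  exact (continuous_norm.continuousOn.inv₀ fun w hw => norm_ne_zero_iff.2 (hW0 w hw)).smul
    continuousOn_id

theorem disc (z0 : ℂ) (ε : ℝ) : IsPreconnected (ball z0 ε \ {z0}) := by
  have : ball z0 ε \ {z0} =
      (fun x : ℝ × ℝ => z0 + (x.1 : ℂ) * Complex.exp (x.2 * Complex.I)) '' (Ioo 0 ε ×ˢ univ) := by
    ext z
    simp only [mem_diff, mem_ball, mem_singleton_iff, dist_eq_norm]
    constructor
    · exact fun h => ⟨(‖z - z0‖, (z - z0).arg), ⟨⟨norm_pos_iff.2 (sub_ne_zero.2 h.2), h.1⟩,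
        trivial⟩, by simp only [Complex.norm_mul_exp_arg_mul_I]; ring⟩
    · rintro ⟨x, ⟨⟨h1, h2⟩, -⟩, rfl⟩
      refine ⟨by simpa [abs_of_pos h1] using h2, ?_⟩
      simpa using h1.ne'
  rw [this]
  exact (isPreconnected_Ioo.prod isPreconnected_univ).image _ (by fun_prop)

theorem one {U : Set S2} (hU : IsOpen U) (h : IsPreconnected U) (o : S2) :
    IsPreconnected (U \ {o}) := by
  by_cases ho : o ∈ U
  swap
  · rwa [diff_singleton_eq_self ho]
  obtain ⟨g, e, hg, hgo, he, hge⟩ := Jct.chart (-o)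
  have hne : o ≠ -o := ne_neg_of_mem_unit_sphere ℝ o
  have heg : ∀ z, e (g z) = z := fun z => hg.injective (hge _ (hgo z))
  obtain ⟨ε, hε, hb⟩ := Metric.isOpen_iff.1 (hU.preimage hg.continuous) (e o)
    (by rw [mem_preimage, hge o hne]; exact ho)
  have hV : g '' ball (e o) ε = {-o}ᶜ ∩ e ⁻¹' ball (e o) ε := by
    ext y
    constructor
    · rintro ⟨z, hz, rfl⟩
      exact ⟨hgo z, by rw [mem_preimage, heg]; exact hz⟩
    · exact fun hy => ⟨e y, hy.2, hge y hy.1⟩
  refine Jct.punct h (V := g '' ball (e o) ε) ?_ ⟨e o, mem_ball_self hε, hge o hne⟩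
    (image_subset_iff.2 hb) ?_
  · rw [hV]
    exact he.isOpen_inter_preimage isOpen_compl_singleton isOpen_ball
  · have : g '' ball (e o) ε \ {o} = g '' (ball (e o) ε \ {e o}) := by
      rw [image_diff hg.injective, image_singleton, hge o hne]
    rw [this]
    exact (disc _ _).image _ hg.continuous.continuousOn

end BallA

theorem p_BALL : S_BALL := by
  refine ⟨fun K r hK => isPreconnected_of_forall_pair fun x hx y hy => ?_, fun U Z hU h hZ => ?_⟩
  · obtain ⟨k, hk, hxk⟩ := mem_thickening_iff.1 hx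
    obtain ⟨k', hk', hyk⟩ := mem_thickening_iff.1 hy
    have hr : 0 < r := dist_nonneg.trans_lt hxk
    refine ⟨ball k r ∪ K ∪ ball k' r, union_subset (union_subset (ball_subset_thickening hk r)
      (self_subset_thickening hr K)) (ball_subset_thickening hk' r), Or.inl (Or.inl hxk),
      Or.inr hyk, ?_⟩
    exact IsPreconnected.union k' (Or.inr hk') (mem_ball_self hr)
      (IsPreconnected.union k (mem_ball_self hr) hk (BallA.ball_pre k r) hK) (BallA.ball_pre k' r)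
  · induction Z, hZ using Set.Finite.induction_on with
    | empty => rwa [diff_empty]
    | @insert o Z _ hZ ih =>
      rw [← union_singleton, ← diff_diff]
      exact BallA.one (hU.sdiff hZ.isClosed) ih o

end Pool.Agent.P.MP_cb5d8b_an.Pt
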