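import Pool.Agent.P.MP_cb5d8b_an.Pt.Iface

/-!
The plane minus finitely many radial rays, and star shaped neighbourhoods.
-/

namespace Pool.Agent.P.MP_cb5d8b_an.Pt

open Set Metric Filter Topology

namespace RayA

/-- real part of `z` times the conjugate of `p` -/
def ip (z p : ℂ) : ℝ := z.re * p.re + z.im * p.im

/-- imaginary part of `z` times the conjugate of `p` -/
def jp (z p : ℂ) : ℝ := z.im * p.re - z.re * p.im

theorem cont_ip (p : ℂ) : Continuous fun z => ip z p := by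
  unfold ip; fun_prop

theorem cont_jp (p : ℂ) : Continuous fun z => jp z p := by
  unfold jp; fun_prop

theorem ip_comb (a b : ℝ) (x y p : ℂ) : ip (a • x + b • y) p = a * ip x p + b * ip y p := by
  simp only [ip, Complex.add_re, Complex.add_im, Complex.smul_re, Complex.smul_im, smul_eq_mul]
  ring

theorem jp_comb (a b : ℝ) (x y p : ℂ) : jp (a • x + b • y) p = a * jp x p + b * jp y p := by
  simp only [jp, Complex.add_re, Complex.add_im, Complex.smul_re, Complex.smul_im, smul_eq_mul]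
  ring

theorem unit {p : ℂ} (h : p ∈ sphere (0 : ℂ) 1) : p.re ^ 2 + p.im ^ 2 = 1 := by
  have h1 : ‖p‖ = 1 := by simpa using h
  have h2 := Complex.sq_norm p
  rw [h1, Complex.normSq_apply] at h2
  nlinarith

theorem ip_self {p : ℂ} (h : p ∈ sphere (0 : ℂ) 1) : ip p p = 1 := by
  have := unit h
  unfold ip; nlinarith

theorem jp_self (p : ℂ) : jp p p = 0 := by
  unfold jp; ring

theorem ip_lt {p q : ℂ} (hp : p ∈ sphere (0 : ℂ) 1) (hq : q ∈ sphere (0 : ℂ) 1) (h : q ≠ p) :
    ip p q < 1 := by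
  have h1 := unit hp
  have h2 := unit hq
  by_contra hc
  push Not at hc
  unfold ip at hc
  have e1 : (q.re - p.re) ^ 2 + (q.im - p.im) ^ 2 ≤ 0 := by nlinarith
  have e2 : q.re - p.re = 0 := by
    have : (q.re - p.re) ^ 2 = 0 := by nlinarith [sq_nonneg (q.re - p.re), sq_nonneg (q.im - p.im)]
    exact pow_eq_zero_iff (two_ne_zero) |>.1 this
  have e3 : q.im - p.im = 0 := by
    have : (q.im - p.im) ^ 2 = 0 := by nlinarith [sq_nonneg (q.re - p.re), sq_nonneg (q.im - p.im)]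
    exact pow_eq_zero_iff (two_ne_zero) |>.1 this
  exact h (Complex.ext (by linarith) (by linarith))

theorem ip_ray {z p : ℂ} (hp : p ∈ sphere (0 : ℂ) 1) (h : jp z p = 0) (q : ℂ) :
    ip z q = ip z p * ip p q := by
  have h1 := unit hp
  unfold jp at h
  unfold ip
  have e1 : z.re = (z.re * p.re + z.im * p.im) * p.re := by
    linear_combination (-z.re) * h1 - p.im * h
  have e2 : z.im = (z.re * p.re + z.im * p.im) * p.im := by
    linear_combination (-z.im) * h1 + p.re * h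
  linear_combination q.re * e1 + q.im * e2

theorem ip_ball {z p : ℂ} (hp : p ∈ sphere (0 : ℂ) 1) (hz : z ∈ ball (0 : ℂ) 1) : ip z p < 1 := by
  have h1 := unit hp
  have h2 : ‖z‖ < 1 := by simpa using hz
  have h3 := Complex.sq_norm z
  rw [Complex.normSq_apply] at h3
  have h4 : ‖z‖ ^ 2 < 1 := by nlinarith [norm_nonneg z]
  unfold ip
  nlinarith [sq_nonneg (z.re - p.re), sq_nonneg (z.im - p.im)]

/-- the complement of the rays -/
def AA (Q : Set ℂ) : Set ℂ := {z | ∀ p ∈ Q, ¬ (jp z p = 0 ∧ 1 ≤ ip z p)}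

/-- the cone around the ray of `p` -/
def BB (Q : Set ℂ) (p : ℂ) : Set ℂ := {z | 0 < ip z p ∧ ∀ q ∈ Q, q ≠ p → ip z q < ip z p}

theorem pos_comb {a b u v : ℝ} (ha : 0 ≤ a) (hb : 0 ≤ b) (hab : a + b = 1) (hu : 0 < u)
    (hv : 0 < v) : 0 < a * u + b * v := by
  rcases ha.eq_or_lt with h | h
  · subst h
    have : b = 1 := by linarith
    subst this
    linarith
  · have := mul_pos h hu
    have := mul_nonneg hb hv.le
    linarith

theorem convex_BB (Q : Set ℂ) (p : ℂ) : Convex ℝ (BB Q p) := by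
  intro x hx y hy a b ha hb hab
  refine ⟨?_, fun q hq hne => ?_⟩
  · rw [ip_comb]; exact pos_comb ha hb hab hx.1 hy.1
  · rw [ip_comb, ip_comb]
    have := pos_comb ha hb hab (sub_pos.2 (hx.2 q hq hne)) (sub_pos.2 (hy.2 q hq hne))
    linarith

theorem ray_mem {Q : Set ℂ} (hQ : Q ⊆ sphere 0 1) {p z : ℂ} (hp : p ∈ Q) (h : jp z p = 0)
    (h1 : 0 < ip z p) : z ∈ BB Q p := by
  refine ⟨h1, fun q hq hne => ?_⟩
  rw [ip_ray (hQ hp) h q]
  have := ip_lt (hQ hp) (hQ hq) hne
  nlinarith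

theorem disj_BB {Q : Set ℂ} {p q : ℂ} (hp : p ∈ Q) (hq : q ∈ Q) (h : p ≠ q) :
    Disjoint (BB Q p) (BB Q q) := by
  rw [Set.disjoint_left]
  intro z h1 h2
  have := h1.2 q hq h.symm
  have := h2.2 p hp h
  linarith

theorem ray_main {Q : Set ℂ} (hf : Q.Finite) (hQ : Q ⊆ sphere 0 1) : Ray Q (AA Q) (BB Q) := by
  have hm : ∀ p ∈ Q, p ∈ BB Q p := fun p hp =>
    ray_mem hQ hp (jp_self p) (by rw [ip_self (hQ hp)]; exact one_pos)
  have hb : ball 0 1 ⊆ AA Q := fun z hz p hp h => absurd (ip_ball (hQ hp) hz) (not_lt.2 h.2)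
  refine ⟨?_, ?_, hb, ?_, ?_, ?_, hm, ?_, fun p hp q hq h => disj_BB hp hq h, ?_⟩
  · have e : AA Q = ⋂ p ∈ Q, {z | jp z p = 0 ∧ 1 ≤ ip z p}ᶜ := by
      ext z; simp only [AA, mem_ofPred_eq, mem_iInter, mem_compl_iff]
    rw [e]
    refine hf.isOpen_biInter fun p _ => isOpen_compl_iff.2 ?_
    exact (isClosed_eq (cont_jp p) continuous_const).inter
      (isClosed_le continuous_const (cont_ip p))
  · intro y hy a b ha hb' hab p hp h
    rw [jp_comb, ip_comb] at h
    have z1 : jp 0 p = 0 := by simp [jp]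
    have z2 : ip 0 p = 0 := by simp [ip]
    rw [z1, z2] at h
    obtain ⟨h1, h2⟩ := h
    have hb0 : b ≠ 0 := by
      rintro rfl
      linarith
    have h3 : jp y p = 0 := by
      have : b * jp y p = 0 := by linarith
      exact (mul_eq_zero.1 this).resolve_left hb0
    refine hy p hp ⟨h3, ?_⟩
    by_contra hc
    push Not at hc
    rcases le_total (ip y p) 0 with h4 | h4
    · nlinarith
    · nlinarith
  · rw [Set.disjoint_left]
    intro z hz hq
    exact hz z hq ⟨jp_self z, (ip_self (hQ hq)).ge⟩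
  · intro p _
    have e : BB Q p = {z | 0 < ip z p} ∩ ⋂ q ∈ Q \ {p}, {z | ip z q < ip z p} := by
      ext z
      simp only [BB, mem_ofPred_eq, mem_inter_iff, mem_iInter, Set.mem_sdiff,
        mem_singleton_iff, and_imp]
    rw [e]
    exact (isOpen_lt continuous_const (cont_ip p)).inter
      ((hf.subset Set.sdiff_subset).isOpen_biInter fun q _ => isOpen_lt (cont_ip q) (cont_ip p))
  · intro p hp
    exact (convex_BB Q p).starConvex (hm p hp)
  · intro p hp
    have e0 : ((1 / 2 : ℝ) • p) = (1 / 2 : ℝ) • p + (0 : ℝ) • p := by simp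
    have j0 : jp ((1 / 2 : ℝ) • p) p = 0 := by rw [e0, jp_comb, jp_self]; norm_num
    have i0 : ip ((1 / 2 : ℝ) • p) p = 1 / 2 := by rw [e0, ip_comb, ip_self (hQ hp)]; norm_num
    have hB : ((1 / 2 : ℝ) • p) ∈ BB Q p := ray_mem hQ hp j0 (by rw [i0]; norm_num)
    have key : StarConvex ℝ ((1 / 2 : ℝ) • p) (AA Q ∩ BB Q p) := by
      intro y hy a b ha hb' hab
      have hw := convex_BB Q p hB hy.2 ha hb' hab
      refine ⟨fun q hq h => ?_, hw⟩
      by_cases hqp : q = p
      · subst hqp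
        rw [jp_comb, ip_comb, j0, i0] at h
        obtain ⟨h1, h2⟩ := h
        have hb0 : b ≠ 0 := by
          rintro rfl
          linarith
        have h3 : jp y q = 0 := by
          have : b * jp y q = 0 := by linarith
          exact (mul_eq_zero.1 this).resolve_left hb0
        have h4 : ip y q < 1 := by
          by_contra hc
          exact hy.1 q hq ⟨h3, not_lt.1 hc⟩
        have h5 : 0 < b := lt_of_le_of_ne hb' (Ne.symm hb0)
        nlinarith
      · exact Set.disjoint_left.1 (disj_BB hq hp hqp)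
          (ray_mem hQ hq h.1 (lt_of_lt_of_le one_pos h.2)) hw
    refine key.isPathConnected ⟨fun q hq h => ?_, hB⟩
    by_cases hqp : q = p
    · subst hqp
      rw [i0] at h
      linarith [h.2]
    · exact Set.disjoint_left.1 (disj_BB hq hp hqp)
        (ray_mem hQ hq h.1 (lt_of_lt_of_le one_pos h.2)) hB
  · intro z
    by_cases hz : z ∈ AA Q
    · exact Or.inl hz
    · right
      simp only [AA, mem_ofPred_eq, not_forall, not_not] at hz
      obtain ⟨p, hp, h⟩ := hz
      exact ⟨p, hp, ray_mem hQ hp h.1 (lt_of_lt_of_le one_pos h.2)⟩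

theorem star_main {Q : Set ℂ} (hf : Q.Finite) (hQ : Q ⊆ sphere 0 1) {p : ℂ} (hp : p ∈ Q) :
    ∃ S : Set ℂ, IsOpen S ∧ StarConvex ℝ p S ∧ p ∈ S ∧ ball 0 1 ⊆ S ∧
      ∀ q ∈ Q, q ∈ S → q = p := by
  have hc : IsClosed (Q \ {p}) := (hf.subset Set.sdiff_subset).isClosed
  obtain ⟨r, hr, hsub⟩ := Metric.isOpen_iff.1 hc.isOpen_compl p (fun h => h.2 rfl)
  refine ⟨ball 0 1 ∪ ball p r, isOpen_ball.union isOpen_ball, ?_, Or.inr (mem_ball_self hr),
    subset_union_left, ?_⟩
  · intro y hy a b ha hb hab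
    rcases hy with hy | hy
    · rcases hb.eq_or_lt with h | h
      · subst h
        have : a = 1 := by linarith
        subst this
        right
        simpa using hr
      · left
        have h1 : ‖p‖ = 1 := by simpa using hQ hp
        have h2 : ‖y‖ < 1 := by simpa using hy
        rw [mem_ball_zero_iff]
        calc ‖a • p + b • y‖ ≤ ‖a • p‖ + ‖b • y‖ := norm_add_le _ _
          _ = a + b * ‖y‖ := by
            rw [norm_smul, norm_smul, h1, Real.norm_of_nonneg ha, Real.norm_of_nonneg hb, mul_one]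
          _ < 1 := by nlinarith
    · exact Or.inr (convex_ball p r (mem_ball_self hr) hy ha hb hab)
  · intro q hq h
    rcases h with h | h
    · have h1 : ‖q‖ = 1 := by simpa using hQ hq
      have h2 : ‖q‖ < 1 := by simpa using h
      linarith
    · by_contra hne
      exact hsub h ⟨hq, hne⟩

end RayA

theorem p_RAY : S_RAY := fun _ hf hQ =>
  ⟨⟨_, _, RayA.ray_main hf hQ⟩, fun _ hp => RayA.star_main hf hQ hp⟩

end Pool.Agent.P.MP_cb5d8b_an.Pt

/-!
Walks in the preimage of a drawing.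
-/

namespace Pool.Agent.P.MP_cb5d8b_an.Pt

open Set Metric Filter Topology

namespace WalkA

theorem lcS2 : LocallyConnectedSpace S2 := by
  haveI : Fact (Module.finrank ℝ (EuclideanSpace ℝ (Fin 3)) = 2 + 1) := ⟨by simp⟩
  exact ChartedSpace.locallyConnectedSpace (EuclideanSpace ℝ (Fin 2)) S2

theorem cc_eq {g : S2 → S2} {U : Set S2} {y z : S2} (h : z ∈ cc g U y) :
    cc g U y = cc g U z := connectedComponentIn_eq h

theorem cc_sub {g : S2 → S2} {U : Set S2} {y z : S2} (h : z ∈ cc g U y) : g z ∈ U :=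
  connectedComponentIn_subset (g ⁻¹' U) y h

theorem cc_self {g : S2 → S2} {U : Set S2} {y : S2} (h : g y ∈ U) : y ∈ cc g U y :=
  mem_connectedComponentIn (F := g ⁻¹' U) h

theorem cc_base {g : S2 → S2} {U : Set S2} {y z : S2} (h : z ∈ cc g U y) : g y ∈ U :=
  (connectedComponentIn_nonempty_iff (F := g ⁻¹' U) (x := y)).1 ⟨z, h⟩

theorem cc_path {g : S2 → S2} {U : Set S2} {y : S2} {d : unitInterval → S2} (hd : Continuous d)
    {J : Set unitInterval} (hJ : IsPreconnected J) (hU : ∀ t ∈ J, g (d t) ∈ U)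
    {s : unitInterval} (hs : s ∈ J) (h : d s ∈ cc g U y) {t : unitInterval} (ht : t ∈ J) :
    d t ∈ cc g U y := by
  rw [cc_eq h]
  have h1 : IsPreconnected (d '' J) := hJ.image d hd.continuousOn
  have h2 : d '' J ⊆ g ⁻¹' U := by
    rintro _ ⟨r, hr, rfl⟩
    exact hU r hr
  exact h1.subset_connectedComponentIn (mem_image_of_mem d hs) h2 (mem_image_of_mem d ht)

theorem bij_eq {g : S2 → S2} {U : Set S2} (hb : Bij g U) {y u w : S2} (hu : u ∈ cc g U y)
    (hw : w ∈ cc g U y) (h : g u = g w) : u = w := by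
  rw [cc_eq hw] at hu
  exact hb.1 w u hu h

theorem ctr_eq {g : S2 → S2} {U : Set S2} {c : S2} (hb : Ctr g U c) {y u w : S2}
    (hu : u ∈ cc g U y) (hw : w ∈ cc g U y) (h : g u = c) (h' : g w = c) : u = w := by
  rw [cc_eq hw] at hu
  exact hb.2 w u h' h hu

theorem lt_one {t : unitInterval} (h : t ≠ 1) : t < 1 := lt_of_le_of_ne t.2.2 h

theorem exists_tail {O : Set unitInterval} (hO : IsOpen O) (h1 : (1 : unitInterval) ∈ O) :
    ∃ s : unitInterval, s ≠ 1 ∧ Ici s ⊆ O := by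
  obtain ⟨l, hl, hsub⟩ := exists_Ioc_subset_of_mem_nhds (hO.mem_nhds h1) ⟨0, zero_lt_one⟩
  obtain ⟨s, hs1, hs2⟩ := exists_between hl
  exact ⟨s, hs2.ne, fun t ht => hsub ⟨hs1.trans_le ht, t.2.2⟩⟩

section

variable {V E : Type} {g : S2 → S2} {P : Set S2} {en : E → Bool → V} {x : V → S2}
  {a : E → unitInterval → S2} {U : Set S2} {δ : ℝ}

/-- `u` is the copy of the vertex `v` attached to the component of `y` -/
def W (g : S2 → S2) (en : E → Bool → V) (a : E → unitInterval → S2) (U : Set S2) (y : S2)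
    (v : V) (u : S2) : Prop :=
  ∃ (e : E) (b : Bool) (d : unitInterval → S2), Continuous d ∧ (∀ t, g (d t) = a e t) ∧
    d 0 ∈ cc g U y ∧ u = d (bI b) ∧ en e b = v

/-- the data used in the copy lemma -/
structure Dat (g : S2 → S2) (P : Set S2) (en : E → Bool → V) (x : V → S2)
    (a : E → unitInterval → S2) (U : Set S2) : Prop where
  adm : Adm P en x a
  bij : Bij g U
  inU : ∀ e t, a e t ∉ P → a e t ∈ U
  lift : ∀ c : unitInterval → S2, Continuous c → (∀ t, t ≠ 1 → c t ∉ P) → ∀ y, g y = c 0 →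
    ∃ d : unitInterval → S2, Continuous d ∧ d 0 = y ∧ ∀ t, g (d t) = c t
  uniq : ∀ d d' : unitInterval → S2, Continuous d → Continuous d' → (∀ t, g (d t) = g (d' t)) →
    (∀ t, t ≠ 0 → t ≠ 1 → g (d t) ∉ P) → ∀ t₀, g (d t₀) ∉ P → d t₀ = d' t₀ → d = d'

theorem Dat.exl (h : Dat g P en x a U) {y : S2} (hy : g y ∈ U) (e : E) :
    ∃ d : unitInterval → S2, Continuous d ∧ (∀ t, g (d t) = a e t) ∧ d 0 ∈ cc g U y := by
  have h0 : a e 0 ∈ U := h.inU e 0 (h.adm.avoid e 0 zero_ne_one)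
  obtain ⟨y', hy', hg⟩ := h.bij.2 y hy _ h0
  obtain ⟨d, hd, hd0, hgd⟩ := h.lift (a e) (h.adm.dr.cont e) (h.adm.avoid e) y' hg
  exact ⟨d, hd, hgd, hd0 ▸ hy'⟩

theorem Dat.inn (h : Dat g P en x a U) {y : S2} {e : E} {d : unitInterval → S2}
    (hd : Continuous d) (hgd : ∀ t, g (d t) = a e t) (h0 : d 0 ∈ cc g U y) {t : unitInterval}
    (ht : a e t ∉ P) : d t ∈ cc g U y := by
  refine cc_path hd (J := Iic t) isPreconnected_Iic (fun r hr => ?_) (s := 0) t.2.1 h0
    (mem_Iic.2 le_rfl)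
  rw [hgd]
  apply h.inU
  by_cases h1 : r = 1
  · have : t = r := le_antisymm (h1 ▸ t.2.2) hr
    exact this ▸ ht
  · exact h.adm.avoid e r h1

theorem Dat.img (h : Dat g P en x a U) {y u : S2} {v : V} (hu : W g en a U y v u) :
    g u = x v := by
  obtain ⟨e, b, d, -, hgd, -, rfl, rfl⟩ := hu
  rw [hgd, h.adm.dr.ends]

theorem Dat.mem (h : Dat g P en x a U) {y u : S2} {v : V} (hu : W g en a U y v u)
    (hv : x v ∉ P) : u ∈ cc g U y := by
  obtain ⟨e, b, d, hd, hgd, h0, rfl, rfl⟩ := hu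
  exact h.inn hd hgd h0 (by rwa [h.adm.dr.ends])

theorem Dat.true_of (h : Dat g P en x a U) {e : E} {b : Bool} (hv : x (en e b) ∈ P) :
    b = true := by
  cases b
  · exact absurd hv (h.adm.src e)
  · rfl

theorem Dat.unq (h : Dat g P en x a U) {y u w : S2} {v : V} (hu : W g en a U y v u)
    (hw : W g en a U y v w) : u = w := by
  by_cases hv : x v ∈ P
  · obtain ⟨e, b, d, hd, hgd, h0, rfl, rfl⟩ := hu
    obtain ⟨e', b', d', hd', hgd', h0', rfl, he⟩ := hw
    obtain rfl := h.true_of hv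
    obtain rfl := h.true_of (he ▸ hv)
    obtain rfl := h.adm.leafu e e' hv he.symm
    have : d = d' := by
      refine h.uniq d d' hd hd' (fun t => by rw [hgd, hgd']) (fun t _ h1 => ?_) 0 ?_ ?_
      · rw [hgd]; exact h.adm.avoid e t h1
      · rw [hgd]; exact h.adm.avoid e 0 zero_ne_one
      · exact bij_eq h.bij h0 h0' (by rw [hgd, hgd'])
    rw [this]
  · exact bij_eq h.bij (h.mem hu hv) (h.mem hw hv) (by rw [h.img hu, h.img hw])

theorem Dat.exw (h : Dat g P en x a U) {y : S2} (hy : g y ∈ U) (v : V) :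
    ∃ u, W g en a U y v u := by
  obtain ⟨e, b, he⟩ := h.adm.sur v
  obtain ⟨d, hd, hgd, h0⟩ := h.exl hy e
  exact ⟨_, e, b, d, hd, hgd, h0, rfl, he⟩

theorem Dat.near (h : Dat g P en x a U) (hs : Sm g U δ) {y u : S2} {v : V}
    (hu : W g en a U y v u) : dist u y ≤ δ := by
  obtain ⟨e, b, d, hd, hgd, h0, rfl, -⟩ := hu
  have hc : IsClosed {t : unitInterval | dist (d t) y ≤ δ} :=
    isClosed_le (hd.dist continuous_const) continuous_const
  by_contra hn
  cases b
  · exact hn (hs y _ h0)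
  · obtain ⟨s, hs1, hs2⟩ := exists_tail hc.isOpen_compl hn
    exact hs2 (mem_Ici.2 le_rfl) (hs y _ (h.inn hd hgd h0 (h.adm.avoid e s hs1)))

theorem Dat.rch (h : Dat g P en x a U) (hs : Sm g U δ) {y : S2} {D : Set S2}
    (hD : closedBall y δ ⊆ D) {v w : V} {u u' : S2} (hu : W g en a U y v u)
    (hu' : W g en a U y w u') : Rch (St g a) D u u' := by
  have hy : g y ∈ U := by
    obtain ⟨e, b, d, -, -, h0, -⟩ := hu
    exact cc_base h0
  have key := h.adm.conn v w
  induction key generalizing u' with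
  | refl => rw [h.unq hu hu']; exact Relation.ReflTransGen.refl
  | tail _ h2 ih =>
    obtain ⟨e, b, rfl, rfl⟩ := h2
    obtain ⟨d, hd, hgd, h0⟩ := h.exl hy e
    have h1 : W g en a U y (en e b) (d (bI b)) := ⟨e, b, d, hd, hgd, h0, rfl, rfl⟩
    have h2 : W g en a U y (en e (!b)) (d (bI (!b))) := ⟨e, !b, d, hd, hgd, h0, rfl, rfl⟩
    rw [h.unq hu' h2]
    refine Relation.ReflTransGen.tail (ih h1) ⟨hD (h.near hs h1), hD (h.near hs h2), e, ?_⟩
    cases b
    · exact Or.inl ⟨d, hd, rfl, rfl, hgd⟩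
    · exact Or.inr ⟨d, hd, rfl, rfl, hgd⟩

theorem Dat.link (h : Dat g P en x a U) (hUP : Disjoint U P) {O : Set S2} {c : S2}
    (hO : IsOpen O) (hc : c ∈ P) (hcO : c ∈ O) (hct : Ctr g O c) (hp : IsPathConnected (U ∩ O))
    {y q : S2} (hy : g y ∈ U) (hq : q ∈ cc g O y) (hgq : g q = c) :
    ∃ v, W g en a U y v q := by
  obtain ⟨v, rfl⟩ := h.adm.sub hc
  obtain ⟨e, b, rfl⟩ := h.adm.sur v
  obtain rfl := h.true_of hc
  have he : a e 1 = x (en e true) := h.adm.dr.ends e true
  obtain ⟨d, hd, hgd, h0⟩ := h.exl hy e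
  obtain ⟨s, hs1, hs2⟩ := exists_tail (hO.preimage (h.adm.dr.cont e))
    (show a e 1 ∈ O from he ▸ hcO)
  have hsP := h.adm.avoid e s hs1
  have hyO : g y ∈ O := cc_base hq
  obtain ⟨γ, hγ⟩ := hp.joinedIn (g y) ⟨hy, hyO⟩ (a e s) ⟨h.inU e s hsP, hs2 (mem_Ici.2 le_rfl)⟩
  obtain ⟨d', hd', hd0, hgd'⟩ := h.lift γ γ.continuous
    (fun t _ => disjoint_left.1 hUP (hγ t).1) y γ.source.symm
  have e1 : d' 1 ∈ cc g U y := cc_path hd' isPreconnected_univ
    (fun t _ => by rw [hgd']; exact (hγ t).1) (mem_univ 0)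
    (by rw [hd0]; exact cc_self hy) (mem_univ 1)
  have e2 : d' 1 ∈ cc g O y := cc_path hd' isPreconnected_univ
    (fun t _ => by rw [hgd']; exact (hγ t).2) (mem_univ 0)
    (by rw [hd0]; exact cc_self hyO) (mem_univ 1)
  have e3 : d' 1 = d s := bij_eq h.bij e1 (h.inn hd hgd h0 hsP) (by rw [hgd', hgd, γ.target])
  have e4 : d 1 ∈ cc g O y := cc_path hd (J := Ici s) isPreconnected_Ici
    (fun t ht => by rw [hgd]; exact hs2 ht) (mem_Ici.2 le_rfl) (e3 ▸ e2) s.2.2
  exact ⟨_, e, true, d, hd, hgd, h0, ctr_eq hct hq e4 hgq ((hgd 1).trans he), rfl⟩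

end

end WalkA

open WalkA in
theorem p_WALK (hLIFT : S_LIFT) (hSTAR : S_STAR) (hBALL : S_BALL) : S_WALK := by
  intro V E _ g P en x a Φ A B δ hBr hAdm hPr hball hRay hδ hSA hSB
  obtain ⟨-, hdense, hlift, huniq⟩ := hLIFT g P hBr
  haveI := lcS2
  set φ : ℂ → S2 := fun z : ℂ => Φ z with hφ
  have hemb : IsOpenEmbedding φ := Φ.isOpenEmbedding.comp OnePoint.isOpenEmbedding_coe
  have hAP : Disjoint (φ '' A) P := by
    rw [disjoint_left]
    rintro _ ⟨z, hz, rfl⟩ hP
    exact disjoint_left.1 hRay.dA hz hP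
  have h0A : (0 : ℂ) ∈ A := hRay.bA (mem_ball_self one_pos)
  have hbij : Bij g (φ '' A) :=
    (hSTAR g P hBr φ hemb A 0 hRay.oA hRay.sA h0A
      (fun z hz hP => absurd hP (disjoint_left.1 hAP (mem_image_of_mem φ hz)))).2
      (disjoint_left.1 hAP (mem_image_of_mem φ h0A))
  have hctr : ∀ p, φ p ∈ P → Ctr g (φ '' B p) (φ p) := fun p hp =>
    (hSTAR g P hBr φ hemb (B p) p (hRay.oB p hp) (hRay.sB p hp) (hRay.mB p hp) (fun z hz hP => by
      by_contra hne
      exact disjoint_left.1 (hRay.dB z hP p hp hne) (hRay.mB z hP) hz)).1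
  have h : Dat g P en x a (φ '' A) :=
    ⟨hAdm, hbij, fun e t ht => image_mono hRay.bA (hball e t ht), hlift, huniq⟩
  obtain ⟨e₀⟩ := ‹Nonempty E›
  let Att : S2 → S2 → Prop := fun y u => (∃ v, W g en a (φ '' A) y v u) ∨
    ∃ p, φ p ∈ P ∧ u ∈ cc g (φ '' B p) y ∧ g u = φ p
  have hnear : ∀ y u, Att y u → dist u y ≤ δ ∧ g u ∈ range x := by
    rintro y u (⟨v, hv⟩ | ⟨p, hp, hu, hg⟩)
    · exact ⟨h.near hSA hv, v, (h.img hv).symm⟩
    · exact ⟨hSB p hp y u hu, hAdm.sub (hg ▸ hp)⟩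
  have hloc : ∀ y, g y ∈ range φ → ∃ u, ∀ᶠ y' in 𝓝 y, Att y' u := by
    rintro y ⟨z, hz⟩
    rcases hRay.cov z with hA | ⟨p, hp, hB⟩
    · have hy : g y ∈ φ '' A := ⟨z, hA, hz⟩
      obtain ⟨u, e, b, d, h1, h2, h3, h4⟩ := h.exw hy (en e₀ false)
      have ho : IsOpen (cc g (φ '' A) y) :=
        ((hemb.isOpenMap A hRay.oA).preimage hBr.cont).connectedComponentIn
      refine ⟨u, mem_of_superset (ho.mem_nhds (cc_self hy)) fun y' hy' => ?_⟩
      exact Or.inl ⟨_, e, b, d, h1, h2, cc_eq hy' ▸ h3, h4⟩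
    · have hy : g y ∈ φ '' B p := ⟨z, hB, hz⟩
      obtain ⟨q, hq, hgq⟩ := (hctr p hp).1 y hy
      have ho : IsOpen (cc g (φ '' B p) y) :=
        ((hemb.isOpenMap _ (hRay.oB p hp)).preimage hBr.cont).connectedComponentIn
      refine ⟨q, mem_of_superset (ho.mem_nhds (cc_self hy)) fun y' hy' => ?_⟩
      exact Or.inr ⟨p, hp, cc_eq hy' ▸ hq, hgq⟩
  have hlink : ∀ y u p, g y ∈ φ '' A → φ p ∈ P → u ∈ cc g (φ '' B p) y → g u = φ p →
      ∃ v, W g en a (φ '' A) y v u := by
    intro y u p hy hp hu hg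
    refine h.link hAP (hemb.isOpenMap _ (hRay.oB p hp)) hp (mem_image_of_mem φ (hRay.mB p hp))
      (hctr p hp) ?_ hy hu hg
    rw [← image_inter hemb.injective]
    exact (hRay.cB p hp).image hemb.continuous
  have hW : ∀ y v u, W g en a (φ '' A) y v u → g y ∈ φ '' A := by
    rintro y v u ⟨e, b, d, -, -, h0, -⟩
    exact cc_base h0
  have hjoin : ∀ (D : Set S2) y u w, closedBall y δ ⊆ D → Att y u → Att y w →
      Rch (St g a) D u w := by
    rintro D y u w hD (⟨v, hv⟩ | ⟨p, hp, hu, hg⟩) (⟨v', hv'⟩ | ⟨p', hp', hu', hg'⟩)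
    · exact h.rch hSA hD hv hv'
    · obtain ⟨v', hv'⟩ := hlink y w p' (hW y v u hv) hp' hu' hg'
      exact h.rch hSA hD hv hv'
    · obtain ⟨v, hv⟩ := hlink y u p (hW y v' w hv') hp hu hg
      exact h.rch hSA hD hv hv'
    · obtain ⟨z, hz, e1⟩ := cc_base hu
      obtain ⟨z', hz', e2⟩ := cc_base hu'
      obtain rfl : z = z' := hemb.injective (e1.trans e2.symm)
      obtain rfl : p = p' := by
        by_contra hne
        exact disjoint_left.1 (hRay.dB p hp p' hp' hne) hz hz'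
      rw [ctr_eq (hctr p hp) hu hu' hg hg']
      exact Relation.ReflTransGen.refl
  have hself : ∀ y, g y ∈ range x → g y ∈ range φ ∧ Att y y := by
    rintro y ⟨v, hv⟩
    by_cases hP : x v ∈ P
    · obtain ⟨p, hp⟩ := hPr hP
      have hpP : φ p ∈ P := hp ▸ hP
      refine ⟨⟨p, hp.trans hv⟩, Or.inr ⟨p, hpP, cc_self ⟨p, hRay.mB p hpP, hp.trans hv⟩,
        (hp.trans hv).symm⟩⟩
    · obtain ⟨e, b, he⟩ := hAdm.sur v
      have hy : g y ∈ φ '' A := by
        rw [← hv, ← he, ← hAdm.dr.ends]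
        exact h.inU e _ (by rwa [hAdm.dr.ends, he])
      obtain ⟨u, hu⟩ := h.exw hy v
      obtain rfl : u = y := bij_eq hbij (h.mem hu hP) (cc_self hy) ((h.img hu).trans hv)
      exact ⟨image_subset_range φ A hy, Or.inl ⟨v, hu⟩⟩
  have hrange : ∀ w, w ∈ range φ ↔ w ≠ Φ OnePoint.infty := by
    intro w
    obtain ⟨w, rfl⟩ := Φ.surjective w
    constructor
    · rintro ⟨z, hz⟩ hw
      exact OnePoint.coe_ne_infty z (Φ.injective (hz.trans hw))
    · intro hw
      induction w using OnePoint.rec with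
      | infty => exact absurd rfl hw
      | coe z => exact ⟨z, rfl⟩
  refine ⟨fun z => ?_, fun N hN hNc u hu v hv hgu hgv => ?_⟩
  · have hd : Dense (range φ) :=
      Φ.surjective.denseRange.comp OnePoint.denseRange_coe Φ.continuous
    obtain ⟨y, hy, hyz⟩ := (hdense _ hd).exists_dist_lt z hδ
    obtain ⟨u, hu⟩ := hloc y hy
    obtain ⟨h1, h2⟩ := hnear y u hu.self_of_nhds
    refine ⟨u, h2, ?_⟩
    have := dist_triangle u y z
    rw [dist_comm] at hyz
    linarith
  · have hD : ∀ y ∈ N, closedBall y δ ⊆ thickening (3 * δ) N := fun y hy w hw =>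
      mem_thickening_iff.2 ⟨y, hy, by have := mem_closedBall.1 hw; linarith⟩
    have hM := hBALL.2 N _ hN hNc (hBr.fib (Φ OnePoint.infty))
    let R : S2 → S2 → Prop := fun y y' => y' ∈ N ∧ ∃ w w', Att y w ∧ Att y' w' ∧
      Rch (St g a) (thickening (3 * δ) N) w w'
    have key : R u v := by
      refine hM.induction₂' R (fun y hy => ?_) ?_ ⟨hu, (hrange _).1 (hself u hgu).1⟩
        ⟨hv, (hrange _).1 (hself v hgv).1⟩
      · obtain ⟨w, hw⟩ := hloc y ((hrange _).2 hy.2)
        filter_upwards [mem_nhdsWithin_of_mem_nhds hw, self_mem_nhdsWithin] with y' h1 h2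
        exact ⟨⟨h2.1, w, w, hw.self_of_nhds, h1, Relation.ReflTransGen.refl⟩,
          ⟨hy.1, w, w, h1, hw.self_of_nhds, Relation.ReflTransGen.refl⟩⟩
      · rintro y₁ y₂ y₃ - - - ⟨h2, w₁, w₂, a1, a2, r1⟩ ⟨h3, w₂', w₃, a2', a3, r2⟩
        exact ⟨h3, w₁, w₃, a1, a3, (r1.trans (hjoin _ y₂ _ _ (hD y₂ h2) a2 a2')).trans r2⟩
    obtain ⟨-, w, w', a1, a2, r⟩ := key
    exact ((hjoin _ u _ _ (hD u hu) (hself u hgu).2 a1).trans r).trans
      (hjoin _ v _ _ (hD v hv) a2 (hself v hgv).2)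

end Pool.Agent.P.MP_cb5d8b_an.Pt

/-!
Simple paths for a relation: extraction from a walk, and joining two paths.
-/

namespace Pool.Agent.P.MP_cb5d8b_an.Pt

open Set Metric Filter Topology

namespace PathA

theorem cut {α : Type} {R : α → α → Prop} {p : ℕ → α} {n i : ℕ} (h : Pth R p n) (hi : i ≤ n) :
    Pth R p i :=
  ⟨fun j hj => h.1 j (lt_of_lt_of_le hj hi), h.2.mono (Iic_subset_Iic.2 hi)⟩

theorem first (α : Type) (R : α → α → Prop) (D : Set α) (u v : α) (hu : u ∈ D)
    (h : Rch R D u v) : ∃ p n, Pth R p n ∧ p 0 = u ∧ p n = v ∧ ∀ i ≤ n, p i ∈ D := by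
  unfold Rch at h
  induction h with
  | refl =>
    refine ⟨fun _ => u, 0, ⟨fun i hi => absurd hi (Nat.not_lt_zero i), ?_⟩, rfl, rfl,
      fun _ _ => hu⟩
    intro a ha b hb _
    have h1 : a ≤ 0 := ha
    have h2 : b ≤ 0 := hb
    omega
  | @tail b w _ hbw ih =>
    obtain ⟨p, n, hp, h0, hn, hD⟩ := ih
    by_cases hw : ∃ i ≤ n, p i = w
    · obtain ⟨i, hi, e⟩ := hw
      exact ⟨p, i, cut hp hi, h0, e, fun j hj => hD j (hj.trans hi)⟩
    · refine ⟨fun i => if i ≤ n then p i else w, n + 1, ⟨?_, ?_⟩, ?_, ?_, ?_⟩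
      · intro i hi
        have hi' : i ≤ n := by omega
        simp only [if_pos hi']
        by_cases h1 : i + 1 ≤ n
        · rw [if_pos h1]; exact hp.1 i (by omega)
        · rw [if_neg h1]
          have e : i = n := by omega
          rw [e, hn]; exact hbw.2.2
      · intro a ha c hc e
        have ha' : a ≤ n + 1 := ha
        have hc' : c ≤ n + 1 := hc
        simp only at e
        by_cases h1 : a ≤ n
        · by_cases h2 : c ≤ n
          · rw [if_pos h1, if_pos h2] at e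
            exact hp.2 h1 h2 e
          · rw [if_pos h1, if_neg h2] at e
            exact absurd ⟨a, h1, e⟩ hw
        · by_cases h2 : c ≤ n
          · rw [if_neg h1, if_pos h2] at e
            exact absurd ⟨c, h2, e.symm⟩ hw
          · omega
      · simp only [if_pos (Nat.zero_le n)]; exact h0
      · simp only [if_neg (Nat.not_succ_le_self n)]
      · intro i _
        by_cases h1 : i ≤ n
        · simp only [if_pos h1]; exact hD i h1
        · simp only [if_neg h1]; exact hbw.2.1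

theorem second (α : Type) (R : α → α → Prop) (p q : ℕ → α) (n m : ℕ) (hp : Pth R p n)
    (hq : Pth R q m) (e : p n = q 0) :
    ∃ k ≤ n, ∃ k' ≤ m, p k = q k' ∧ (∀ i < k, ∀ j ≤ m, p i ≠ q j) ∧
      Pth R (fun i => if i ≤ k then p i else q (k' + (i - k))) (k + (m - k')) := by
  classical
  have hex : ∃ i, ∃ j ≤ m, p i = q j := ⟨n, 0, Nat.zero_le m, e⟩
  have hkn : Nat.find hex ≤ n := Nat.find_min' hex ⟨0, Nat.zero_le m, e⟩
  obtain ⟨k', hk', ek⟩ := Nat.find_spec hex
  have hmin : ∀ i < Nat.find hex, ∀ j ≤ m, p i ≠ q j := fun i hi j hj h =>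
    Nat.find_min hex hi ⟨j, hj, h⟩
  generalize Nat.find hex = k at hkn ek hmin
  refine ⟨k, hkn, k', hk', ek, hmin, ?_, ?_⟩
  · intro i hi
    by_cases h1 : i + 1 ≤ k
    · have h2 : i ≤ k := by omega
      simp only [if_pos h1, if_pos h2]
      exact hp.1 i (by omega)
    · by_cases h2 : i ≤ k
      · simp only [if_neg h1, if_pos h2]
        have e1 : i = k := by omega
        rw [e1, ek, show k' + (k + 1 - k) = k' + 1 by omega]
        exact hq.1 k' (by omega)
      · simp only [if_neg h1, if_neg h2]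
        rw [show k' + (i + 1 - k) = k' + (i - k) + 1 by omega]
        exact hq.1 _ (by omega)
  · have key : ∀ a c, a ≤ k → ¬ c ≤ k → c ≤ k + (m - k') → p a ≠ q (k' + (c - k)) := by
      intro a c h1 h2 h3 h4
      rcases h1.lt_or_eq with h5 | h5
      · exact hmin a h5 _ (by omega) h4
      · rw [h5, ek] at h4
        have := hq.2 (show k' ∈ Iic m from hk') (show k' + (c - k) ∈ Iic m from by
          show k' + (c - k) ≤ m
          omega) h4
        omega
    intro a ha c hc h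
    have ha' : a ≤ k + (m - k') := ha
    have hc' : c ≤ k + (m - k') := hc
    simp only at h
    by_cases h1 : a ≤ k
    · by_cases h2 : c ≤ k
      · rw [if_pos h1, if_pos h2] at h
        exact hp.2 (show a ∈ Iic n from h1.trans hkn) (show c ∈ Iic n from h2.trans hkn) h
      · rw [if_pos h1, if_neg h2] at h
        exact absurd h (key a c h1 h2 hc')
    · by_cases h2 : c ≤ k
      · rw [if_neg h1, if_pos h2] at h
        exact absurd h.symm (key c a h2 h1 ha')
      · rw [if_neg h1, if_neg h2] at h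
        have := hq.2 (show k' + (a - k) ∈ Iic m from by
          show k' + (a - k) ≤ m
          omega) (show k' + (c - k) ∈ Iic m from by
          show k' + (c - k) ≤ m
          omega) h
        omega

end PathA

theorem p_PATH : S_PATH := ⟨PathA.first, PathA.second⟩

end Pool.Agent.P.MP_cb5d8b_an.Pt

/-!
A star with at most three legs, by minimising the total length.
-/

namespace Pool.Agent.P.MP_cb5d8b_an.Pt

open Set Metric Filter Topology

namespace LegsA

variable {α : Type}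

/-- a walk from `v` to `h` that runs first in `W` and then in `F` -/
def Leg (R : α → α → Prop) (W F : Set α) (v h : α) (q : ℕ → α) (n : ℕ) : Prop :=
  q 0 = v ∧ q n = h ∧ (∀ i < n, R (q i) (q (i + 1))) ∧
    ∃ s ≤ n, (∀ i ≤ s, q i ∈ W) ∧ ∀ i, s ≤ i → i ≤ n → q i ∈ F

theorem Leg.drop {R : α → α → Prop} {W F : Set α} {v h : α} {q : ℕ → α} {n : ℕ}
    (H : Leg R W F v h q n) {i : ℕ} (hi : i ≤ n) (hW : q i ∈ W) :
    Leg R W F (q i) h (fun t => q (i + t)) (n - i) := by
  obtain ⟨-, h1, h2, s, hs, h3, h4⟩ := H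
  refine ⟨rfl, ?_, ?_, s - i, by omega, ?_, ?_⟩
  · show q (i + (n - i)) = h
    rw [show i + (n - i) = n by omega, h1]
  · intro t ht
    exact h2 (i + t) (by omega)
  · intro t ht
    rcases Nat.eq_zero_or_pos t with rfl | ht0
    · exact hW
    · exact h3 _ (by omega)
  · intro t ht ht'
    exact h4 _ (by omega) (by omega)

theorem Leg.cut {R : α → α → Prop} {W F : Set α} {v h : α} {q : ℕ → α} {n : ℕ}
    (H : Leg R W F v h q n) {a b : ℕ} (hab : a < b) (hb : b ≤ n) (he : q a = q b) :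
    Leg R W F v h (fun t => if t ≤ a then q t else q (t + (b - a))) (n - (b - a)) := by
  obtain ⟨h0, h1, h2, s, hs, h3, h4⟩ := H
  have key : ∀ t, a ≤ t → (if t ≤ a then q t else q (t + (b - a))) = q (t + (b - a)) := by
    intro t ht
    split_ifs with h
    · have : t = a := le_antisymm h ht
      subst this
      rw [show t + (b - t) = b by omega, he]
    · rfl
  refine ⟨by simpa using h0, ?_, ?_, ?_⟩
  · show (if n - (b - a) ≤ a then q (n - (b - a)) else q (n - (b - a) + (b - a))) = h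
    rw [key _ (by omega), show n - (b - a) + (b - a) = n by omega, h1]
  · intro t ht
    show R (if t ≤ a then q t else q (t + (b - a)))
      (if t + 1 ≤ a then q (t + 1) else q (t + 1 + (b - a)))
    rcases lt_or_ge t a with hta | hta
    · rw [if_pos hta.le, if_pos (by omega)]
      exact h2 t (by omega)
    · rw [key t hta, key (t + 1) (by omega), show t + 1 + (b - a) = t + (b - a) + 1 by omega]
      exact h2 _ (by omega)
  · rcases le_or_gt s a with hsa | hsa
    · refine ⟨s, by omega, fun t ht => ?_, fun t ht ht' => ?_⟩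
      · show (if t ≤ a then q t else q (t + (b - a))) ∈ W
        rw [if_pos (by omega)]
        exact h3 t ht
      · show (if t ≤ a then q t else q (t + (b - a))) ∈ F
        split_ifs with h
        · exact h4 t ht (by omega)
        · exact h4 _ (by omega) (by omega)
    · refine ⟨max a (s - (b - a)), by omega, fun t ht => ?_, fun t ht ht' => ?_⟩
      · show (if t ≤ a then q t else q (t + (b - a))) ∈ W
        split_ifs with h
        · exact h3 t (by omega)
        · exact h3 _ (by omega)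
      · show (if t ≤ a then q t else q (t + (b - a))) ∈ F
        rw [key t (by omega)]
        exact h4 _ (by omega) (by omega)

theorem Leg.prep {R : α → α → Prop} {W F : Set α} {v h : α} {q : ℕ → α} {n : ℕ}
    (hR : ∀ u v, R u v → R v u) (H : Leg R W F v h q n) {p : ℕ → α} {i : ℕ} (hp0 : p 0 = v)
    (hp : ∀ t < i, R (p t) (p (t + 1))) (hW : ∀ t ≤ i, p t ∈ W) :
    Leg R W F (p i) h (fun t => if t ≤ i then p (i - t) else q (t - i)) (n + i) := by
  obtain ⟨h0, h1, h2, s, hs, h3, h4⟩ := H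
  have key : ∀ t, i ≤ t → (if t ≤ i then p (i - t) else q (t - i)) = q (t - i) := by
    intro t ht
    split_ifs with h
    · have : t = i := le_antisymm h ht
      subst this
      rw [Nat.sub_self, hp0, h0]
    · rfl
  refine ⟨by simp, ?_, ?_, s + i, by omega, fun t ht => ?_, fun t ht ht' => ?_⟩
  · show (if n + i ≤ i then p (i - (n + i)) else q (n + i - i)) = h
    rw [key _ (by omega), Nat.add_sub_cancel, h1]
  · intro t ht
    show R (if t ≤ i then p (i - t) else q (t - i))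
      (if t + 1 ≤ i then p (i - (t + 1)) else q (t + 1 - i))
    rcases lt_or_ge t i with hti | hti
    · rw [if_pos hti.le, if_pos (by omega), show i - t = i - (t + 1) + 1 by omega]
      exact hR _ _ (hp _ (by omega))
    · rw [key t hti, key (t + 1) (by omega), show t + 1 - i = t - i + 1 by omega]
      exact h2 _ (by omega)
  · show (if t ≤ i then p (i - t) else q (t - i)) ∈ W
    split_ifs with h
    · exact hW _ (by omega)
    · exact h3 _ (by omega)
  · show (if t ≤ i then p (i - t) else q (t - i)) ∈ F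
    rw [key t (by omega)]
    exact h4 _ (by omega) (by omega)

theorem leg_init (hPATH : S_PATH) {R : α → α → Prop} {W F N : Set α} {h m o : α}
    (hR : ∀ u v, R u v → R v u) (hN : N ⊆ W) (hh : h ∈ F) (hm : m ∈ N)
    (h1 : Rch R F h m) (h2 : Rch R N m o) : ∃ q n, Leg R W F o h q n := by
  obtain ⟨p, a, ⟨hp, -⟩, hp0, hpa, hpF⟩ := hPATH.1 α R F h m hh h1
  obtain ⟨p', b, ⟨hp', -⟩, hp0', hpb, hpN⟩ := hPATH.1 α R N m o hm h2
  have L0 : Leg R W F m h (fun t => p (a - t)) a := by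
    refine ⟨by simpa using hpa, by simpa using hp0, fun t ht => ?_, 0, Nat.zero_le _,
      fun t ht => ?_, fun t _ _ => hpF _ (by omega)⟩
    · show R (p (a - t)) (p (a - (t + 1)))
      rw [show a - t = a - (t + 1) + 1 by omega]
      exact hR _ _ (hp _ (by omega))
    · show p (a - t) ∈ W
      rw [show a - t = a by omega, hpa]
      exact hN hm
  have L1 := L0.prep hR hp0' hp' (fun t ht => hN (hpN t ht))
  rw [hpb] at L1
  exact ⟨_, _, L1⟩

theorem sum_lt {J : Type} [Fintype J] [DecidableEq J] (hJ : Fintype.card J ≤ 3) (n n' : J → ℕ)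
    {j j' : J} (hj : j ≠ j') {i i' : ℕ} (hi' : 0 < i') (h1 : n' j + i = n j)
    (h2 : n' j' + i' = n j') (h3 : ∀ l, l ≠ j → l ≠ j' → n' l = n l + i) :
    ∑ l, n' l < ∑ l, n l := by
  have hm : j' ∈ (Finset.univ : Finset J).erase j := by simp [hj.symm]
  rw [← Finset.add_sum_erase _ n' (Finset.mem_univ j), ← Finset.add_sum_erase _ n' hm,
    ← Finset.add_sum_erase _ n (Finset.mem_univ j), ← Finset.add_sum_erase _ n hm]
  have hc : (((Finset.univ : Finset J).erase j).erase j').card ≤ 1 := by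
    rw [Finset.card_erase_of_mem hm, Finset.card_erase_of_mem (Finset.mem_univ j),
      Finset.card_univ]
    omega
  have he : ∑ l ∈ ((Finset.univ : Finset J).erase j).erase j', n' l =
      ∑ l ∈ ((Finset.univ : Finset J).erase j).erase j', n l +
        (((Finset.univ : Finset J).erase j).erase j').card * i := by
    rw [Finset.card_eq_sum_ones, Finset.sum_mul, ← Finset.sum_add_distrib]
    refine Finset.sum_congr rfl fun l hl => ?_
    simp only [Finset.mem_erase] at hl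
    rw [h3 l hl.2.1 hl.1, one_mul]
  have : (((Finset.univ : Finset J).erase j).erase j').card * i ≤ 1 * i :=
    Nat.mul_le_mul_right i hc
  omega

end LegsA

open LegsA

theorem p_LEGS (hPATH : S_PATH) : S_LEGS := by
  intro α J _ R W Far Near h m o hR hJ ho hN hh hm h1 h2 hd
  classical
  have : Fintype J := Fintype.ofFinite J
  have hex : ∃ N : ℕ, ∃ (v : α) (n : J → ℕ), ∑ l, n l = N ∧ v ∈ W ∧ (Nat.card J ≤ 1 → v = o) ∧
      ∀ j, ∃ q, Leg R W (Far j) v (h j) q (n j) := by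
    choose q n hq using fun j => leg_init hPATH hR (hN j) (hh j) (hm j) (h1 j) (h2 j)
    exact ⟨_, o, n, rfl, ho, fun _ => rfl, fun j => ⟨q j, hq j⟩⟩
  obtain ⟨v, n, hsum, hv, hvo, hq⟩ := Nat.find_spec hex
  have hmin : ∀ (v' : α) (n' : J → ℕ), v' ∈ W → (Nat.card J ≤ 1 → v' = o) →
      (∀ j, ∃ q, Leg R W (Far j) v' (h j) q (n' j)) → ∑ l, n l ≤ ∑ l, n' l := by
    intro v' n' a b c
    rw [hsum]
    exact Nat.find_min' hex ⟨v', n', rfl, a, b, c⟩
  choose q hq using hq
  have hcut : ∀ j a b, a < b → b ≤ n j → q j a ≠ q j b := by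
    intro j a b hab hb he
    have := hmin v (Function.update n j (n j - (b - a))) hv hvo fun l => by
      by_cases hl : l = j
      · subst hl
        rw [Function.update_self]
        exact ⟨_, (hq l).cut hab hb he⟩
      · rw [Function.update_of_ne hl]
        exact ⟨_, hq l⟩
    rw [Finset.sum_update_of_mem (Finset.mem_univ j), Finset.sdiff_singleton_eq_erase,
      ← Finset.add_sum_erase _ n (Finset.mem_univ j)] at this
    omega
  have hmove : ∀ j j', j ≠ j' → ∀ i ≤ n j, ∀ i' ≤ n j', q j i = q j' i' →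
      (∀ t ≤ i, q j t ∈ W) → i' = 0 := by
    intro j j' hj i hi i' hi' he hW
    by_contra h0
    have h3 : Fintype.card J ≤ 3 := by rwa [Nat.card_eq_fintype_card] at hJ
    have hlt := sum_lt h3 n
      (fun l => if l = j then n j - i else if l = j' then n j' - i' else n l + i) hj
      (i := i) (Nat.pos_of_ne_zero h0) (by simp only [if_true]; omega)
      (by simp only [if_neg hj.symm, if_true]; omega)
      (fun l a b => by simp only [if_neg a, if_neg b])
    refine absurd (hmin (q j i) _ (hW i le_rfl) (fun hc => ?_) fun l => ?_) (not_le.2 hlt)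
    · exfalso
      rw [Nat.card_eq_fintype_card] at hc
      exact hj (Fintype.card_le_one_iff.1 hc j j')
    · by_cases a : l = j
      · subst a
        simp only [if_true]
        exact ⟨_, (hq l).drop hi (hW i le_rfl)⟩
      · by_cases b : l = j'
        · subst b
          simp only [if_neg a, if_true]
          rw [he]
          exact ⟨_, (hq l).drop hi' (he ▸ hW i le_rfl)⟩
        · simp only [if_neg a, if_neg b]
          exact ⟨_, (hq l).prep hR (hq j).1 (fun t ht => (hq j).2.2.1 t (by omega)) hW⟩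
  refine ⟨v, q, n, hv, hvo, fun j => ⟨⟨(hq j).2.2.1, ?_⟩, (hq j).1, (hq j).2.1, ?_⟩, ?_⟩
  · intro a ha b hb he
    rcases lt_trichotomy a b with hab | hab | hab
    · exact absurd he (hcut j a b hab hb)
    · exact hab
    · exact absurd he.symm (hcut j b a hab ha)
  · intro i hi
    obtain ⟨-, -, -, s, -, h3, h4⟩ := hq j
    rcases le_total i s with a | a
    · exact Or.inr (h3 i a)
    · exact Or.inl (h4 i a hi)
  · intro j j' hj i hi i' hi' he
    obtain ⟨-, -, -, s, -, h3, h4⟩ := hq j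
    obtain ⟨-, -, -, s', -, h3', h4'⟩ := hq j'
    rcases le_total i s with a | a
    · have e := hmove j j' hj i hi i' hi' he fun t ht => h3 t (ht.trans a)
      exact ⟨hmove j' j hj.symm i' hi' i hi he.symm fun t ht => h3' t (by omega), e⟩
    · rcases le_total i' s' with b | b
      · have e := hmove j' j hj.symm i' hi' i hi he.symm fun t ht => h3' t (ht.trans b)
        exact ⟨e, hmove j j' hj i hi i' hi' he fun t ht => h3 t (by omega)⟩
      · exact absurd (Or.inl (he ▸ h4' i' b hi')) (Set.disjoint_left.1 (hd j j' hj) (h4 i a hi))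

end Pool.Agent.P.MP_cb5d8b_an.Pt

/-!
The copy of the graph in the preimage of the drawing.
-/

namespace Pool.Agent.P.MP_cb5d8b_an.Pt

open Set Metric Filter Topology

namespace LoneA

theorem rch_mono {α : Type} {R : α → α → Prop} {D D' : Set α} (h : D ⊆ D') {u v : α}
    (H : Rch R D u v) : Rch R D' u v := by
  induction H with
  | refl => exact Relation.ReflTransGen.refl
  | tail _ hh ih => exact ih.tail ⟨h hh.1, h hh.2.1, hh.2.2⟩

theorem walk (hBALL : S_BALL) {V E : Type} {g : S2 → S2} {x : V → S2}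
    {a : E → unitInterval → S2} {δ : ℝ} (hW : WalkP g x a δ) {K : Set S2}
    (hK : IsPreconnected K) {u v : S2} (hu : u ∈ thickening δ K) (hv : v ∈ thickening δ K)
    (gu : g u ∈ range x) (gv : g v ∈ range x) : Rch (St g a) (thickening (2 * δ) K) u v := by
  refine rch_mono ?_ (hW.2 _ isOpen_thickening (hBALL.1 K δ hK) u hu v hv gu gv)
  rw [two_mul]
  exact thickening_thickening_subset δ δ K

theorem rev {α : Type} {R : α → α → Prop} (hR : ∀ u v, R u v → R v u) {p : ℕ → α} {n : ℕ}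
    (h : Pth R p n) : Pth R (fun j => p (n - j)) n := by
  refine ⟨fun i hi => hR _ _ ?_, fun i hi j hj e => ?_⟩
  · have e : n - i = n - (i + 1) + 1 := by omega
    simp only [e]
    exact h.1 _ (by omega)
  · have := h.2 (show n - i ∈ Iic n from Nat.sub_le n i) (show n - j ∈ Iic n from Nat.sub_le n j) e
    have h1 : i ≤ n := hi
    have h2 : j ≤ n := hj
    omega

theorem ball_sub {K : Set S2} {δ : ℝ} (hδ : 0 < δ) {z : S2} (hz : z ∈ thickening (2 * δ) K) :
    closedBall z δ ⊆ thickening (4 * δ) K := by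
  intro w hw
  obtain ⟨u, hu, h⟩ := mem_thickening_iff.1 hz
  refine mem_thickening_iff.2 ⟨u, hu, ?_⟩
  have := dist_triangle w z u
  rw [mem_closedBall] at hw
  linarith

theorem leaf_eq {V E : Type} {P : Set S2} {en : E → Bool → V} {x : V → S2}
    {a : E → unitInterval → S2} (hA : Adm P en x a) {e e' : E} {b b' : Bool}
    (h : en e b = en e' b') (hP : x (en e b) ∈ P) : (e, b) = (e', b') := by
  cases b
  · exact absurd hP (hA.src e)
  cases b'
  · exact absurd (h ▸ hP) (hA.src e')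
  rw [hA.leafu e e' hP h]

theorem star (hBALL : S_BALL) (hLEGS : S_LEGS) {V E : Type} [Finite E] {g : S2 → S2} {P : Set S2}
    {en : E → Bool → V} {x : V → S2} {a : E → unitInterval → S2} {D : Set S2} {G : E → Set S2}
    {ε δ : ℝ} {KF KN : E → Bool → Set S2} (hA : Adm P en x a) (hP : MapsTo g P P) (hδ : 0 < δ)
    (hC : Cor P en x a D G ε (4 * δ) KF KN) (hW : WalkP g x a δ) (h : E → S2)
    (hg : ∀ e, g (h e) ∈ range x) (hh : ∀ e b, h e ∈ thickening δ (KF e b)) (v : V) :
    ∃ (w : S2) (q : E × Bool → ℕ → S2) (n : E × Bool → ℕ),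
      w ∈ thickening (2 * δ) (Kst en KN v) ∧ (x v ∈ P → w = x v) ∧
      (∀ j : E × Bool, en j.1 j.2 = v → Pth (St g a) (q j) (n j) ∧ q j 0 = w ∧ q j (n j) = h j.1 ∧
        ∀ i ≤ n j, q j i ∈ thickening (2 * δ) (KF j.1 j.2 ∪ Kst en KN v)) ∧
      ∀ j j' : E × Bool, en j.1 j.2 = v → en j'.1 j'.2 = v → j ≠ j' → ∀ i ≤ n j, ∀ i' ≤ n j',
        q j i = q j' i' → i = 0 ∧ i' = 0 := by
  classical
  have h12 : δ ≤ 2 * δ := by linarith
  have h24 : 2 * δ ≤ 4 * δ := by linarith
  obtain ⟨o, go, ho, oP⟩ : ∃ o, g o ∈ range x ∧ dist o (x v) < δ ∧ (x v ∈ P → o = x v) := by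
    by_cases hv : x v ∈ P
    · exact ⟨x v, hA.sub (hP hv), by simpa using hδ, fun _ => rfl⟩
    · obtain ⟨o, h1, h2⟩ := hW.1 (x v)
      exact ⟨o, h1, h2, fun h0 => absurd h0 hv⟩
  have hm : ∀ e b, ∃ m, g m ∈ range x ∧ m ∈ thickening δ (KF e b) ∧ m ∈ thickening δ (KN e b) := by
    intro e b
    obtain ⟨z, z1, z2⟩ := hC.link e b
    obtain ⟨m, h1, h2⟩ := hW.1 z
    exact ⟨m, h1, mem_thickening_iff.2 ⟨z, z1, h2⟩, mem_thickening_iff.2 ⟨z, z2, h2⟩⟩
  choose m gm mF mN using hm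
  have hsub : ∀ j : E × Bool, en j.1 j.2 = v → KN j.1 j.2 ⊆ Kst en KN v :=
    fun j hj z hz => ⟨j.1, j.2, hj, hz⟩
  have hoN : ∀ j : E × Bool, en j.1 j.2 = v → o ∈ thickening δ (KN j.1 j.2) := fun j hj =>
    mem_thickening_iff.2 ⟨x v, hj ▸ hC.vert j.1 j.2, ho⟩
  obtain ⟨e0, b0, h0⟩ := hA.sur v
  obtain ⟨w, q, n, w1, w2, w3, w4⟩ := hLEGS S2 {j : E × Bool | en j.1 j.2 = v} (St g a)
    (thickening (2 * δ) (Kst en KN v)) (fun j => thickening (2 * δ) (KF j.1.1 j.1.2))
    (fun j => thickening (2 * δ) (KN j.1.1 j.1.2)) (fun j => h j.1.1) (fun j => m j.1.1 j.1.2) o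
    (fun _ _ ⟨e, he⟩ => ⟨e, he.symm⟩) (by rw [Nat.card_coe_set_eq]; exact hA.deg v)
    (thickening_mono h12 _ (thickening_subset_of_subset _ (hsub (e0, b0) h0) (hoN (e0, b0) h0)))
    (fun j => thickening_subset_of_subset _ (hsub j.1 j.2))
    (fun j => thickening_mono h12 _ (hh _ _)) (fun j => thickening_mono h12 _ (mN _ _))
    (fun j => walk hBALL hW (hC.cF _ _) (hh _ _) (mF _ _) (hg _) (gm _ _))
    (fun j => walk hBALL hW (hC.cN _ _) (mN _ _) (hoN j.1 j.2) (gm _ _) go)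
    (fun i j hij => (hC.sep i.1.1 i.1.2 j.1.1 j.1.2 (i.2.trans j.2.symm)
      fun e => hij (Subtype.ext e)).mono (thickening_mono h24 _) (union_subset
        ((thickening_mono h24 _).trans (thickening_subset_of_subset _ subset_union_left))
        ((thickening_mono h24 _).trans (thickening_subset_of_subset _ subset_union_right))))
  refine ⟨w, fun j => if hj : en j.1 j.2 = v then q ⟨j, hj⟩ else fun _ => w,
    fun j => if hj : en j.1 j.2 = v then n ⟨j, hj⟩ else 0, w1, fun hv => ?_, fun j hj => ?_,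
    fun j j' hj hj' hne => ?_⟩
  · refine (w2 ?_).trans (oP hv)
    rw [Finite.card_le_one_iff_subsingleton]
    refine ⟨fun i j => Subtype.ext (leaf_eq hA (i.2.trans j.2.symm) ?_)⟩
    have : en i.1.1 i.1.2 = v := i.2
    rw [this]
    exact hv
  · simp only [dif_pos hj]
    obtain ⟨a1, a2, a3, a4⟩ := w3 ⟨j, hj⟩
    refine ⟨a1, a2, a3, fun i hi => ?_⟩
    rcases a4 i hi with h1 | h1
    · exact thickening_subset_of_subset _ subset_union_left h1
    · exact thickening_subset_of_subset _ subset_union_right h1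
  · simp only [dif_pos hj, dif_pos hj']
    exact w4 ⟨j, hj⟩ ⟨j', hj'⟩ fun e => hne (congrArg Subtype.val e)

end LoneA

open LoneA in
theorem p_L1 (hBALL : S_BALL) (hPATH : S_PATH) (hLEGS : S_LEGS) : S_L1 := by
  intro V E _ _ g P en x a D G ε δ KF KN hA hP hδ hC hW
  have h24 : 2 * δ ≤ 4 * δ := by linarith
  have hh : ∀ e, ∃ u, g u ∈ range x ∧ ∀ b, u ∈ thickening δ (KF e b) := by
    intro e
    obtain ⟨z, z1, z2⟩ := hC.mid e
    obtain ⟨u, h1, h2⟩ := hW.1 z
    refine ⟨u, h1, fun b => mem_thickening_iff.2 ⟨z, ?_, h2⟩⟩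
    cases b
    · exact z1
    · exact z2
  choose h hg hh using hh
  choose nv q n v1 v2 v3 v4 using star hBALL hLEGS hA hP hδ hC hW h hg hh
  have hsym : ∀ u v, St g a u v → St g a v u := fun _ _ ⟨e, he⟩ => ⟨e, he.symm⟩
  set Q : E → Bool → ℕ → S2 := fun e b => q (en e b) (e, b) with hQ
  set N : E → Bool → ℕ := fun e b => n (en e b) (e, b) with hN
  have w3 : ∀ e b, Pth (St g a) (Q e b) (N e b) ∧ Q e b 0 = nv (en e b) ∧ Q e b (N e b) = h e ∧
      ∀ i ≤ N e b, Q e b i ∈ thickening (2 * δ) (KF e b ∪ Kst en KN (en e b)) :=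
    fun e b => v3 (en e b) (e, b) rfl
  have w4 : ∀ e b e' b', en e b = en e' b' → e ≠ e' → ∀ i ≤ N e b, ∀ i' ≤ N e' b',
      Q e b i = Q e' b' i' → i = 0 ∧ i' = 0 := by
    intro e b e' b' he hne i hi i' hi' hq
    simp only [hQ, hN, ← he] at hi' hq
    exact v4 (en e b) (e, b) (e', b') rfl he.symm (fun e0 => hne (congrArg Prod.fst e0)) i hi i' hi' hq
  choose k hk k' hk' m1 m2 m3 using fun e => hPATH.2 S2 (St g a) (Q e false)
    (fun j => Q e true (N e true - j)) (N e false) (N e true) (w3 e false).1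
    (rev hsym (w3 e true).1) ((w3 e false).2.2.1.trans (w3 e true).2.2.1.symm)
  have hopp : ∀ e b i, i ≤ N e (!b) → nv (en e b) ≠ Q e (!b) i := fun e b i hi e0 =>
    disjoint_left.1 (hC.opp e b) (thickening_mono h24 _ (v1 _))
      (e0 ▸ thickening_mono h24 _ ((w3 e (!b)).2.2.2 i hi))
  have k0 : ∀ e, 0 < k e := fun e => Nat.pos_of_ne_zero fun h0 => by
    have := m1 e
    rw [h0, (w3 e false).2.1] at this
    exact hopp e false _ (Nat.sub_le _ _) this
  have k1 : ∀ e, k' e < N e true := fun e => lt_of_le_of_ne (hk' e) fun h0 => by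
    have := m1 e
    rw [h0, Nat.sub_self, (w3 e true).2.1] at this
    exact hopp e true _ (hk e) this.symm
  set len : E → ℕ := fun e => k e + (N e true - k' e) with hlen
  set y : E → ℕ → S2 := fun e i =>
    if i ≤ k e then Q e false i else Q e true (N e true - (k' e + (i - k e))) with hy
  have yF : ∀ e i, i ≤ k e → y e i = Q e false i := fun e i hi => if_pos hi
  have yT : ∀ e i, k e ≤ i → y e i = Q e true (N e true - (k' e + (i - k e))) := by
    intro e i hi
    rcases hi.eq_or_lt with rfl | hi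
    · rw [yF e _ le_rfl, m1 e, Nat.sub_self, add_zero]
    · exact if_neg (by omega)
  have hon : ∀ e, ∀ i ≤ len e, ∃ b j, j ≤ N e b ∧ y e i = Q e b j ∧
      (j = 0 → i = if b then len e else 0) := by
    intro e i hi
    by_cases h1 : i ≤ k e
    · exact ⟨false, i, h1.trans (hk e), yF e i h1, fun h0 => h0⟩
    · refine ⟨true, _, Nat.sub_le _ _, yT e i (by omega), fun h0 => ?_⟩
      have := hk' e
      simp only [hlen, if_true] at hi ⊢
      omega
  refine ⟨nv, len, k, y, fun e b => thickening (4 * δ) (KF e b ∪ Kst en KN (en e b)),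
    ⟨fun e => ?_, fun e => Nat.le_add_right _ _, fun e b => ?_, fun e => (m3 e).1, ?_, v2,
      fun e i hi => ?_, fun e i h1 h2 => ?_, hC.inG, hC.inD, fun e b e' b' hne => ?_⟩,
    fun v => hC.near v (thickening_mono h24 _ (v1 v)), hC.thin⟩
  · have := k0 e
    have := k1 e
    simp only [hlen]
    omega
  · cases b
    · exact (yF e 0 (Nat.zero_le _)).trans (w3 e false).2.1
    · refine (yT e (len e) (Nat.le_add_right _ _)).trans ?_
      have h1 := hk' e
      have h2 : N e true - (k' e + (len e - k e)) = 0 := by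
        simp only [hlen]
        omega
      rw [h2]
      exact (w3 e true).2.1
  · intro e e' i i' hi hi' hyy
    by_cases he : e = e'
    · subst he
      exact Or.inl ⟨rfl, (m3 e).2 hi hi' hyy⟩
    obtain ⟨b, j, j1, j2, j3⟩ := hon e i hi
    obtain ⟨b', j', j1', j2', j3'⟩ := hon e' i' hi'
    rw [j2, j2'] at hyy
    have hen : en e b = en e' b' := by
      by_contra hne
      exact disjoint_left.1 (hC.hh e b e' b' he hne) (thickening_mono h24 _ ((w3 e b).2.2.2 j j1))
        (hyy ▸ thickening_mono h24 _ ((w3 e' b').2.2.2 j' j1'))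
    obtain ⟨z1, z2⟩ := w4 e b e' b' hen he j j1 j' j1' hyy
    exact Or.inr ⟨b, b', j3 z1, j3' z2, hen⟩
  · rw [yF e i hi]
    exact ball_sub hδ ((w3 e false).2.2.2 i (hi.trans (hk e)))
  · rw [yT e i h1]
    exact ball_sub hδ ((w3 e true).2.2.2 _ (Nat.sub_le _ _))
  · by_cases he : e = e'
    · exact Or.inl he
    have hen : en e b = en e' b' := by
      by_contra h0
      exact not_disjoint_iff_nonempty_inter.2 hne (hC.hh e b e' b' he h0)
    exact Or.inr ⟨hen, fun hp => he (congrArg Prod.fst (leaf_eq hA hen hp))⟩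

end Pool.Agent.P.MP_cb5d8b_an.Pt

/-!
Corridors: far and near parts of the half edges of a drawing.
-/

namespace Pool.Agent.P.MP_cb5d8b_an.Pt

open Set Metric Filter Topology

namespace CorA

theorem ev_disj {A B : Set S2} (hA : IsCompact A) (hB : IsCompact B) (h : Disjoint A B) :
    ∀ᶠ ρ in 𝓝[>] (0 : ℝ), Disjoint (thickening ρ A) (thickening ρ B) := by
  obtain ⟨δ, hδ, hd⟩ := h.exists_thickenings hA hB.isClosed
  filter_upwards [Ioc_mem_nhdsGT hδ] with ρ hρ
  exact hd.mono (thickening_mono hρ.2 _) (thickening_mono hρ.2 _)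

theorem ev_sub {A U : Set S2} (hA : IsCompact A) (hU : IsOpen U) (h : A ⊆ U) :
    ∀ᶠ ρ in 𝓝[>] (0 : ℝ), thickening ρ A ⊆ U := by
  obtain ⟨δ, hδ, hd⟩ := hA.exists_thickening_subset_open hU h
  filter_upwards [Ioc_mem_nhdsGT hδ] with ρ hρ
  exact (thickening_mono hρ.2 _).trans hd

theorem cont_flp (b : Bool) : Continuous (flp b) := by
  cases b
  · exact continuous_id
  · exact unitInterval.continuous_symm

theorem flp_zero (b : Bool) : flp b 0 = bI b := by
  cases b <;> simp [flp, bI]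

theorem flp_coe (b : Bool) (t : unitInterval) :
    ((flp b t : unitInterval) : ℝ) = if b then 1 - (t : ℝ) else t := by
  cases b <;> simp [flp]

theorem bI_coe (b : Bool) : ((bI b : unitInterval) : ℝ) = if b then 1 else 0 := by
  cases b <;> simp [bI]

theorem flp_eq_bI {b c : Bool} {t : unitInterval} (ht : (t : ℝ) ≤ 1 / 2) (h : flp b t = bI c) :
    c = b ∧ t = 0 := by
  have h1 := congrArg Subtype.val h
  rw [flp_coe, bI_coe] at h1
  cases b <;> cases c <;> simp at h1
  · exact ⟨rfl, h1⟩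
  · rw [h1] at ht; norm_num at ht
  · exfalso; linarith
  · exact ⟨rfl, h1⟩

variable {V E : Type} {en : E → Bool → V} {x : V → S2} {a : E → unitInterval → S2}

theorem en_ne (h : Dr en x a) (e : E) {b b' : Bool} (hb : en e b = en e b') : b = b' := by
  have h1 : a e (bI b) = a e (bI b') := by rw [h.ends, h.ends, hb]
  rcases h.meet _ _ _ _ h1 with ⟨-, h2⟩ | ⟨h2, -⟩
  · cases b <;> cases b' <;> simp [bI] at h2 ⊢
  · exact absurd rfl h2

theorem meet' (h : Dr en x a) {e e' : E} {b b' : Bool} {t t' : unitInterval}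
    (ht : (t : ℝ) ≤ 1 / 2) (ht' : (t' : ℝ) ≤ 1 / 2) (hz : a e (flp b t) = a e' (flp b' t')) :
    (e = e' ∧ b = b') ∨ (e = e' ∧ (t : ℝ) = 1 / 2 ∧ (t' : ℝ) = 1 / 2) ∨
      (t = 0 ∧ en e b = en e' b') := by
  rcases h.meet _ _ _ _ hz with ⟨h1, h2⟩ | ⟨-, c, c', h2, h3, h4⟩
  · have h3 := congrArg Subtype.val h2
    rw [flp_coe, flp_coe] at h3
    cases b <;> cases b'
    · exact Or.inl ⟨h1, rfl⟩
    · simp only [Bool.false_eq_true, if_false, if_true] at h3
      exact Or.inr (Or.inl ⟨h1, by linarith, by linarith⟩)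
    · simp only [Bool.false_eq_true, if_false, if_true] at h3
      exact Or.inr (Or.inl ⟨h1, by linarith, by linarith⟩)
    · exact Or.inl ⟨h1, rfl⟩
  · obtain ⟨rfl, h5⟩ := flp_eq_bI ht h2
    obtain ⟨rfl, -⟩ := flp_eq_bI ht' h3
    exact Or.inr (Or.inr ⟨h5, h4⟩)

/-- the part of a half edge with parameters between `r` and `s` -/
def seg (a : E → unitInterval → S2) (r s : unitInterval) (e : E) (b : Bool) : Set S2 :=
  (fun t => a e (flp b t)) '' Icc r s

theorem seg_compact (h : Dr en x a) (r s : unitInterval) (e : E) (b : Bool) :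
    IsCompact (seg a r s e b) :=
  isCompact_Icc.image ((h.cont e).comp (cont_flp b))

theorem seg_conn (h : Dr en x a) (r s : unitInterval) (e : E) (b : Bool) :
    IsPreconnected (seg a r s e b) :=
  isPreconnected_Icc.image _ ((h.cont e).comp (cont_flp b)).continuousOn

theorem kst_compact [Finite E] {K : E → Bool → Set S2} (hK : ∀ e b, IsCompact (K e b)) (v : V) :
    IsCompact (Kst en K v) := by
  have : Kst en K v = ⋃ e, ⋃ b, ⋃ _ : en e b = v, K e b := by
    ext z; simp [Kst]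
  rw [this]
  exact isCompact_iUnion fun e => isCompact_iUnion fun b => isCompact_iUnion fun _ => hK e b

/-- the midpoint -/
noncomputable def hf : unitInterval := ⟨1 / 2, by norm_num, by norm_num⟩

theorem mem_star {τ : unitInterval} (hτ : (τ : ℝ) < 1 / 2) {e : E} {b : Bool} {z : S2}
    (hz : z ∈ seg a τ hf e b ∪ Kst en (seg a 0 τ) (en e b)) :
    ∃ (f : E) (c : Bool) (t : unitInterval), z = a f (flp c t) ∧ en f c = en e b ∧
      (t : ℝ) ≤ 1 / 2 ∧ ((t : ℝ) = 1 / 2 → f = e) := by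
  rcases hz with ⟨t, ht, rfl⟩ | ⟨f, c, h1, t, ht, rfl⟩
  · exact ⟨e, b, t, rfl, rfl, ht.2, fun _ => rfl⟩
  · have h2 : (t : ℝ) ≤ τ := ht.2
    exact ⟨f, c, t, rfl, h1, by linarith, fun h => by linarith⟩

theorem in_P {P : Set S2} (h : Adm P en x a) {f : E} {c : Bool} {t : unitInterval}
    (ht : (t : ℝ) ≤ 1 / 2) (hz : a f (flp c t) ∈ P) : c = true ∧ x (en f true) ∈ P := by
  have h1 : flp c t = bI true := by
    by_contra h2
    exact h.avoid f _ h2 hz
  rw [h1, h.dr.ends] at hz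
  exact ⟨(flp_eq_bI ht h1).1.symm, hz⟩

theorem ex_tau [Finite E] (h : Dr en x a) {ε : ℝ} (hε : 0 < ε) :
    ∃ τ : unitInterval, 0 < (τ : ℝ) ∧ (τ : ℝ) < 1 / 2 ∧
      ∀ e b, seg a 0 τ e b ⊆ ball (x (en e b)) ε := by
  have h1 : ∀ᶠ t in 𝓝 (0 : unitInterval), ∀ e b, a e (flp b t) ∈ ball (x (en e b)) ε := by
    refine eventually_all.2 fun e => eventually_all.2 fun b => ?_
    have h2 : ContinuousAt (fun t => a e (flp b t)) 0 :=
      ((h.cont e).comp (cont_flp b)).continuousAt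
    refine h2.eventually (isOpen_ball.mem_nhds ?_)
    simp only [flp_zero, h.ends]
    exact mem_ball_self hε
  obtain ⟨r, hr, h2⟩ := Metric.eventually_nhds_iff.1 h1
  have h3 : 0 < min (r / 2) (1 / 4) := lt_min (by linarith) (by norm_num)
  have h4 : min (r / 2) (1 / 4) ≤ 1 / 4 := min_le_right _ _
  have h5 : min (r / 2) (1 / 4) ≤ r / 2 := min_le_left _ _
  refine ⟨⟨min (r / 2) (1 / 4), h3.le, by linarith⟩, h3, by linarith, ?_⟩
  rintro e b z ⟨t, ht, rfl⟩
  refine h2 ?_ e b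
  have h6 : (t : ℝ) ≤ min (r / 2) (1 / 4) := ht.2
  rw [Subtype.dist_eq, Real.dist_eq]
  simp only [Icc.coe_zero, sub_zero, abs_of_nonneg t.2.1]
  linarith

end CorA

open CorA

theorem p_COR : S_COR := by
  intro V E _ _ P en x a D G h hD hG hDG haG haD ε hε
  obtain ⟨τ, h0, h1, hτ⟩ := ex_tau h.dr hε
  have hτh : τ ≤ hf := h1.le
  have cF := seg_compact h.dr τ hf
  have cN := seg_compact h.dr 0 τ
  have cK : ∀ v, IsCompact (Kst en (seg a 0 τ) v) := kst_compact cN
  have cS : ∀ e b, IsCompact (seg a τ hf e b ∪ Kst en (seg a 0 τ) (en e b)) :=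
    fun e b => (cF e b).union (cK _)
  have near : ∀ v, Kst en (seg a 0 τ) v ⊆ ball (x v) ε := by
    rintro v z ⟨e, b, rfl, hz⟩
    exact hτ e b hz
  have e1 : ∀ᶠ ρ in 𝓝[>] (0 : ℝ), ∀ e b e' b', en e b = en e' b' → (e, b) ≠ (e', b') →
      Disjoint (thickening ρ (seg a τ hf e b))
        (thickening ρ (seg a τ hf e' b' ∪ seg a 0 τ e' b')) := by
    simp only [eventually_all]
    intro e b e' b' h2 h3
    refine ev_disj (cF e b) ((cF _ _).union (cN _ _)) (Set.disjoint_left.2 ?_)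
    rintro z ⟨t, ht, rfl⟩ hz
    have h4 : ∃ t' : unitInterval, (t' : ℝ) ≤ 1 / 2 ∧ a e (flp b t) = a e' (flp b' t') := by
      rcases hz with ⟨t', ht', hz⟩ | ⟨t', ht', hz⟩
      · exact ⟨t', ht'.2, hz.symm⟩
      · exact ⟨t', (ht'.2.trans hτh : t' ≤ hf), hz.symm⟩
    obtain ⟨t', ht', hz⟩ := h4
    rcases meet' h.dr ht.2 ht' hz with ⟨rfl, rfl⟩ | ⟨rfl, -⟩ | ⟨rfl, -⟩
    · exact h3 rfl
    · exact h3 (by rw [en_ne h.dr e h2])
    · exact absurd h0 (not_lt.2 ht.1)
  have e2 : ∀ᶠ ρ in 𝓝[>] (0 : ℝ), ∀ e b e' b', e ≠ e' → en e b ≠ en e' b' →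
      Disjoint (thickening ρ (seg a τ hf e b ∪ Kst en (seg a 0 τ) (en e b)))
        (thickening ρ (seg a τ hf e' b' ∪ Kst en (seg a 0 τ) (en e' b'))) := by
    simp only [eventually_all]
    intro e b e' b' h2 h3
    refine ev_disj (cS _ _) (cS _ _) (Set.disjoint_left.2 fun z hz hz' => ?_)
    obtain ⟨f, c, t, rfl, h4, h5, h6⟩ := mem_star h1 hz
    obtain ⟨f', c', t', h7, h4', h5', h6'⟩ := mem_star h1 hz'
    rcases meet' h.dr h5 h5' h7 with ⟨rfl, rfl⟩ | ⟨rfl, h8, h9⟩ | ⟨-, h8⟩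
    · exact h3 (h4.symm.trans h4')
    · exact h2 ((h6 h8).symm.trans (h6' h9))
    · exact h3 (h4.symm.trans (h8.trans h4'))
  have e3 : ∀ᶠ ρ in 𝓝[>] (0 : ℝ), ∀ e b, Disjoint (thickening ρ (Kst en (seg a 0 τ) (en e b)))
      (thickening ρ (seg a τ hf e (!b) ∪ Kst en (seg a 0 τ) (en e (!b)))) := by
    simp only [eventually_all]
    intro e b
    have h3 : en e b ≠ en e (!b) := fun h2 => by simpa using en_ne h.dr e h2
    refine ev_disj (cK _) (cS _ _) (Set.disjoint_left.2 ?_)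
    rintro z ⟨f, c, h4, t, ht, rfl⟩ hz'
    have h5 : (t : ℝ) ≤ τ := ht.2
    obtain ⟨f', c', t', h7, h4', h5', -⟩ := mem_star h1 hz'
    rcases meet' h.dr (by linarith) h5' h7 with ⟨rfl, rfl⟩ | ⟨-, h8, -⟩ | ⟨-, h8⟩
    · exact h3 (h4.symm.trans h4')
    · linarith
    · exact h3 (h4.symm.trans (h8.trans h4'))
  have e4 : ∀ᶠ ρ in 𝓝[>] (0 : ℝ), ∀ e b, x (en e b) ∉ P →
      thickening ρ (seg a τ hf e b ∪ Kst en (seg a 0 τ) (en e b)) ⊆ D := by
    simp only [eventually_all]
    intro e b h2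
    refine ev_sub (cS _ _) hD fun z hz => ?_
    obtain ⟨f, c, t, rfl, h4, h5, -⟩ := mem_star h1 hz
    refine haD _ _ fun h6 => h2 ?_
    obtain ⟨rfl, h7⟩ := in_P h h5 h6
    exact h4 ▸ h7
  have e5 : ∀ᶠ ρ in 𝓝[>] (0 : ℝ), ∀ e b,
      thickening ρ (seg a τ hf e b ∪ Kst en (seg a 0 τ) (en e b)) ⊆ G e := by
    simp only [eventually_all]
    intro e b
    refine ev_sub (cS _ _) (hG e) fun z hz => ?_
    obtain ⟨f, c, t, rfl, h4, h5, -⟩ := mem_star h1 hz
    by_cases h6 : a f (flp c t) ∈ P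
    · obtain ⟨rfl, h7⟩ := in_P h h5 h6
      cases b
      · exact absurd (h4 ▸ h7) (h.src e)
      · obtain rfl := h.leafu f e h7 h4
        exact haG _ _
    · exact hDG e (haD _ _ h6)
  have e6 : ∀ᶠ ρ in 𝓝[>] (0 : ℝ), ∀ v, thickening ρ (Kst en (seg a 0 τ) v) ⊆ ball (x v) ε :=
    eventually_all.2 fun v => ev_sub (cK v) isOpen_ball (near v)
  have e7 : ∀ᶠ ρ in 𝓝[>] (0 : ℝ), ∀ e b,
      thickening ρ (seg a τ hf e b ∪ Kst en (seg a 0 τ) (en e b)) ⊆
        thickening ε (range (a e)) := by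
    simp only [eventually_all]
    intro e b
    refine ev_sub (cS _ _) isOpen_thickening (union_subset ?_ ?_)
    · rintro z ⟨t, -, rfl⟩
      exact self_subset_thickening hε _ ⟨_, rfl⟩
    · have h2 : x (en e b) ∈ range (a e) := ⟨_, h.dr.ends e b⟩
      exact (near _).trans (ball_subset_thickening h2 ε)
  obtain ⟨ρ, ⟨⟨⟨⟨⟨⟨⟨k1, k2⟩, k3⟩, k4⟩, k5⟩, k6⟩, k7⟩, hρ⟩⟩ :=
    (((((((e1.and e2).and e3).and e4).and e5).and e6).and e7).and self_mem_nhdsWithin).exists
  refine ⟨ρ, hρ, seg a τ hf, seg a 0 τ, seg_conn h.dr _ _, seg_conn h.dr _ _, fun e => ?_,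
    fun e b => ?_, fun e b => ?_, k1, k2, k3, k4, k5, k6, k7⟩
  · refine ⟨a e hf, ⟨hf, ⟨hτh, le_rfl⟩, rfl⟩, ⟨hf, ⟨hτh, le_rfl⟩, ?_⟩⟩
    have h2 : flp true hf = hf := Subtype.ext (by rw [flp_coe]; norm_num [hf])
    simp only [h2]
  · exact ⟨_, ⟨τ, ⟨le_rfl, hτh⟩, rfl⟩, ⟨τ, ⟨τ.2.1, le_rfl⟩, rfl⟩⟩
  · refine ⟨0, ⟨le_rfl, τ.2.1⟩, ?_⟩
    simp only [flp_zero, h.dr.ends]

end Pool.Agent.P.MP_cb5d8b_an.Pt
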