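import Pool.Agent.P.MP_cb5d8b_an.Pt.Iface

/-!
Curves from a nested system of chains.
-/

namespace Pool.Agent.P.MP_cb5d8b_an.Pt

open Set Metric Filter Topology

namespace AbsA

/-- the piece that contains the parameter -/
noncomputable def idx (n : ℕ) (s : unitInterval) : ℕ := min ⌊(n : ℝ) * s⌋₊ (n - 1)

/-- the parameter inside the piece `i` -/
noncomputable def loc (n i : ℕ) (s : unitInterval) : unitInterval :=
  projIcc (0 : ℝ) 1 zero_le_one ((n : ℝ) * s - i)

lemma idx_lt {n : ℕ} (hn : 1 ≤ n) (s : unitInterval) : idx n s < n := by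
  unfold idx; omega

lemma idx_spec {n : ℕ} (hn : 1 ≤ n) (s : unitInterval) :
    (idx n s : ℝ) ≤ n * s ∧ (n : ℝ) * s ≤ idx n s + 1 := by
  have h0 : 0 ≤ (n : ℝ) * s := mul_nonneg (Nat.cast_nonneg n) s.2.1
  have h1 : (n : ℝ) * s ≤ n := mul_le_of_le_one_right (Nat.cast_nonneg n) s.2.2
  constructor
  · exact le_trans (Nat.cast_le.2 (min_le_left _ _)) (Nat.floor_le h0)
  · unfold idx
    rcases le_total ⌊(n : ℝ) * s⌋₊ (n - 1) with h | h
    · rw [min_eq_left h]; exact (Nat.lt_floor_add_one _).le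
    · rw [min_eq_right h, Nat.cast_sub hn]; simpa using h1

lemma loc_eq {n i : ℕ} {s t : unitInterval} (h : (n : ℝ) * s = i + t) : loc n i s = t := by
  unfold loc
  rw [h, add_sub_cancel_left, projIcc_val]

lemma loc_spec {n i : ℕ} {s : unitInterval} (h1 : (i : ℝ) ≤ n * s) (h2 : (n : ℝ) * s ≤ i + 1) :
    (n : ℝ) * s = i + loc n i s := by
  unfold loc
  rw [projIcc_of_mem _ ⟨by linarith, by linarith⟩]
  simp

lemma idx_cases {n i : ℕ} (hi : i < n) {s t : unitInterval} (h : (n : ℝ) * s = i + t) :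
    idx n s = i ∨ (t = 1 ∧ idx n s = i + 1) := by
  rcases eq_or_lt_of_le t.2.2 with h1 | h1
  · have e : ⌊(n : ℝ) * s⌋₊ = i + 1 := by
      rw [h, h1, ← Nat.cast_succ, Nat.floor_natCast]
    rcases Nat.lt_or_ge (i + 1) n with h2 | h2
    · exact Or.inr ⟨Subtype.ext h1, by unfold idx; omega⟩
    · left; unfold idx; omega
  · have e : ⌊(n : ℝ) * s⌋₊ = i := by
      have := t.2.1
      rw [h, Nat.floor_eq_iff (by positivity)]
      constructor <;> linarith
    left; unfold idx; omega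

lemma flp_zero (b : Bool) : flp b 0 = bI b := by cases b <;> simp [flp, bI]

lemma flp_one (b : Bool) : flp b 1 = bI (!b) := by cases b <;> simp [flp, bI]

lemma cont_flp (b : Bool) : Continuous (flp b) := by
  cases b
  · exact continuous_id
  · exact unitInterval.continuous_symm

lemma cont_loc (n i : ℕ) : Continuous (loc n i) :=
  continuous_projIcc.comp (by fun_prop)

/-- the step map -/
noncomputable def stp {L : Type} (len : L → ℕ) (ch : L → ℕ → L) (fl : L → ℕ → Bool)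
    (p : L × unitInterval) : L × unitInterval :=
  (ch p.1 (idx (len p.1) p.2),
    flp (fl p.1 (idx (len p.1) p.2)) (loc (len p.1) (idx (len p.1) p.2) p.2))

lemma nested {X P : Type} [MetricSpace X] [CompleteSpace X] (T : P → P) (Y : P → Set X)
    (hne : ∀ p, (Y p).Nonempty) (hcl : ∀ p, closure (Y (T p)) ⊆ Y p)
    (hsm : ∀ ε : ℝ, 0 < ε → ∃ N, ∀ p k, N ≤ k → ∀ u ∈ Y (T^[k] p), ∀ v ∈ Y (T^[k] p),
      dist u v ≤ ε) :
    ∃ G : P → X, (∀ p, G p ∈ Y p) ∧ (∀ p, G p = G (T p)) ∧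
      ∀ (p : P) (u : ℕ → X), (∀ k, u k ∈ Y (T^[k] p)) → Tendsto u atTop (𝓝 (G p)) := by
  have hmono : ∀ p, Antitone fun k => Y (T^[k] p) := fun p =>
    antitone_nat_of_succ_le fun k => by
      rw [Function.iterate_succ_apply']
      exact subset_closure.trans (hcl _)
  have hex : ∀ p, ∃ z, ∀ k, z ∈ Y (T^[k] p) := by
    intro p
    choose u hu using fun k => hne (T^[k] p)
    have hc : CauchySeq u := by
      refine Metric.cauchySeq_iff.2 fun ε hε => ?_
      obtain ⟨N, hN⟩ := hsm (ε / 2) (by positivity)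
      exact ⟨N, fun m hm n hn => lt_of_le_of_lt
        (hN p N le_rfl _ (hmono p hm (hu m)) _ (hmono p hn (hu n))) (by linarith)⟩
    obtain ⟨z, hz⟩ := cauchySeq_tendsto_of_complete hc
    refine ⟨z, fun k => hcl _ ?_⟩
    rw [← Function.iterate_succ_apply' T]
    refine mem_closure_of_tendsto hz ?_
    filter_upwards [eventually_ge_atTop (k + 1)] with m hm using hmono p hm (hu m)
  choose G hG using hex
  have ht : ∀ (p : P) (u : ℕ → X), (∀ k, u k ∈ Y (T^[k] p)) → Tendsto u atTop (𝓝 (G p)) := by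
    intro p u hu
    refine Metric.tendsto_atTop.2 fun ε hε => ?_
    obtain ⟨N, hN⟩ := hsm (ε / 2) (by positivity)
    exact ⟨N, fun k hk => lt_of_le_of_lt (hN p k hk _ (hu k) _ (hG p k)) (by linarith)⟩
  refine ⟨G, fun p => hG p 0, fun p => ?_, ht⟩
  refine tendsto_nhds_unique (ht p (fun _ => G (T p)) fun k => ?_) tendsto_const_nhds
  exact hmono p (Nat.le_succ k) (hG (T p) k)

lemma cont_of_selfSim {X L : Type} [MetricSpace X] {lev : L → ℕ} {len : L → ℕ} {ch : L → ℕ → L}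
    {fl : L → ℕ → Bool} {Γ : L → unitInterval → X} (h1 : ∀ l, 1 ≤ len l)
    (hlev : ∀ l, ∀ i < len l, lev (ch l i) = lev l + 1) (hs : SelfSim len ch fl Γ)
    (hsm : ∀ ε : ℝ, 0 < ε → ∃ N, ∀ l, N ≤ lev l → ∀ s t, dist (Γ l s) (Γ l t) ≤ ε) (l : L) :
    Continuous (Γ l) := by
  refine continuous_iff_continuousAt.2 fun s₀ => Metric.tendsto_nhds.2 fun ε hε => ?_
  obtain ⟨N, hN⟩ := hsm (ε / 2) (by positivity)
  have key : ∀ (k : ℕ) (l : L), N ≤ lev l + k → ∀ s₀, ∀ᶠ s in 𝓝 s₀,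
      dist (Γ l s) (Γ l s₀) ≤ ε / 2 := by
    intro k
    induction k with
    | zero => exact fun l hl s₀ => Eventually.of_forall fun s => hN l hl s s₀
    | succ k ih =>
      intro l hl s₀
      have hp : ∀ i ∈ Finset.range (len l), ∀ᶠ s : unitInterval in 𝓝 s₀,
          (len l : ℝ) * s ∈ Icc (i : ℝ) (i + 1) → dist (Γ l s) (Γ l s₀) ≤ ε / 2 := by
        intro i hi
        have hi' := Finset.mem_range.1 hi
        by_cases h0 : (len l : ℝ) * s₀ ∈ Icc (i : ℝ) (i + 1)
        · have h2 := ih (ch l i) (by rw [hlev l i hi']; omega) (flp (fl l i) (loc (len l) i s₀))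
          have h3 := (((cont_flp (fl l i)).comp (cont_loc (len l) i)).tendsto s₀).eventually h2
          filter_upwards [h3] with s h4 h5
          rw [hs l i hi' s _ (loc_spec h5.1 h5.2), hs l i hi' s₀ _ (loc_spec h0.1 h0.2)]
          exact h4
        · have hc : Continuous fun s : unitInterval => (len l : ℝ) * s := by fun_prop
          filter_upwards [(hc.tendsto s₀).eventually (isClosed_Icc.isOpen_compl.mem_nhds h0)]
            with s h4 h5
          exact absurd h5 h4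
      filter_upwards [(Finset.range (len l)).eventually_all.2 hp] with s h
      exact h _ (Finset.mem_range.2 (idx_lt (h1 l) s)) (idx_spec (h1 l) s)
  filter_upwards [key N l (by omega) s₀] with s h
  linarith

end AbsA

open AbsA in
theorem p_ABS : S_ABS := by
  intro X _ _ L O lev vx nx len ch fl cv pos Xs h2 hlev hcv hvx hpos hcl hsm
  have h1 : ∀ l, 1 ≤ len l := fun l => le_trans (by norm_num) (h2 l)
  have hl : ∀ (k : ℕ) (p : L × unitInterval), lev ((stp len ch fl)^[k] p).1 = lev p.1 + k := by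
    intro k p
    induction k with
    | zero => rfl
    | succ k ih =>
      rw [Function.iterate_succ_apply', ← add_assoc, ← ih]
      exact hlev _ _ (idx_lt (h1 _) _)
  obtain ⟨G, g1, g2, g3⟩ := nested (stp len ch fl) (fun p => Xs p.1)
    (fun p => ⟨_, hpos p.1 false⟩) (fun p => hcl _ _ (idx_lt (h1 _) _)) (fun ε hε => by
      obtain ⟨N, hN⟩ := hsm ε hε
      exact ⟨N, fun p k hk => hN _ (by rw [hl]; omega)⟩)
  have hend : ∀ l b, ∃ l' b', stp len ch fl (l, bI b) = (l', bI b') ∧ vx l' b' = nx (vx l b) := by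
    intro l b
    have h0 := h1 l
    cases b
    · have e : (len l : ℝ) * (0 : unitInterval) = (0 : ℕ) + (0 : unitInterval) := by simp
      have e1 : idx (len l) 0 = 0 := (idx_cases h0 e).resolve_right fun h => zero_ne_one h.1
      refine ⟨ch l 0, fl l 0, ?_, (hvx l 0 h0).1.trans (hcv l false)⟩
      change (ch l (idx (len l) 0), flp (fl l (idx (len l) 0)) (loc (len l) (idx (len l) 0) 0)) = _
      rw [e1, loc_eq e, flp_zero]
    · have e : (len l : ℝ) * (1 : unitInterval) = (len l - 1 : ℕ) + (1 : unitInterval) := by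
        rw [Nat.cast_sub h0]; simp
      have e1 : idx (len l) 1 = len l - 1 := (idx_cases (by omega) e).resolve_right fun h => by
        have := idx_lt h0 1
        omega
      refine ⟨ch l (len l - 1), !fl l (len l - 1), ?_, ?_⟩
      · change (ch l (idx (len l) 1),
          flp (fl l (idx (len l) 1)) (loc (len l) (idx (len l) 1) 1)) = _
        rw [e1, loc_eq e, flp_one]
      · rw [(hvx l (len l - 1) (by omega)).2, Nat.sub_add_cancel h0]
        exact hcv l true
  have hit : ∀ (k : ℕ) l b, ∃ l' b', (stp len ch fl)^[k] (l, bI b) = (l', bI b') ∧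
      vx l' b' = nx^[k] (vx l b) := by
    intro k l b
    induction k with
    | zero => exact ⟨l, b, rfl, rfl⟩
    | succ k ih =>
      obtain ⟨l', b', e1, e2⟩ := ih
      obtain ⟨l'', b'', e3, e4⟩ := hend l' b'
      exact ⟨l'', b'', by rw [Function.iterate_succ_apply', e1, e3],
        by rw [Function.iterate_succ_apply', e4, e2]⟩
  have htend : ∀ l b, Tendsto (fun n : ℕ => pos (nx^[n] (vx l b))) atTop (𝓝 (G (l, bI b))) := by
    intro l b
    refine g3 _ _ fun k => ?_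
    obtain ⟨l', b', e1, e2⟩ := hit k l b
    rw [e1, ← e2]
    exact hpos l' b'
  have hss : SelfSim len ch fl fun l s => G (l, s) := by
    intro l i hi s t h
    change G (l, s) = G (ch l i, flp (fl l i) t)
    rw [g2]
    change G (ch l (idx (len l) s), flp (fl l (idx (len l) s)) (loc (len l) (idx (len l) s) s)) = _
    rcases idx_cases hi h with e | ⟨rfl, e⟩
    · rw [e, loc_eq h]
    · have hi' : i + 1 < len l := e ▸ idx_lt (h1 l) s
      have e2 : (len l : ℝ) * s = (i + 1 : ℕ) + (0 : unitInterval) := by rw [h]; simp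
      rw [e, loc_eq e2, flp_zero, flp_one]
      have t1 := htend (ch l (i + 1)) (fl l (i + 1))
      have t2 := htend (ch l i) (!fl l i)
      rw [(hvx l (i + 1) hi').1] at t1
      rw [(hvx l i hi).2] at t2
      exact tendsto_nhds_unique t1 t2
  refine ⟨fun l s => G (l, s), cont_of_selfSim h1 hlev hss fun ε hε => ?_,
    fun l t => g1 (l, t), hss, htend⟩
  obtain ⟨N, hN⟩ := hsm ε hε
  exact ⟨N, fun l hl s t => hN l hl _ (g1 (l, s)) _ (g1 (l, t))⟩

end Pool.Agent.P.MP_cb5d8b_an.Pt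

/-!
Self similar families of curves: simplicity and uniqueness.
-/

namespace Pool.Agent.P.MP_cb5d8b_an.Pt

open Set Metric Filter Topology

namespace InjA

theorem split (n : ℕ) (hn : 1 ≤ n) (s : unitInterval) :
    ∃ i < n, ∃ t : unitInterval, (n : ℝ) * s = i + t := by
  have h0 : (0 : ℝ) ≤ (n : ℝ) * s := mul_nonneg (Nat.cast_nonneg n) s.2.1
  have hn' : (1 : ℝ) ≤ n := by exact_mod_cast hn
  by_cases h : (s : ℝ) = 1
  · refine ⟨n - 1, by omega, 1, ?_⟩
    rw [h, Nat.cast_sub hn]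
    simp
  · have hs : (s : ℝ) < 1 := lt_of_le_of_ne s.2.2 h
    have hlt : (n : ℝ) * s < n := by nlinarith
    refine ⟨⌊(n : ℝ) * s⌋₊, (Nat.floor_lt h0).2 hlt,
      ⟨(n : ℝ) * s - ⌊(n : ℝ) * s⌋₊, ?_, ?_⟩, ?_⟩
    · linarith [Nat.floor_le h0]
    · linarith [Nat.lt_floor_add_one ((n : ℝ) * s)]
    · simp

/-- the index of the end `c` of the child number `i` -/
def jx (f c : Bool) (i : ℕ) : ℕ := if c = f then i else i + 1

theorem jx_le (f c : Bool) (i : ℕ) : i ≤ jx f c i ∧ jx f c i ≤ i + 1 := by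
  unfold jx
  split_ifs <;> omega

theorem jx_sum (f : Bool) (i : ℕ) : jx f false i + jx f true i = 2 * i + 1 := by
  cases f <;> simp [jx] <;> omega

theorem abs_flp (f c : Bool) (i : ℕ) (t : unitInterval) (w : ℝ) (hw : w = i + t) :
    |((flp f t : unitInterval) : ℝ) - (bI c : unitInterval)| = |w - (jx f c i : ℕ)| := by
  subst hw
  cases f <;> cases c
  · simp [flp, bI, jx]
  · simp only [flp, bI, jx]
    simp
  · simp only [flp, bI, jx]
    simp only [if_true, Bool.false_eq_true, if_false, unitInterval.coe_symm_eq, Icc.coe_zero,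
      sub_zero, Nat.cast_add, Nat.cast_one]
    rw [← abs_neg]
    congr 1
    ring
  · simp only [flp, bI, jx]
    simp only [if_true, unitInterval.coe_symm_eq, Icc.coe_one]
    rw [← abs_neg]
    congr 1
    ring

theorem abs_flp_sub (f : Bool) (t t' : unitInterval) :
    |((flp f t : unitInterval) : ℝ) - (flp f t' : unitInterval)| = |(t : ℝ) - t'| := by
  cases f
  · simp [flp]
  · simp only [flp, if_true, unitInterval.coe_symm_eq]
    rw [← abs_neg]
    congr 1
    ring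

theorem abs_end (n : ℕ) (b : Bool) (s : unitInterval) :
    |(n : ℝ) * s - ((if b then n else 0 : ℕ) : ℝ)| = n * |(s : ℝ) - (bI b : unitInterval)| := by
  have hn : (0 : ℝ) ≤ n := Nat.cast_nonneg n
  have h : (n : ℝ) * s - ((if b then n else 0 : ℕ) : ℝ)
      = n * ((s : ℝ) - (bI b : unitInterval)) := by
    cases b
    · simp [bI]
    · simp only [bI, if_true, Icc.coe_one]
      ring
  rw [h, abs_mul, abs_of_nonneg hn]

theorem abs_le_one (s t : unitInterval) : |(s : ℝ) - t| ≤ 1 := by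
  rw [abs_le]
  constructor <;> linarith [s.2.1, s.2.2, t.2.1, t.2.2]

/-- two curves of the same level meet at parameters that are `r`-far from agreeing -/
def Bad {X L O : Type} (lev : L → ℕ) (vx : L → Bool → O) (Γ : L → unitInterval → X)
    (r : ℝ) : Prop :=
  ∃ (l l' : L) (s t : unitInterval), lev l = lev l' ∧ Γ l s = Γ l' t ∧
    ((l = l' ∧ r ≤ |(s : ℝ) - t|) ∨ (l ≠ l' ∧ ∀ b b', vx l b = vx l' b' →
      r ≤ |(s : ℝ) - (bI b : unitInterval)| + |(t : ℝ) - (bI b' : unitInterval)|))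

theorem step {X L O : Type} (lev : L → ℕ) (vx : L → Bool → O) (len : L → ℕ)
    (ch : L → ℕ → L) (fl : L → ℕ → Bool) (cv : L → ℕ → O) (Γ : L → unitInterval → X)
    (h2 : ∀ l, 2 ≤ len l) (hlev : ∀ l, ∀ i < len l, lev (ch l i) = lev l + 1)
    (hcv : ∀ l, ∀ i < len l, vx (ch l i) (fl l i) = cv l i ∧
      vx (ch l i) (!fl l i) = cv l (i + 1))
    (hss : SelfSim len ch fl Γ) (hloop : ∀ l, vx l false ≠ vx l true)
    (hsim : ∀ l l' i i', i ≤ len l → i' ≤ len l' → cv l i = cv l' i' → (l = l' ∧ i = i') ∨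
      ∃ b b' : Bool, i = (if b then len l else 0) ∧ i' = (if b' then len l' else 0) ∧
        vx l b = vx l' b')
    (r : ℝ) (hb : Bad lev vx Γ r) : Bad lev vx Γ (2 * r) := by
  have hvx : ∀ l, ∀ i < len l, ∀ c, vx (ch l i) c = cv l (jx (fl l i) c i) := by
    intro l i hi c
    obtain ⟨ha, hb⟩ := hcv l i hi
    unfold jx
    split_ifs with hc
    · rw [hc]; exact ha
    · have : c = !fl l i := by
        revert hc
        cases c <;> cases fl l i <;> simp
      rw [this]; exact hb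
  have hinj : ∀ l j j', j ≤ len l → j' ≤ len l → cv l j = cv l j' → j = j' := by
    intro l j j' hj hj' h
    rcases hsim l l j j' hj hj' h with h1 | ⟨b, b', h1, h2', h3⟩
    · exact h1.2
    · have : b = b' := by
        cases b <;> cases b'
        · rfl
        · exact absurd h3 (hloop l)
        · exact absurd h3.symm (hloop l)
        · rfl
      rw [h1, h2', this]
  obtain ⟨l, l', s, t, hl, hΓ, hc⟩ := hb
  obtain ⟨i, hi, u, hu⟩ := split (len l) (by linarith [h2 l]) s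
  obtain ⟨i', hi', u', hu'⟩ := split (len l') (by linarith [h2 l']) t
  have hn : (2 : ℝ) ≤ len l := by exact_mod_cast h2 l
  have hn' : (2 : ℝ) ≤ len l' := by exact_mod_cast h2 l'
  refine ⟨ch l i, ch l' i', flp (fl l i) u, flp (fl l' i') u', ?_, ?_, ?_⟩
  · rw [hlev l i hi, hlev l' i' hi', hl]
  · rw [← hss l i hi s u hu, ← hss l' i' hi' t u' hu', hΓ]
  rcases hc with ⟨hll, hr⟩ | ⟨hll, hr⟩
  · subst hll
    have hmul : 2 * r ≤ |(len l : ℝ) * s - (len l : ℝ) * t| := by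
      rw [← mul_sub, abs_mul, abs_of_nonneg (by linarith : (0 : ℝ) ≤ len l)]
      nlinarith [abs_nonneg ((s : ℝ) - t)]
    by_cases hii : i = i'
    · subst hii
      left
      refine ⟨rfl, ?_⟩
      rw [abs_flp_sub]
      have : (u : ℝ) - u' = (len l : ℝ) * s - (len l : ℝ) * t := by linarith
      rw [this]
      exact hmul
    · right
      have hcom : ∀ c c', vx (ch l i) c = vx (ch l i') c' →
          jx (fl l i) c i = jx (fl l i') c' i' := by
        intro c c' h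
        rw [hvx l i hi, hvx l i' hi'] at h
        exact hinj l _ _ (le_trans (jx_le _ _ _).2 hi) (le_trans (jx_le _ _ _).2 hi') h
      constructor
      · intro hm
        have h1 := hcom false false (by rw [hm])
        have h2' := hcom true true (by rw [hm])
        have h3 := jx_sum (fl l i) i
        have h4 := jx_sum (fl l i') i'
        omega
      · intro c c' h
        rw [abs_flp _ c i u _ hu, abs_flp _ c' i' u' _ hu', ← hcom c c' h]
        refine le_trans hmul ?_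
        have := abs_sub_le ((len l : ℝ) * s) ((jx (fl l i) c i : ℕ) : ℝ) ((len l : ℝ) * t)
        rwa [abs_sub_comm ((jx (fl l i) c i : ℕ) : ℝ) ((len l : ℝ) * t)] at this
  · right
    have hcom : ∀ c c', vx (ch l i) c = vx (ch l' i') c' →
        ∃ b b' : Bool, jx (fl l i) c i = (if b then len l else 0) ∧
          jx (fl l' i') c' i' = (if b' then len l' else 0) ∧ vx l b = vx l' b' := by
      intro c c' h
      rw [hvx l i hi, hvx l' i' hi'] at h
      rcases hsim l l' _ _ (le_trans (jx_le _ _ _).2 hi) (le_trans (jx_le _ _ _).2 hi') h with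
        h1 | h1
      · exact absurd h1.1 hll
      · exact h1
    constructor
    · intro hm
      obtain ⟨b1, -, h1, -, -⟩ := hcom false false (by rw [hm])
      obtain ⟨b2, -, h2', -, -⟩ := hcom true true (by rw [hm])
      have h3 := jx_sum (fl l i) i
      have h4 := jx_le (fl l i) false i
      have h5 := jx_le (fl l i) true i
      have h6 := h2 l
      cases b1 <;> cases b2 <;> simp at h1 h2' <;> omega
    · intro c c' h
      obtain ⟨b, b', h1, h2', h3⟩ := hcom c c' h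
      rw [abs_flp _ c i u _ hu, abs_flp _ c' i' u' _ hu', h1, h2', abs_end, abs_end]
      have := hr b b' h3
      nlinarith [abs_nonneg ((s : ℝ) - (bI b : unitInterval)),
        abs_nonneg ((t : ℝ) - (bI b' : unitInterval))]

end InjA

theorem p_INJ : S_INJ := by
  intro X L O lev vx len ch fl cv Γ h2 hlev hcv hss hloop hsim hmeet
  have hno : ∀ r : ℝ, 0 < r → ¬ InjA.Bad lev vx Γ r := by
    intro r hr hb
    have hk : ∀ k : ℕ, InjA.Bad lev vx Γ (2 ^ k * r) := by
      intro k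
      induction k with
      | zero => simpa using hb
      | succ k ih =>
        have := InjA.step lev vx len ch fl cv Γ h2 hlev hcv hss hloop hsim _ ih
        rwa [← mul_assoc, ← pow_succ'] at this
    obtain ⟨k, hk2⟩ := pow_unbounded_of_one_lt (2 / r) (by norm_num : (1 : ℝ) < 2)
    have hbig : 2 < 2 ^ k * r := by rwa [div_lt_iff₀ hr] at hk2
    obtain ⟨l, l', s, t, hl, hΓ, hc⟩ := hk k
    rcases hc with ⟨-, h⟩ | ⟨hll, h⟩
    · linarith [InjA.abs_le_one s t]
    · rcases hmeet l l' s t hl hΓ with h1 | ⟨b, b', h1⟩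
      · exact hll h1
      · linarith [h b b' h1, InjA.abs_le_one s (bI b), InjA.abs_le_one t (bI b')]
  intro l l' s t hl hΓ
  by_cases hll : l = l'
  · left
    refine ⟨hll, ?_⟩
    by_contra hst
    have hpos : 0 < |(s : ℝ) - t| := abs_pos.2 (sub_ne_zero.2 fun h => hst (Subtype.ext h))
    exact hno _ hpos ⟨l, l', s, t, hl, hΓ, Or.inl ⟨hll, le_rfl⟩⟩
  · right
    refine ⟨hll, ?_⟩
    by_contra hc
    classical
    let F : Bool × Bool → ℝ := fun p => if vx l p.1 = vx l' p.2 then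
      |(s : ℝ) - (bI p.1 : unitInterval)| + |(t : ℝ) - (bI p.2 : unitInterval)| else 1
    have hF : ∀ p, 0 < F p := by
      intro p
      simp only [F]
      split_ifs with hp
      · by_contra hle
        have h1 := abs_nonneg ((s : ℝ) - (bI p.1 : unitInterval))
        have h2' := abs_nonneg ((t : ℝ) - (bI p.2 : unitInterval))
        have h3 : |(s : ℝ) - (bI p.1 : unitInterval)| = 0 := by linarith
        have h4 : |(t : ℝ) - (bI p.2 : unitInterval)| = 0 := by linarith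
        exact hc ⟨p.1, p.2, Subtype.ext (sub_eq_zero.1 (abs_eq_zero.1 h3)),
          Subtype.ext (sub_eq_zero.1 (abs_eq_zero.1 h4)), hp⟩
      · exact one_pos
    obtain ⟨p, hp⟩ := Finite.exists_min F
    refine hno (F p) (hF p) ⟨l, l', s, t, hl, hΓ, Or.inr ⟨hll, fun b b' h => ?_⟩⟩
    have := hp (b, b')
    simp only [F, if_pos h] at this
    exact this

theorem p_UQ : S_UQ := by
  intro X _ L lev len ch fl Γ Γ' h1 hlev hss hss' hclose
  have hk : ∀ (k : ℕ) (l : L) (s : unitInterval), ∃ l' s', lev l' = lev l + k ∧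
      Γ l s = Γ l' s' ∧ Γ' l s = Γ' l' s' := by
    intro k
    induction k with
    | zero => intro l s; exact ⟨l, s, rfl, rfl, rfl⟩
    | succ k ih =>
      intro l s
      obtain ⟨l', s', ha, hb, hc⟩ := ih l s
      obtain ⟨i, hi, u, hu⟩ := InjA.split (len l') (h1 l') s'
      refine ⟨ch l' i, flp (fl l' i) u, ?_, ?_, ?_⟩
      · rw [hlev l' i hi, ha, add_assoc]
      · rw [hb, hss l' i hi s' u hu]
      · rw [hc, hss' l' i hi s' u hu]
  funext l s
  refine eq_of_forall_dist_le fun ε hε => ?_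
  obtain ⟨N, hN⟩ := hclose ε hε
  obtain ⟨l', s', ha, hb, hc⟩ := hk N l s
  rw [hb, hc]
  exact hN l' (by omega) s'

end Pool.Agent.P.MP_cb5d8b_an.Pt

/-! Components, lifted edges and lifted chains. -/

namespace Pool.Agent.P.MP_cb5d8b_an.Pt

open Set Metric Filter Topology

namespace InstA

variable {g h h₁ h₂ : S2 → S2} {U U' : Set S2} {u v w z : S2}

theorem cc_self (hu : g u ∈ U) : u ∈ cc g U u := mem_connectedComponentIn hu

theorem cc_sub (hz : z ∈ cc g U u) : g z ∈ U := connectedComponentIn_subset (g ⁻¹' U) u hz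

theorem cc_eq (hz : z ∈ cc g U u) : cc g U z = cc g U u := (connectedComponentIn_eq hz).symm

theorem cc_base (hz : z ∈ cc g U u) : g u ∈ U := by
  by_contra hu
  have : cc g U u = ∅ := connectedComponentIn_eq_empty hu
  rw [this] at hz
  exact hz

theorem cc_symm (hz : z ∈ cc g U u) : u ∈ cc g U z := cc_eq hz ▸ cc_self (cc_base hz)

theorem cc_trans (hz : z ∈ cc g U u) (hw : w ∈ cc g U z) : w ∈ cc g U u := cc_eq hz ▸ hw

theorem cc_mono (hU : U ⊆ U') : cc g U u ⊆ cc g U' u :=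
  connectedComponentIn_mono u (preimage_mono hU)

theorem cc_of {Y : Set S2} (hY : IsPreconnected Y) (hz : z ∈ Y) (hz' : z ∈ cc g U u)
    (hU : ∀ w ∈ Y, g w ∈ U) : Y ⊆ cc g U u :=
  cc_eq hz' ▸ hY.subset_connectedComponentIn hz hU

theorem cc_pre : IsPreconnected (cc g U u) := isPreconnected_connectedComponentIn

theorem cc_path {d : unitInterval → S2} (hd : Continuous d) (hU : ∀ t, g (d t) ∈ U)
    (s t : unitInterval) : d t ∈ cc g U (d s) :=
  cc_of (isPreconnected_range hd) ⟨s, rfl⟩ (cc_self (hU s))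
    (by rintro _ ⟨r, rfl⟩; exact hU r) ⟨t, rfl⟩

theorem cc_map (e : ∀ z, h z = h₁ (h₂ z)) (hc : Continuous h₂) (hz : z ∈ cc h U w) :
    h₂ z ∈ cc h₁ U (h₂ w) :=
  cc_of (cc_pre.image h₂ hc.continuousOn) ⟨w, cc_self (cc_base hz), rfl⟩
    (cc_self (e w ▸ cc_base hz)) (by rintro _ ⟨r, hr, rfl⟩; exact e r ▸ cc_sub hr) ⟨z, hz, rfl⟩

theorem flp_cont (b : Bool) : Continuous (flp b) := by
  cases b
  · exact continuous_id
  · exact unitInterval.continuous_symm

theorem flp_bI (b : Bool) : flp b (bI b) = 0 := by cases b <;> simp [flp, bI]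

theorem flp_zero (b : Bool) : flp b 0 = bI b := by cases b <;> simp [flp, bI]

theorem flp_one (b : Bool) : flp b 1 = bI (!b) := by cases b <;> simp [flp, bI]

theorem flp_ne {b : Bool} {t : unitInterval} (h0 : t ≠ 0) (h1 : t ≠ 1) : flp b t ≠ 1 := by
  cases b
  · exact h1
  · simpa [flp] using h0

theorem bI_inj {b c : Bool} (h : bI b = bI c) : b = c := by
  cases b <;> cases c <;> simp_all [bI]

theorem piece {n : ℕ} (hn : 1 ≤ n) (s : unitInterval) :
    ∃ i < n, ∃ t : unitInterval, (n : ℝ) * s = i + t := by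
  have hn' : (1 : ℝ) ≤ n := by exact_mod_cast hn
  by_cases h : s = 1
  · refine ⟨n - 1, by omega, 1, ?_⟩
    rw [h, Nat.cast_sub hn]
    simp
  · have h1 : (s : ℝ) < 1 := lt_of_le_of_ne s.2.2 fun e => h (Subtype.ext e)
    have h0 : (0 : ℝ) ≤ n * s := mul_nonneg (by linarith) s.2.1
    refine ⟨⌊(n : ℝ) * s⌋₊, (Nat.floor_lt h0).2 (by nlinarith), ⟨n * s - ⌊(n : ℝ) * s⌋₊, ?_, ?_⟩,
      by simp⟩
    · linarith [Nat.floor_le h0]
    · linarith [Nat.lt_floor_add_one ((n : ℝ) * s)]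

variable {V E : Type} {a : E → unitInterval → S2} {e : E} {b : Bool}

/-- a lift of the edge `e`, reversed when `b` holds, runs from `u` to `v` -/
def Lk (g : S2 → S2) (a : E → unitInterval → S2) (e : E) (b : Bool) (u v : S2) : Prop :=
  ∃ d : unitInterval → S2, Continuous d ∧ d 0 = u ∧ d 1 = v ∧ ∀ t, g (d t) = a e (flp b t)

theorem lk_true : Lk g a e true u v ↔ Le g a e v u := by
  constructor
  · rintro ⟨d, h1, h2, h3, h4⟩
    exact ⟨fun t => d (unitInterval.symm t), h1.comp unitInterval.continuous_symm, by simpa,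
      by simpa, fun t => by simp [h4, flp]⟩
  · rintro ⟨d, h1, h2, h3, h4⟩
    exact ⟨fun t => d (unitInterval.symm t), h1.comp unitInterval.continuous_symm, by simpa,
      by simpa, fun t => by simp [h4, flp]⟩

theorem lk_false : Lk g a e false u v ↔ Le g a e u v := Iff.rfl

theorem lk_of_st (h : St g a u v) : ∃ e b, Lk g a e b u v := by
  obtain ⟨e, h | h⟩ := h
  · exact ⟨e, false, h⟩
  · exact ⟨e, true, lk_true.2 h⟩

theorem lk_map (e' : ∀ z, h z = h₁ (h₂ z)) (hc : Continuous h₂) (H : Lk h a e b u v) :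
    Lk h₁ a e b (h₂ u) (h₂ v) := by
  obtain ⟨d, h1, h2, h3, h4⟩ := H
  exact ⟨fun t => h₂ (d t), hc.comp h1, congrArg h₂ h2, congrArg h₂ h3, fun t => by rw [← e', h4]⟩

theorem lk_cc (hU : ∀ t, a e t ∈ U) (H : Lk h a e b u v) : v ∈ cc h U u := by
  obtain ⟨d, h1, h2, h3, h4⟩ := H
  rw [← h2, ← h3]
  exact cc_path h1 (fun t => h4 t ▸ hU _) 0 1

/-- all the hypotheses -/
structure Cx (g : S2 → S2) (P : Set S2) (en : E → Bool → V) (x : V → S2)
    (a : E → unitInterval → S2) (D : Set S2) (G : E → Set S2) (δ : ℝ) (nv : V → S2)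
    (len k : E → ℕ) (y : E → ℕ → S2) (H : E → Bool → Set S2) (τ : E → ℕ → E)
    (fl : E → ℕ → Bool) : Prop where
  br : ∀ j : ℕ, Br g^[j] P
  ad : Adm P en x a
  l1 : L1 g P en x a D G δ nv len k y H
  pos : 0 < δ
  aD : ∀ e t, a e t ∉ P → a e t ∈ D
  DG : ∀ e, D ⊆ G e
  aG : ∀ e t, a e t ∈ G e
  GP : ∀ e, ∀ p ∈ G e, p ∈ P → p = x (en e true)
  GD : ∀ e, x (en e true) ∉ P → G e = D
  bij : ∀ j : ℕ, Bij g^[j] D
  ctr : ∀ (j : ℕ) e, Ctr g^[j] (G e) (x (en e true))
  sm1 : ∀ e, Sm g (G e) δ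
  lift : S_LIFT
  lk : ∀ e, ∀ i < len e, Lk g a (τ e i) (fl e i) (y e i) (y e (i + 1))

variable {P : Set S2} {en : E → Bool → V} {x : V → S2} {D : Set S2} {G : E → Set S2} {δ : ℝ}
  {nv : V → S2} {len k : E → ℕ} {y : E → ℕ → S2} {H : E → Bool → Set S2} {τ : E → ℕ → E}
  {fl : E → ℕ → Bool} {i j : ℕ}

namespace Cx

variable (C : Cx g P en x a D G δ nv len k y H τ fl)
include C

theorem br1 : Br g P := C.br 1

theorem noloop (e : E) : x (en e false) ≠ x (en e true) := fun h => by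
  rw [← C.ad.dr.ends, ← C.ad.dr.ends] at h
  rcases C.ad.dr.meet _ _ _ _ h with h | h
  · exact absurd (bI_inj h.2) (by simp)
  · exact h.1 rfl

theorem lk_src (H : Lk h a e b u v) : h u = x (en e b) := by
  obtain ⟨d, -, h2, -, h4⟩ := H
  rw [← h2, h4, flp_zero, C.ad.dr.ends]

theorem lk_tgt (H : Lk h a e b u v) : h v = x (en e (!b)) := by
  obtain ⟨d, -, -, h3, h4⟩ := H
  rw [← h3, h4, flp_one, C.ad.dr.ends]

theorem le_ex (hu : g^[j] u = x (en e false)) : ∃ v, Lk g^[j] a e false u v := by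
  obtain ⟨d, h1, h2, h3⟩ := (C.lift _ _ (C.br j)).2.2.1 (a e) (C.ad.dr.cont e) (C.ad.avoid e) u
    (hu.trans (C.ad.dr.ends e false).symm)
  exact ⟨d 1, d, h1, h2, rfl, h3⟩

theorem le_un (H : Lk g^[j] a e false u v) (H' : Lk g^[j] a e false u w) : v = w := by
  obtain ⟨d, h1, h2, h3, h4⟩ := H
  obtain ⟨d', k1, k2, k3, k4⟩ := H'
  have := (C.lift _ _ (C.br j)).2.2.2 d d' h1 k1 (fun t => (h4 t).trans (k4 t).symm)
    (fun t _ ht => h4 t ▸ C.ad.avoid e t ht) 0 (h4 0 ▸ C.ad.avoid e 0 zero_ne_one)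
    (h2.trans k2.symm)
  rw [← h3, ← k3, this]

theorem ball_H (hi : i ≤ len e) : closedBall (y e i) δ ⊆ H e (decide (k e ≤ i)) := by
  by_cases h : k e ≤ i
  · simpa [h] using C.l1.locT e i h hi
  · simpa [h] using C.l1.locF e i (by omega)

theorem ball_G (hi : i ≤ len e) : closedBall (y e i) δ ⊆ G e :=
  (C.ball_H hi).trans (C.l1.hG e _)

theorem y0 (e : E) : y e 0 = nv (en e false) := C.l1.ends e false

theorem y1 (e : E) : y e (len e) = nv (en e true) := C.l1.ends e true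

theorem yP (hi : i < len e) : y e i ∉ P := fun hP => by
  have h1 := C.GP e _ (C.ball_G hi.le (mem_closedBall_self C.pos.le)) hP
  have h2 : y e i = y e (len e) := by rw [C.y1, C.l1.leaf _ (h1 ▸ hP), h1]
  rcases C.l1.simple e e i (len e) hi.le le_rfl h2 with h | ⟨c, c', h3, h4, h5⟩
  · omega
  · have := C.l1.two e
    cases c <;> cases c' <;> simp at h3 h4 <;> try omega
    exact C.noloop e (congrArg x h5)

theorem xD {v : V} (hv : x v ∉ P) : x v ∈ D := by
  obtain ⟨e, b, rfl⟩ := C.ad.sur v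
  rw [← C.ad.dr.ends] at hv ⊢
  exact C.aD _ _ hv

theorem nvD {v : V} (hv : x v ∉ P) : nv v ∈ D := by
  obtain ⟨e, b, rfl⟩ := C.ad.sur v
  refine C.l1.hD e b hv ?_
  cases b
  · exact C.l1.locF e 0 (Nat.zero_le _) (C.y0 e ▸ mem_closedBall_self C.pos.le)
  · exact C.l1.locT e _ (C.l1.kle e) le_rfl (C.y1 e ▸ mem_closedBall_self C.pos.le)

theorem step_ex (hi : i < len e) (hz : g^[j] z = y e i) :
    ∃ z', g^[j] z' = y e (i + 1) ∧ Lk g^[j + 1] a (τ e i) (fl e i) z z' := by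
  obtain ⟨c, c1, c2, c3, c4⟩ := C.lk e i hi
  obtain ⟨d, h1, h2, h3⟩ := (C.lift _ _ (C.br j)).2.2.1 c c1 (fun t ht hP => by
    by_cases h0 : t = 0
    · exact C.yP hi (by rwa [h0, c2] at hP)
    · exact C.ad.avoid _ _ (flp_ne h0 ht) (c4 t ▸ C.br1.inv hP)) z (hz.trans c2.symm)
  exact ⟨d 1, (h3 1).trans c3, d, h1, h2, rfl, fun t => by
    rw [Function.iterate_succ_apply', h3, c4]⟩

theorem step_un {z' w' : S2} (hi : i < len e) (hz : g^[j] z = y e i) (hw : g^[j] w = y e i)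
    (hz' : g^[j] z' = y e (i + 1)) (hw' : g^[j] w' = y e (i + 1))
    (H : Lk g^[j + 1] a (τ e i) (fl e i) z z') (H' : Lk g^[j + 1] a (τ e i) (fl e i) w w') :
    (z = w → z' = w') ∧ (y e (i + 1) ∉ P → z' = w' → z = w) := by
  obtain ⟨d, h1, h2, h3, h4⟩ := H
  obtain ⟨d', k1, k2, k3, k4⟩ := H'
  simp only [Function.iterate_succ_apply'] at h4 k4
  have hc := (C.br j).cont
  have e1 : (fun t => g^[j] (d t)) = fun t => g^[j] (d' t) :=
    (C.lift _ _ C.br1).2.2.2 _ _ (hc.comp h1) (hc.comp k1) (fun t => (h4 t).trans (k4 t).symm)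
      (fun t h0 ht => h4 t ▸ C.ad.avoid _ _ (flp_ne h0 ht)) (bI (fl e i))
      (by rw [h4, flp_bI]; exact C.ad.avoid _ _ zero_ne_one) (by
        cases fl e i
        · simp only [bI, Bool.false_eq_true, if_false, h2, k2, hz, hw]
        · simp only [bI, if_true, h3, k3, hz', hw'])
  have key := (C.lift _ _ (C.br j)).2.2.2 d d' h1 k1 (congrFun e1)
    (fun t h0 ht hP => C.ad.avoid _ _ (flp_ne h0 ht) (h4 t ▸ C.br1.inv hP))
  constructor
  · intro h
    rw [← h3, ← k3, key 0 (by rw [h2, hz]; exact C.yP hi) (by rw [h2, k2, h])]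
  · intro hP h
    rw [← h2, ← k2, key 1 (by rw [h3, hz']; exact hP) (by rw [h3, k3, h])]

end Cx

/-- a lift of the chain of `e` -/
def Chn (g : S2 → S2) (a : E → unitInterval → S2) (len : E → ℕ) (y : E → ℕ → S2)
    (τ : E → ℕ → E) (fl : E → ℕ → Bool) (j : ℕ) (e : E) (Y : ℕ → S2) : Prop :=
  (∀ i ≤ len e, g^[j] (Y i) = y e i) ∧
    ∀ i < len e, Lk g^[j + 1] a (τ e i) (fl e i) (Y i) (Y (i + 1))

namespace Cx

variable (C : Cx g P en x a D G δ nv len k y H τ fl) {Y Y' : ℕ → S2}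
include C

theorem chn_ex (hz : g^[j] z = y e 0) : ∃ Y, Y 0 = z ∧ Chn g a len y τ fl j e Y := by
  have : ∀ (i : ℕ) (w : S2), ∃ w', i < len e → g^[j] w = y e i →
      g^[j] w' = y e (i + 1) ∧ Lk g^[j + 1] a (τ e i) (fl e i) w w' := fun i w => by
    by_cases h : i < len e ∧ g^[j] w = y e i
    · obtain ⟨w', hw'⟩ := C.step_ex h.1 h.2
      exact ⟨w', fun _ _ => hw'⟩
    · exact ⟨w, fun h1 h2 => absurd ⟨h1, h2⟩ h⟩
  choose nxt hn using this
  let Y : ℕ → S2 := fun i => Nat.rec z nxt i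
  have h1 : ∀ i ≤ len e, g^[j] (Y i) = y e i := fun i => by
    induction i with
    | zero => exact fun _ => hz
    | succ i ih => exact fun hi => (hn i (Y i) hi (ih (by omega))).1
  exact ⟨Y, rfl, h1, fun i hi => (hn i (Y i) hi (h1 i hi.le)).2⟩

theorem chn_fwd (h : Chn g a len y τ fl j e Y) (h' : Chn g a len y τ fl j e Y')
    (h0 : Y 0 = Y' 0) : ∀ i ≤ len e, Y i = Y' i := fun i => by
  induction i with
  | zero => exact fun _ => h0
  | succ i ih =>
    exact fun hi => (C.step_un hi (h.1 i (by omega)) (h'.1 i (by omega)) (h.1 _ hi) (h'.1 _ hi)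
      (h.2 i hi) (h'.2 i hi)).1 (ih (by omega))

theorem chn_bwd (h : Chn g a len y τ fl j e Y) (h' : Chn g a len y τ fl j e Y') :
    ∀ i ≤ len e, y e i ∉ P → Y i = Y' i → Y 0 = Y' 0 := fun i => by
  induction i with
  | zero => exact fun _ _ h0 => h0
  | succ i ih =>
    exact fun hi hP h0 => ih (by omega) (C.yP hi) ((C.step_un hi (h.1 i (by omega))
      (h'.1 i (by omega)) (h.1 _ hi) (h'.1 _ hi) (h.2 i hi) (h'.2 i hi)).2 hP h0)

theorem chn_map (h : Chn g a len y τ fl (j + 1) e Y) :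
    Chn g a len y τ fl j e fun i => g (Y i) :=
  ⟨fun i hi => h.1 i hi, fun i hi => lk_map (fun _ => rfl) C.br1.cont (h.2 i hi)⟩

/-- the component that carries a piece of the chain is mapped near the ends of the piece -/
theorem near (h : Chn g a len y τ fl j e Y) (hi : i < len e)
    (hw : w ∈ closure (cc g^[j + 1] (G (τ e i)) (Y i))) :
    g^[j] w ∈ closedBall (y e i) δ ∧ g^[j] w ∈ closedBall (y e (i + 1)) δ := by
  have hc := (C.br j).cont
  have key : ∀ r, r ∈ cc g^[j + 1] (G (τ e i)) (Y i) →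
      closure (cc g^[j + 1] (G (τ e i)) (Y i)) ⊆ g^[j] ⁻¹' closedBall (g^[j] r) δ := fun r hr =>
    closure_minimal (fun s hs => C.sm1 _ _ _ (cc_map (fun z => Function.iterate_succ_apply' g j z)
      hc (cc_trans (cc_symm hr) hs))) (isClosed_closedBall.preimage hc)
  have h2 := lk_cc (C.aG _) (h.2 i hi)
  exact ⟨h.1 i hi.le ▸ key _ (cc_self (cc_base h2)) hw, h.1 _ hi ▸ key _ h2 hw⟩

/-- pieces of the chain over `U` lie in one component -/
theorem piece_sub (h : Chn g a len y τ fl j e Y) (hi : i < len e)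
    (hU : closedBall (y e i) δ ⊆ U) (hz : Y i ∈ cc g^[j] U z ∨ Y (i + 1) ∈ cc g^[j] U z) :
    closure (cc g^[j + 1] (G (τ e i)) (Y i)) ⊆ cc g^[j] U z ∧ Y i ∈ cc g^[j] U z ∧
      Y (i + 1) ∈ cc g^[j] U z := by
  have h2 := lk_cc (C.aG _) (h.2 i hi)
  have h1 := cc_self (cc_base h2)
  have : closure (cc g^[j + 1] (G (τ e i)) (Y i)) ⊆ cc g^[j] U z := by
    rcases hz with hz | hz
    · exact cc_of cc_pre.closure (subset_closure h1) hz fun w hw => hU (C.near h hi hw).1
    · exact cc_of cc_pre.closure (subset_closure h2) hz fun w hw => hU (C.near h hi hw).1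
  exact ⟨this, this (subset_closure h1), this (subset_closure h2)⟩

theorem up_sub (h : Chn g a len y τ fl j e Y) {n : ℕ} (hn : n ≤ len e)
    (hU : ∀ i < n, closedBall (y e i) δ ⊆ U) (hz : Y 0 ∈ cc g^[j] U z) :
    ∀ i ≤ n, Y i ∈ cc g^[j] U z := fun i => by
  induction i with
  | zero => exact fun _ => hz
  | succ i ih =>
    exact fun hi => (C.piece_sub h (by omega) (hU i hi) (Or.inl (ih (by omega)))).2.2

theorem down_sub (h : Chn g a len y τ fl j e Y) {n : ℕ}
    (hU : ∀ i, n ≤ i → i < len e → closedBall (y e i) δ ⊆ U) (hz : Y (len e) ∈ cc g^[j] U z) :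
    ∀ r i, i + r = len e → n ≤ i → Y i ∈ cc g^[j] U z := fun r => by
  induction r with
  | zero => exact fun i hi _ => by rwa [show i = len e from hi]
  | succ r ih =>
    exact fun i hi hn => (C.piece_sub h (by omega) (hU i hn (by omega))
      (Or.inr (ih (i + 1) (by omega) (by omega)))).2.1

end Cx

end InstA

end Pool.Agent.P.MP_cb5d8b_an.Pt

/-! The system of all lifted edges, and the invariant drawing. -/

namespace Pool.Agent.P.MP_cb5d8b_an.Pt

open Set Metric Filter Topology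

namespace InstA

variable {V E : Type} {g : S2 → S2} {a : E → unitInterval → S2} {P : Set S2} {en : E → Bool → V}
  {x : V → S2} {D : Set S2} {G : E → Set S2} {δ : ℝ} {nv : V → S2} {len k : E → ℕ}
  {y : E → ℕ → S2} {H : E → Bool → Set S2} {τ : E → ℕ → E} {fl : E → ℕ → Bool}

/-- the choices: the next vertex, the end of a lifted edge, the lifted chain -/
structure Ch (g : S2 → S2) (P : Set S2) (en : E → Bool → V) (x : V → S2)
    (a : E → unitInterval → S2) (D : Set S2) (nv : V → S2) (len : E → ℕ) (y : E → ℕ → S2)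
    (τ : E → ℕ → E) (fl : E → ℕ → Bool) (up : ℕ → S2 → S2) (fin : ℕ → E → S2 → S2)
    (Y : ℕ → E → S2 → ℕ → S2) : Prop where
  upP : ∀ j z v, g^[j] z = x v → x v ∈ P → up j z = z
  upD : ∀ j z v, g^[j] z = x v → x v ∉ P → up j z ∈ cc g^[j] D z
  upv : ∀ j z v, g^[j] z = x v → g^[j] (up j z) = nv v
  fin : ∀ j e z, g^[j] z = x (en e false) → Lk g^[j] a e false z (fin j e z)
  Y0 : ∀ j e z, g^[j] z = x (en e false) → Y j e z 0 = up j z
  chn : ∀ j e z, g^[j] z = x (en e false) → Chn g a len y τ fl j e (Y j e z)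

theorem Cx.ch_ex (C : Cx g P en x a D G δ nv len k y H τ fl) :
    ∃ up fin Y, Ch g P en x a D nv len y τ fl up fin Y := by
  have h1 : ∀ (j : ℕ) (z : S2), ∃ w, ∀ v, g^[j] z = x v →
      (x v ∈ P → w = z) ∧ (x v ∉ P → w ∈ cc g^[j] D z) ∧ g^[j] w = nv v := fun j z => by
    by_cases h : ∃ v, g^[j] z = x v
    · obtain ⟨v, hv⟩ := h
      by_cases hP : x v ∈ P
      · refine ⟨z, fun v' hv' => ?_⟩
        obtain rfl : v = v' := C.ad.dr.inj (hv.symm.trans hv')
        exact ⟨fun _ => rfl, fun h => absurd hP h, hv.trans (C.l1.leaf v hP).symm⟩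
      · obtain ⟨w, hw, e⟩ := (C.bij j).2 z (hv ▸ C.xD hP) _ (C.nvD hP)
        refine ⟨w, fun v' hv' => ?_⟩
        obtain rfl : v = v' := C.ad.dr.inj (hv.symm.trans hv')
        exact ⟨fun h => absurd h hP, fun _ => hw, e⟩
    · exact ⟨z, fun v hv => absurd ⟨v, hv⟩ h⟩
  choose up hup using h1
  have h2 : ∀ (j : ℕ) (e : E) (z : S2), ∃ w, g^[j] z = x (en e false) →
      Lk g^[j] a e false z w := fun j e z => by
    by_cases h : g^[j] z = x (en e false)
    · obtain ⟨w, hw⟩ := C.le_ex h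
      exact ⟨w, fun _ => hw⟩
    · exact ⟨z, fun h' => absurd h' h⟩
  choose fin hfin using h2
  have h3 : ∀ (j : ℕ) (e : E) (z : S2), ∃ Y : ℕ → S2, g^[j] z = x (en e false) →
      Y 0 = up j z ∧ Chn g a len y τ fl j e Y := fun j e z => by
    by_cases h : g^[j] z = x (en e false)
    · obtain ⟨Y, hY⟩ := C.chn_ex ((hup j z _ h).2.2.trans (C.y0 e).symm)
      exact ⟨Y, fun _ => hY⟩
    · exact ⟨fun _ => z, fun h' => absurd h' h⟩
  choose Y hY using h3
  exact ⟨up, fin, Y, fun j z v h => (hup j z v h).1, fun j z v h => (hup j z v h).2.1,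
    fun j z v h => (hup j z v h).2.2, hfin, fun j e z h => (hY j e z h).1,
    fun j e z h => (hY j e z h).2⟩

/-- the lifted edges -/
def Lx (g : S2 → S2) (en : E → Bool → V) (x : V → S2) : Type :=
  {w : ℕ × E × S2 // g^[w.1] w.2.2 = x (en w.2.1 false)}

variable {up : ℕ → S2 → S2} {fin : ℕ → E → S2 → S2} {Y : ℕ → E → S2 → ℕ → S2}

/-- the ends of a lifted edge -/
def vz (fin : ℕ → E → S2 → S2) (l : Lx g en x) (b : Bool) : S2 :=
  if b then fin l.1.1 l.1.2.1 l.1.2.2 else l.1.2.2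

/-- the component that carries a lifted edge -/
def Xs (G : E → Set S2) (l : Lx g en x) : Set S2 := cc g^[l.1.1] (G l.1.2.1) l.1.2.2

/-- one level down -/
def sh : Lx g en x → Lx g en x
  | ⟨(0, e, z), h⟩ => ⟨(0, e, z), h⟩
  | ⟨(j + 1, e, z), h⟩ => ⟨(j, e, g z), h⟩

namespace Cx

variable (C : Cx g P en x a D G δ nv len k y H τ fl)
  (K : Ch g P en x a D nv len y τ fl up fin Y) {j i : ℕ} {e : E} {z z' w : S2} {v : V}
include C K

theorem up_un (hz : g^[j] z = x v) (hP : x v ∉ P) (hw : w ∈ cc g^[j] D z)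
    (h : g^[j] w = nv v) : w = up j z :=
  (C.bij j).1 _ _ (cc_trans (cc_symm (K.upD j z v hz hP)) hw) (h.trans (K.upv j z v hz).symm)

theorem up_inj (hz : g^[j] z = x v) (hz' : g^[j] z' = x v) (h : up j z = up j z') : z = z' := by
  by_cases hP : x v ∈ P
  · rwa [K.upP j z v hz hP, K.upP j z' v hz' hP] at h
  · exact (C.bij j).1 _ _ (cc_trans (K.upD j z' v hz' hP) (h ▸ cc_symm (K.upD j z v hz hP)))
      (hz.trans hz'.symm)

theorem up_map (hz : g^[j + 1] z = x v) : g (up (j + 1) z) = up j (g z) := by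
  by_cases hP : x v ∈ P
  · rw [K.upP _ z v hz hP, K.upP j (g z) v hz hP]
  · exact C.up_un K hz hP (cc_map (fun _ => rfl) C.br1.cont (K.upD _ z v hz hP))
      (K.upv _ z v hz)

theorem Y_map (hz : g^[j + 1] z = x (en e false)) (hi : i ≤ len e) :
    g (Y (j + 1) e z i) = Y j e (g z) i :=
  C.chn_fwd (C.chn_map (K.chn _ e z hz)) (K.chn j e (g z) hz)
    (by rw [K.Y0 _ e z hz, K.Y0 j e (g z) hz]; exact C.up_map K hz) i hi

theorem vz_val (l : Lx g en x) (b : Bool) : g^[l.1.1] (vz fin l b) = x (en l.1.2.1 b) := by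
  cases b
  · exact l.2
  · exact C.lk_tgt (K.fin _ _ _ l.2)

theorem vz_mem (l : Lx g en x) (b : Bool) : vz fin l b ∈ Xs G l := by
  have := lk_cc (C.aG _) (K.fin _ _ _ l.2)
  cases b
  · exact cc_self (cc_base this)
  · exact this

theorem Y_mem (hz : g^[j] z = x (en e false)) : ∀ i ≤ len e, Y j e z i ∈ cc g^[j] (G e) z :=
  C.up_sub (K.chn j e z hz) le_rfl (fun _ hi => C.ball_G hi.le)
    (K.Y0 j e z hz ▸ cc_mono (C.DG e) (K.upD j z _ hz (C.ad.src e)))

theorem Y_end (l : Lx g en x) (b : Bool) :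
    Y l.1.1 l.1.2.1 l.1.2.2 (if b then len l.1.2.1 else 0) = up l.1.1 (vz fin l b) := by
  cases b
  · exact K.Y0 _ _ _ l.2
  · obtain ⟨⟨j, e, z⟩, hz⟩ := l
    have h1 : g^[j] (fin j e z) = x (en e true) := C.vz_val K ⟨(j, e, z), hz⟩ true
    have h2 : fin j e z ∈ cc g^[j] (G e) z := C.vz_mem K ⟨(j, e, z), hz⟩ true
    have h3 := cc_trans (cc_symm h2) (C.Y_mem K hz _ le_rfl)
    have h4 := ((K.chn j e z hz).1 _ le_rfl).trans (C.y1 e)
    show Y j e z (len e) = up j (fin j e z)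
    by_cases hP : x (en e true) ∈ P
    · rw [K.upP j _ _ h1 hP]
      exact (C.ctr j e).2 _ _ h1 (h4.trans (C.l1.leaf _ hP)) h3
    · exact C.up_un K h1 hP (C.GD e hP ▸ h3) h4

theorem ch_ok (l : Lx g en x) (hi : i < len l.1.2.1) :
    g^[l.1.1 + 1] (Y l.1.1 l.1.2.1 l.1.2.2 (if fl l.1.2.1 i then i + 1 else i)) =
      x (en (τ l.1.2.1 i) false) := by
  have := (K.chn _ _ _ l.2).2 i hi
  cases h : fl l.1.2.1 i
  · rw [h] at this
    exact C.lk_src this
  · rw [h] at this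
    exact C.lk_tgt this

/-- the children of a lifted edge -/
def ch (l : Lx g en x) (i : ℕ) : Lx g en x :=
  if hi : i < len l.1.2.1 then
    ⟨(l.1.1 + 1, τ l.1.2.1 i, Y l.1.1 l.1.2.1 l.1.2.2 (if fl l.1.2.1 i then i + 1 else i)),
      C.ch_ok K l hi⟩
  else l

theorem ch_val (l : Lx g en x) (hi : i < len l.1.2.1) : (C.ch K l i).1 =
    (l.1.1 + 1, τ l.1.2.1 i, Y l.1.1 l.1.2.1 l.1.2.2 (if fl l.1.2.1 i then i + 1 else i)) := by
  rw [ch, dif_pos hi]

theorem ch_Xs (l : Lx g en x) (hi : i < len l.1.2.1) : Xs G (C.ch K l i) =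
    cc g^[l.1.1 + 1] (G (τ l.1.2.1 i)) (Y l.1.1 l.1.2.1 l.1.2.2 i) := by
  have := lk_cc (C.aG _) ((K.chn _ _ _ l.2).2 i hi)
  rw [Xs, C.ch_val K l hi]
  cases fl l.1.2.1 i
  · rfl
  · exact cc_eq this

theorem ch_vz (l : Lx g en x) (hi : i < len l.1.2.1) :
    vz fin (C.ch K l i) (fl l.1.2.1 i) = Y l.1.1 l.1.2.1 l.1.2.2 i ∧
      vz fin (C.ch K l i) (!fl l.1.2.1 i) = Y l.1.1 l.1.2.1 l.1.2.2 (i + 1) := by
  have h1 := (K.chn _ _ _ l.2).2 i hi
  have h2 := K.fin _ _ _ (C.ch_ok K l hi)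
  simp only [vz, C.ch_val K l hi]
  cases h : fl l.1.2.1 i
  · rw [h] at h1 h2
    exact ⟨rfl, C.le_un h2 h1⟩
  · rw [h] at h1 h2
    exact ⟨C.le_un h2 (lk_true.1 h1), rfl⟩

theorem ch_sh (l : Lx g en x) (hl : 1 ≤ l.1.1) (hi : i < len l.1.2.1) :
    C.ch K (sh l) i = sh (C.ch K l i) := by
  obtain ⟨⟨j, e, z⟩, hz⟩ := l
  obtain ⟨j, rfl⟩ : ∃ j', j = j' + 1 := ⟨j - 1, by dsimp at hl; omega⟩
  have hi' : i < len e := hi
  apply Subtype.ext
  have h1 : (if fl e i then i + 1 else i) ≤ len e := by split_ifs <;> omega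
  rw [C.ch_val K _ hi', ch, dif_pos hi]
  exact Prod.ext rfl (Prod.ext rfl (C.Y_map K hz h1).symm)

theorem nested (l : Lx g en x) (hi : i < len l.1.2.1) : closure (Xs G (C.ch K l i)) ⊆ Xs G l := by
  rw [C.ch_Xs K l hi]
  exact (C.piece_sub (K.chn _ _ _ l.2) hi (C.ball_G hi.le) (Or.inl (C.Y_mem K l.2 i hi.le))).1

/-- the pieces on the side of an inner end lie in the component of that end over `D` -/
theorem side (l : Lx g en x) (hi : i < len l.1.2.1)
    (hP : x (en l.1.2.1 (decide (k l.1.2.1 ≤ i))) ∉ P) :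
    closure (Xs G (C.ch K l i)) ⊆ cc g^[l.1.1] D (vz fin l (decide (k l.1.2.1 ≤ i))) := by
  rw [C.ch_Xs K l hi]
  have h := K.chn _ _ _ l.2
  have h0 := C.Y_end K l (decide (k l.1.2.1 ≤ i)) ▸ K.upD _ _ _ (C.vz_val K l _) hP
  refine (C.piece_sub h hi ((C.ball_H hi.le).trans (C.l1.hD _ _ hP)) (Or.inl ?_)).1
  by_cases hk : k l.1.2.1 ≤ i
  · simp only [hk, decide_true, if_true] at h0 hP ⊢
    exact C.down_sub h (fun r h1 h2 => (C.l1.locT _ r h1 h2.le).trans (C.l1.hD _ _ hP)) h0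
      (len l.1.2.1 - i) i (by omega) hk
  · simp only [hk, decide_false, Bool.false_eq_true, if_false] at h0 hP ⊢
    exact C.up_sub h (C.l1.kle _) (fun r h1 => (C.l1.locF _ r h1.le).trans (C.l1.hD _ _ hP)) h0
      i (by omega)

theorem ch_near (l : Lx g en x) (hi : i < len l.1.2.1) (hw : w ∈ Xs G (C.ch K l i)) :
    g^[l.1.1] w ∈ closedBall (y l.1.2.1 i) δ ∧ g^[l.1.1] w ∈ closedBall (y l.1.2.1 (i + 1)) δ :=
  C.near (K.chn _ _ _ l.2) hi (subset_closure (C.ch_Xs K l hi ▸ hw))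

theorem geo (l l' : Lx g en x) (hl : l.1.1 = l'.1.1) {i' : ℕ} (hi : i < len l.1.2.1)
    (hi' : i' < len l'.1.2.1) (hw : w ∈ Xs G (C.ch K l i)) (hw' : w ∈ Xs G (C.ch K l' i')) :
    ∃ b b', vz fin l b = vz fin l' b' := by
  have h1 := C.ball_H hi.le (C.ch_near K l hi hw).1
  have h2 := C.ball_H hi'.le (C.ch_near K l' hi' hw').1
  rw [← hl] at h2
  rcases C.l1.hH _ _ _ _ ⟨_, h1, h2⟩ with h | ⟨h, hP⟩
  · have h3 := cc_trans (cc_symm (C.nested K l hi (subset_closure hw))) (C.vz_mem K l true)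
    have h4 := cc_trans (cc_symm (C.nested K l' hi' (subset_closure hw'))) (C.vz_mem K l' true)
    have h5 := C.vz_val K l' true
    rw [← hl, ← h] at h4 h5
    exact ⟨true, true, (C.ctr _ _).2 _ _ h5 (C.vz_val K l true) (cc_trans (cc_symm h4) h3)⟩
  · have h3 := C.side K l hi hP (subset_closure hw)
    have h4 := C.side K l' hi' (h ▸ hP) (subset_closure hw')
    have h5 := C.vz_val K l' (decide (k l'.1.2.1 ≤ i'))
    rw [← hl] at h4 h5
    exact ⟨_, _, (C.bij _).1 _ _ (cc_trans h4 (cc_symm h3))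
      ((C.vz_val K l _).trans (by rw [h5, h]))⟩

theorem ls (l l' : Lx g en x) (hl : l.1.1 = l'.1.1) {i' : ℕ} (hi : i ≤ len l.1.2.1)
    (hi' : i' ≤ len l'.1.2.1) (h : Y l.1.1 l.1.2.1 l.1.2.2 i = Y l'.1.1 l'.1.2.1 l'.1.2.2 i') :
    (l = l' ∧ i = i') ∨ ∃ b b' : Bool, i = (if b then len l.1.2.1 else 0) ∧
      i' = (if b' then len l'.1.2.1 else 0) ∧ vz fin l b = vz fin l' b' := by
  have hc := K.chn _ _ _ l.2
  have hc' := K.chn _ _ _ l'.2
  have ends : ∀ b b' : Bool, i = (if b then len l.1.2.1 else 0) →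
      i' = (if b' then len l'.1.2.1 else 0) → en l.1.2.1 b = en l'.1.2.1 b' →
      vz fin l b = vz fin l' b' := fun b b' h1 h2 h3 => by
    rw [h1, h2, C.Y_end K l b, C.Y_end K l' b', ← hl] at h
    exact C.up_inj K (C.vz_val K l b) (by rw [hl, h3]; exact C.vz_val K l' b') h
  have h0 : y l.1.2.1 i = y l'.1.2.1 i' := by rw [← hc.1 i hi, ← hc'.1 i' hi', h, hl]
  rcases C.l1.simple _ _ _ _ hi hi' h0 with ⟨h1, h2⟩ | ⟨b, b', h1, h2, h3⟩
  · rcases hi.lt_or_eq with h3 | h3
    · obtain ⟨⟨j, e, z⟩, hz⟩ := l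
      obtain ⟨⟨j', e', z'⟩, hz'⟩ := l'
      dsimp only at hl h1 h3 h hc hc' hz hz'
      subst hl h1 h2
      have h4 := C.chn_bwd hc hc' i hi (C.yP h3) h
      rw [K.Y0 _ _ _ hz, K.Y0 _ _ _ hz'] at h4
      obtain rfl := C.up_inj K hz hz' h4
      exact Or.inl ⟨rfl, rfl⟩
    · exact Or.inr ⟨true, true, h3, by rw [← h2, ← h1]; exact h3,
        ends true true h3 (by rw [← h2, ← h1]; exact h3) (by rw [h1])⟩
  · exact Or.inr ⟨b, b', h1, h2, ends b b' h1 h2 h3⟩

end Cx

end InstA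

open InstA in
theorem p_INST (hLIFT : S_LIFT) (hABS : S_ABS) (hINJ : S_INJ) (hUQ : S_UQ) : S_INST := by
  intro V E _ g P en x a D G δ nv len k y H br ad l1 pos _ aD DG aG GP GD bij ctr sm1 sm
  have h0 : ∀ (e : E) (i : ℕ), ∃ (e' : E) (b : Bool),
      i < len e → Lk g a e' b (y e i) (y e (i + 1)) := fun e i => by
    by_cases h : i < len e
    · obtain ⟨e', b, h'⟩ := lk_of_st (l1.step e i h)
      exact ⟨e', b, fun _ => h'⟩
    · exact ⟨e, false, fun h' => absurd h' h⟩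
  choose τ fl hlk using h0
  have C : Cx g P en x a D G δ nv len k y H τ fl :=
    ⟨br, ad, l1, pos, aD, DG, aG, GP, GD, bij, ctr, sm1, hLIFT, hlk⟩
  obtain ⟨up, fin, Y, K⟩ := C.ch_ex
  have two : ∀ l : Lx g en x, 2 ≤ len l.1.2.1 := fun l => l1.two _
  have lev : ∀ l : Lx g en x, ∀ i < len l.1.2.1, (C.ch K l i).1.1 = l.1.1 + 1 := fun l i hi => by
    rw [C.ch_val K l hi]
  have hv : ∀ l : Lx g en x, ∀ i < len l.1.2.1,
      ((C.ch K l i).1.1, vz fin (C.ch K l i) (fl l.1.2.1 i)) =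
        (l.1.1 + 1, Y l.1.1 l.1.2.1 l.1.2.2 i) ∧
      ((C.ch K l i).1.1, vz fin (C.ch K l i) (!fl l.1.2.1 i)) =
        (l.1.1 + 1, Y l.1.1 l.1.2.1 l.1.2.2 (i + 1)) := fun l i hi =>
    ⟨Prod.ext (lev l i hi) (C.ch_vz K l hi).1, Prod.ext (lev l i hi) (C.ch_vz K l hi).2⟩
  have small : ∀ ε : ℝ, 0 < ε → ∃ N, ∀ l : Lx g en x, N ≤ l.1.1 →
      ∀ u ∈ Xs G l, ∀ v ∈ Xs G l, dist u v ≤ ε := fun ε hε => by
    obtain ⟨N, hN⟩ := eventually_atTop.1 (sm ε hε)
    exact ⟨N, fun l hl u hu v hv => hN _ hl _ _ _ (cc_trans (cc_symm hv) hu)⟩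
  obtain ⟨Γ, c1, c2, c3, c4⟩ := hABS S2 (Lx g en x) (ℕ × S2) (fun l => l.1.1)
    (fun l b => (l.1.1, vz fin l b)) (fun o => (o.1 + 1, up o.1 o.2)) (fun l => len l.1.2.1)
    (C.ch K) (fun l => fl l.1.2.1) (fun l i => (l.1.1 + 1, Y l.1.1 l.1.2.1 l.1.2.2 i)) Prod.snd
    (Xs G) two lev (fun l b => Prod.ext rfl (C.Y_end K l b)) hv (C.vz_mem K)
    (fun l _ hi => C.nested K l hi) small
  have pc : ∀ (l : Lx g en x) s, ∃ i < len l.1.2.1, ∃ t, Γ l s = Γ (C.ch K l i) t :=
    fun l s => by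
      obtain ⟨i, hi, t, ht⟩ := piece (one_le_two.trans (two l)) s
      exact ⟨i, hi, _, c3 l i hi s t ht⟩
  have inj := hINJ S2 (Lx g en x) (ℕ × S2) (fun l => l.1.1) (fun l b => (l.1.1, vz fin l b))
    (fun l => len l.1.2.1) (C.ch K) (fun l => fl l.1.2.1)
    (fun l i => (l.1.1 + 1, Y l.1.1 l.1.2.1 l.1.2.2 i)) Γ two lev hv c3
    (fun l h => C.noloop _ (by
      rw [← C.vz_val K l false, ← C.vz_val K l true]
      exact congrArg (fun o : ℕ × S2 => g^[l.1.1] o.2) h))
    (fun l l' i i' hi hi' h => by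
      have hl : l.1.1 = l'.1.1 := Nat.succ_injective (Prod.ext_iff.1 h).1
      rcases C.ls K l l' hl hi hi' (Prod.ext_iff.1 h).2 with h1 | ⟨b, b', h1, h2, h3⟩
      · exact Or.inl h1
      · exact Or.inr ⟨b, b', h1, h2, Prod.ext hl h3⟩)
    (fun l l' s t hl h => by
      obtain ⟨i, hi, s', hs⟩ := pc l s
      obtain ⟨i', hi', t', ht⟩ := pc l' t
      obtain ⟨b, b', h1⟩ := C.geo K l l' hl hi hi' (hs ▸ c2 _ s') (h ▸ ht ▸ c2 _ t')
      exact Or.inr ⟨b, b', Prod.ext hl h1⟩)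
  have shX : ∀ l : Lx g en x, 1 ≤ l.1.1 → (sh l).1.1 + 1 = l.1.1 ∧ (sh l).1.2.1 = l.1.2.1 ∧
      ∀ w ∈ Xs G l, g w ∈ Xs G (sh l) := by
    rintro ⟨⟨j, e, z⟩, hz⟩ hl
    obtain ⟨j, rfl⟩ : ∃ j', j = j' + 1 := ⟨j - 1, by dsimp at hl; omega⟩
    exact ⟨rfl, rfl, fun w hw => cc_map (fun _ => rfl) C.br1.cont hw⟩
  have eqv := hUQ S2 {l : Lx g en x // 1 ≤ l.1.1} (fun l => l.1.1.1) (fun l => len l.1.1.2.1)
    (fun l i => ⟨C.ch K l.1 i, by
      by_cases hi : i < len l.1.1.2.1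
      · rw [lev _ i hi]; omega
      · rw [Cx.ch, dif_neg hi]; exact l.2⟩)
    (fun l => fl l.1.1.2.1) (fun l t => g (Γ l.1 t)) (fun l => Γ (sh l.1))
    (fun l => one_le_two.trans (two _)) (fun l => lev l.1)
    (fun l i hi s t h => congrArg g (c3 l.1 i hi s t h))
    (fun l i hi s t h => by
      have h1 := (shX l.1 l.2).2.1
      have := c3 (sh l.1) i (by simpa only [h1] using hi) s t (by simpa only [h1] using h)
      simpa only [h1, C.ch_sh K l.1 l.2 hi] using this)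
    (fun ε hε => by
      obtain ⟨N, hN⟩ := small ε hε
      obtain h := fun l : {l : Lx g en x // 1 ≤ l.1.1} => shX l.1 l.2
      exact ⟨N + 1, fun l hl t => hN (sh l.1) (by have := (h l).1; omega) _
        ((h l).2.2 _ (c2 _ t)) _ (c2 _ t)⟩)
  let root : E → Lx g en x := fun e => ⟨(0, e, x (en e false)), rfl⟩
  have rv : ∀ e b, vz fin (root e) b = x (en e b) := fun e b => C.vz_val K (root e) b
  choose ed bo hed using ad.sur
  have ends : ∀ e b, Γ (root e) (bI b) = Γ (root (ed (en e b))) (bI (bo (en e b))) :=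
    fun e b => by
      have h1 := c4 (root e) b
      have h2 := c4 (root (ed (en e b))) (bo (en e b))
      simp only [rv, hed] at h1 h2
      exact tendsto_nhds_unique h1 h2
  have meet : ∀ e s e' t, Γ (root e) s = Γ (root e') t → (e = e' ∧ s = t) ∨
      (e ≠ e' ∧ ∃ b b', s = bI b ∧ t = bI b' ∧ en e b = en e' b') := fun e s e' t h => by
    rcases inj (root e) (root e') s t rfl h with ⟨h1, h2⟩ | ⟨h1, b, b', h2, h3, h4⟩
    · exact Or.inl ⟨congrArg (fun l : Lx g en x => l.1.2.1) h1, h2⟩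
    · refine Or.inr ⟨fun h => h1 (h ▸ rfl), b, b', h2, h3, ad.dr.inj ?_⟩
      rw [← rv, ← rv]
      exact (Prod.ext_iff.1 h4).2
  refine ⟨fun v => Γ (root (ed v)) (bI (bo v)), fun e => Γ (root e),
    ⟨fun v w h => ?_, fun e => c1 _, ends, meet⟩, fun v hv => ?_, fun v => ?_, fun e t => ?_,
    fun e t => ?_⟩
  · rw [← hed v, ← hed w]
    rcases meet _ _ _ _ h with ⟨h1, h2⟩ | ⟨-, b, b', h1, h2, h3⟩
    · rw [h1, bI_inj h2]
    · rw [bI_inj h1, bI_inj h2, h3]
  · have h1 := c4 (root (ed v)) (bo v)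
    have h2 : ∀ n : ℕ, (fun o : ℕ × S2 => (o.1 + 1, up o.1 o.2))^[n] (0, x v) = (n, x v) :=
      fun n => by
        induction n with
        | zero => rfl
        | succ n ih =>
          obtain ⟨w, hw⟩ := ad.sub ((br n).inv hv)
          rw [Function.iterate_succ_apply', ih]
          exact Prod.ext rfl (K.upP n _ w hw.symm (hw ▸ (br n).inv hv))
    simp only [rv, hed] at h1
    exact tendsto_nhds_unique h1 (tendsto_const_nhds.congr fun n =>
      (congrArg Prod.snd (h2 n)).symm)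
  · have h2 := two (root (ed v))
    have h3 := l1.ends (ed v) (bo v)
    rw [hed] at h3
    rw [← h3, ← mem_closedBall]
    dsimp only
    cases bo v
    · have h4 : 0 < len (root (ed v)).1.2.1 := by omega
      rw [c3 (root (ed v)) 0 h4 (bI false) 0 (by simp [bI])]
      exact (C.ch_near K (root (ed v)) h4 (c2 _ _)).1
    · obtain ⟨n, hn⟩ : ∃ n, len (ed v) = n + 1 := ⟨len (ed v) - 1, by dsimp [root] at h2; omega⟩
      have h4 : n < len (ed v) := by omega
      rw [c3 (root (ed v)) n h4 (bI true) 1 (by simp [bI, root, hn])]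
      simp only [if_true, hn]
      exact (C.ch_near K (root (ed v)) h4 (c2 _ _)).2
  · obtain ⟨i, hi, s, hs⟩ := pc (root e) t
    have := C.ball_H hi.le (C.ch_near K (root e) hi (c2 _ s)).1
    rw [← hs] at this
    cases h : decide (k e ≤ i)
    · exact Or.inl (h ▸ this)
    · exact Or.inr (h ▸ this)
  · obtain ⟨i, hi, s, hs⟩ := pc (root e) t
    have h1 : (C.ch K (root e) i).1.1 = 1 := lev _ i hi
    refine ⟨τ e i, s, ?_⟩
    have h2 : g (Γ (C.ch K (root e) i) s) = Γ (sh (C.ch K (root e) i)) s :=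
      congrFun (congrFun eqv ⟨_, h1.ge⟩) s
    show g (Γ (root e) t) = Γ (root (τ e i)) s
    rw [hs, h2]
    congr 1
    have h3 := shX _ h1.ge
    have h4 := (sh (C.ch K (root e) i)).2
    have h5 : (sh (C.ch K (root e) i)).1.1 = 0 := by have := h3.1; omega
    have h6 : (sh (C.ch K (root e) i)).1.2.1 = τ e i := by rw [h3.2.1, C.ch_val K _ hi]
    rw [h5, h6] at h4
    exact Subtype.ext (Prod.ext h5 (Prod.ext h6 h4))

end Pool.Agent.P.MP_cb5d8b_an.Pt
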