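import Pool.Agent.P.MP_cb5d8b_an.Pt.Iface
import Pool.Agent.P.MP_cb5d8b_an.Jct
import Pool.Agent.P.MP_d66c6d_pr.T.Eil
import Pool.Agent.P.MP_d66c6d_pr.T.Loga
import Pool.Agent.P.MP_d66c6d_pr.T.Fill

/-! A drawing of a rooted tree is a tree. -/

namespace Pool.Agent.P.MP_cb5d8b_an.Pt

open Set Metric Filter Topology

namespace TreeA

theorem dense_o (o : S2) : Dense ({o}ᶜ : Set S2) := by
  obtain ⟨g, e, hg, hgo, -, hge⟩ := Jct.chart o
  rw [dense_compl_singleton_iff_not_open]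
  intro h
  have hc : IsCompact ({o}ᶜ : Set S2) := h.isClosed_compl.isCompact
  have h1 : g '' univ = {o}ᶜ := by
    ext y
    exact ⟨fun ⟨z, _, hz⟩ => hz ▸ hgo z, fun hy => ⟨e y, trivial, hge y hy⟩⟩
  rw [← h1, ← hg.isInducing.isCompact_iff] at hc
  exact noncompact_univ ℂ hc

theorem miss {c : unitInterval → S2} (hc : Continuous c) (hi : Function.Injective c) :
    ∃ o, o ∉ range c := by
  by_contra h
  push Not at h
  let u : unitInterval := ⟨1 / 2, by norm_num, by norm_num⟩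
  obtain ⟨g, e, hg, hgo, -, hge⟩ := Jct.chart (c u)
  have h1 : g '' univ = c '' {u}ᶜ := by
    ext y
    obtain ⟨t, rfl⟩ := h y
    constructor
    · rintro ⟨z, -, hz⟩
      exact ⟨t, fun ht => hgo z (by rw [hz, mem_singleton_iff.1 ht]), rfl⟩
    · rintro ⟨s, hs, e1⟩
      exact ⟨e (c t), trivial, hge _ fun e2 => hs (hi (e1.trans e2))⟩
  have h2 : IsPreconnected (c '' {u}ᶜ) :=
    h1 ▸ isPreconnected_univ.image g hg.continuous.continuousOn
  rw [(hc.isClosedEmbedding hi).isInducing.isPreconnected_image] at h2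
  have h0 : (0 : unitInterval) ∈ ({u}ᶜ : Set unitInterval) := fun e0 => by
    have := congrArg Subtype.val (mem_singleton_iff.1 e0)
    norm_num [u] at this
  have h3 : (1 : unitInterval) ∈ ({u}ᶜ : Set unitInterval) := fun e0 => by
    have := congrArg Subtype.val (mem_singleton_iff.1 e0)
    norm_num [u] at this
  exact h2.Icc_subset h0 h3 ⟨unitInterval.nonneg', unitInterval.le_one'⟩ rfl

theorem dense_arc {c : unitInterval → S2} (hc : Continuous c) (hi : Function.Injective c) :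
    Dense (range c)ᶜ := by
  obtain ⟨o, ho⟩ := miss hc hi
  obtain ⟨g, e, hg, -, he, hge⟩ := Jct.chart o
  have hco : ∀ u, c u ≠ o := fun u h => ho ⟨u, h⟩
  have hD := Jct.dense_arc (he.comp_continuous hc hco) fun u v h =>
    hi (by rw [← hge _ (hco u), ← hge _ (hco v)]; exact congrArg g h)
  intro y
  by_cases hy : y = o
  · exact subset_closure (hy ▸ ho)
  · rw [← hge y hy]
    refine closure_mono ?_ (mem_closure_image hg.continuous.continuousAt (hD (e y)))
    rintro _ ⟨z, hz, rfl⟩ ⟨u, hu⟩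
    exact hz ⟨u, hg.injective (by rw [← hu]; exact hge _ (hco u))⟩

/-- connected, closed, and every zero free function has a logarithm -/
def Nice (A : Set ℂ) : Prop := IsConnected A ∧ IsClosed A ∧
  ∀ F : ℂ → ℂ, ContinuousOn F A → (∀ z ∈ A, F z ≠ 0) → HasLog F A

theorem arcSet {b : unitInterval → ℂ} (hc : Continuous b) (hi : Function.Injective b) :
    ArcSet (range b) (b 0) (b 1) := by
  refine ⟨fun t => b (projIcc 0 1 zero_le_one t), 0, 1, zero_le_one, by fun_prop, ?_, by simp,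
    by simp, ?_⟩
  · intro s hs t ht h
    have := hi h
    rw [projIcc_of_mem _ hs, projIcc_of_mem _ ht] at this
    exact congrArg Subtype.val this
  · ext z
    constructor
    · rintro ⟨t, -, rfl⟩
      exact ⟨_, rfl⟩
    · rintro ⟨t, rfl⟩
      exact ⟨t, t.2, by simp⟩

theorem Nice.arc {A : Set ℂ} {p q : ℂ} (h : ArcSet A p q) : Nice A :=
  ⟨⟨⟨p, h.left⟩, h.preconn⟩, h.compact.isClosed, fun _ hF h0 => Lg.arc h hF h0⟩

theorem Nice.union {A B : Set ℂ} (hA : Nice A) (hB : Nice B) {p : ℂ} (h : A ∩ B = {p}) :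
    Nice (A ∪ B) :=
  ⟨hA.1.union (h ▸ singleton_nonempty p) hB.1, hA.2.1.union hB.2.1, fun F hF h0 =>
    Lg.glue A B F hA.2.1 hB.2.1 (h ▸ isPreconnected_singleton)
      (hA.2.2 F (hF.mono subset_union_left) fun z hz => h0 z (Or.inl hz))
      (hB.2.2 F (hF.mono subset_union_right) fun z hz => h0 z (Or.inr hz))⟩

theorem nice {m : ℕ} (par : Fin m → Fin (m + 1)) (y : Fin (m + 1) → ℂ)
    (b : Fin m → unitInterval → ℂ) (early : ∀ i, (par i : ℕ) ≤ i) (inj : Function.Injective y)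
    (arc : ∀ i, Continuous (b i) ∧ Function.Injective (b i))
    (ends : ∀ i, b i 0 = y (par i) ∧ b i 1 = y i.succ)
    (meet : ∀ i j, i ≠ j → range (b i) ∩ range (b j) ⊆ {b i 0, b i 1} ∩ {b j 0, b j 1}) :
    ∀ k ≤ m, Nice {z | z = y 0 ∨ ∃ i : Fin m, (i : ℕ) < k ∧ z ∈ range (b i)} := by
  intro k
  induction k with
  | zero =>
    intro _
    have : {z | z = y 0 ∨ ∃ i : Fin m, (i : ℕ) < 0 ∧ z ∈ range (b i)} = {y 0} := by
      ext z; simp
    rw [this]
    exact Nice.arc (ArcSet.point _)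
  | succ k ih =>
    intro hk
    let i : Fin m := ⟨k, hk⟩
    have h1 : {z | z = y 0 ∨ ∃ j : Fin m, (j : ℕ) < k + 1 ∧ z ∈ range (b j)} =
        {z | z = y 0 ∨ ∃ j : Fin m, (j : ℕ) < k ∧ z ∈ range (b j)} ∪ range (b i) := by
      ext z
      constructor
      · rintro (h | ⟨j, hj, h⟩)
        · exact Or.inl (Or.inl h)
        · rcases Nat.lt_succ_iff_lt_or_eq.1 hj with h2 | h2
          · exact Or.inl (Or.inr ⟨j, h2, h⟩)
          · exact Or.inr ((Fin.ext h2 : j = i) ▸ h)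
      · rintro ((h | ⟨j, hj, h⟩) | h)
        · exact Or.inl h
        · exact Or.inr ⟨j, by omega, h⟩
        · exact Or.inr ⟨i, Nat.lt_succ_self k, h⟩
    rw [h1]
    refine (ih (by omega)).union (Nice.arc (arcSet (arc i).1 (arc i).2)) (p := y (par i)) ?_
    have key : ∀ z, ∀ j : Fin m, (j : ℕ) < k → z ∈ range (b j) → z ∈ range (b i) →
        z = y (par i) := by
      intro z j hj h h'
      obtain ⟨h2, h3⟩ := meet i j (fun e => by rw [← e] at hj; exact lt_irrefl k hj) ⟨h', h⟩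
      rcases h2 with h2 | h2
      · rw [h2, (ends i).1]
      · exfalso
        rw [mem_singleton_iff, (ends i).2] at h2
        rw [h2, (ends j).1, (ends j).2] at h3
        have := early j
        rcases h3 with h3 | h3 <;> have h4 := congrArg Fin.val (inj h3) <;>
          simp only [Fin.val_succ, i] at h4 <;> omega
    have e0 := early i
    ext z
    constructor
    · rintro ⟨h | ⟨j, hj, h⟩, h'⟩
      · rcases Nat.eq_zero_or_pos k with h0 | h0
        · have : par i = 0 := Fin.ext (Nat.le_zero.1 (h0 ▸ e0 : (par i : ℕ) ≤ 0))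
          rw [this]; exact h
        · let j : Fin m := ⟨0, by omega⟩
          have e1 := early j
          have : par j = 0 := Fin.ext (Nat.le_zero.1 e1)
          exact key z j h0 ⟨0, by rw [(ends j).1, this, h]⟩ h'
      · exact key z j hj h h'
    · rintro rfl
      refine ⟨?_, 0, (ends i).1⟩
      rcases Fin.eq_zero_or_eq_succ (par i) with h | ⟨j, h⟩
      · exact Or.inl (by rw [h])
      · refine Or.inr ⟨j, ?_, 1, by rw [h, (ends j).2]⟩
        rw [h] at e0
        simp only [Fin.val_succ, i] at e0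
        omega

theorem compl_conn {K : Set ℂ} (hK : IsCompact K) (h : Nice K) : IsPreconnected Kᶜ := by
  rcases Kᶜ.eq_empty_or_nonempty with h0 | ⟨p, hp⟩
  · rw [h0]; exact isPreconnected_empty
  have : Kᶜ = connectedComponentIn Kᶜ p := by
    refine Subset.antisymm (fun q hq => ?_) (connectedComponentIn_subset _ _)
    have hne : ∀ w ∉ K, ∀ z ∈ K, z - w ≠ 0 := fun w hw z hz e => hw (sub_eq_zero.1 e ▸ hz)
    exact ((MP_d66c6d_pr.p_EIL MP_d66c6d_pr.p_LOGA MP_d66c6d_pr.p_FILL).2.1 K hK p hp q hq).2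
      (h.2.2 _ (ContinuousOn.div (by fun_prop) (by fun_prop) (hne q hq)) fun z hz =>
        div_ne_zero (hne p hp z hz) (hne q hq z hz))
  rw [this]
  exact isPreconnected_connectedComponentIn

end TreeA

theorem p_TREE : S_TREE := by
  intro m par x a hm h
  have hTo : IsOpen (⋃ i, range (a i))ᶜ :=
    (isCompact_iUnion fun i => isCompact_range (h.arc i).1).isClosed.isOpen_compl
  have hD : Dense (⋃ i, range (a i))ᶜ := by
    rw [compl_iUnion]
    exact dense_iInter_of_isOpen (fun i => (isCompact_range (h.arc i).1).isClosed.isOpen_compl)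
      fun i => TreeA.dense_arc (h.arc i).1 (h.arc i).2
  have : Nonempty S2 := ⟨x 0⟩
  obtain ⟨o, ho⟩ := hD.nonempty
  obtain ⟨g, e, hg, hgo, he, hge⟩ := Jct.chart o
  have hao : ∀ i u, a i u ≠ o := fun i u e => ho (mem_iUnion.2 ⟨i, u, e⟩)
  have h0 : a ⟨0, hm⟩ 0 = x 0 := by
    have e1 := h.early ⟨0, hm⟩
    rw [(h.ends _).1, show par ⟨0, hm⟩ = 0 from Fin.ext (by simpa using e1)]
  have hxo : ∀ v, x v ≠ o := fun v => by
    rcases Fin.eq_zero_or_eq_succ v with rfl | ⟨j, rfl⟩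
    · rw [← h0]; exact hao _ _
    · rw [← (h.ends j).2]; exact hao _ _
  have einj : ∀ y y', y ≠ o → y' ≠ o → e y = e y' → y = y' := fun y y' h1 h2 h3 => by
    rw [← hge y h1, h3, hge y' h2]
  have ec : ∀ i, Continuous fun u => e (a i u) := fun i => he.comp_continuous (h.arc i).1 (hao i)
  have hN := TreeA.nice par (fun v => e (x v)) (fun i u => e (a i u)) h.early
    (fun v w h1 => h.inj (einj _ _ (hxo v) (hxo w) h1))
    (fun i => ⟨ec i, fun u v h1 => (h.arc i).2 (einj _ _ (hao i u) (hao i v) h1)⟩)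
    (fun i => ⟨congrArg e (h.ends i).1, congrArg e (h.ends i).2⟩)
    (by
      rintro i j hij _ ⟨⟨u, rfl⟩, v, hv⟩
      obtain ⟨h1, h2⟩ := h.meet i j hij ⟨⟨u, rfl⟩, v, einj _ _ (hao j v) (hao i u) hv⟩
      exact ⟨h1.imp (congrArg e) (congrArg e), h2.imp (congrArg e) (congrArg e)⟩) m le_rfl
  have hK : {z | z = e (x 0) ∨ ∃ i : Fin m, (i : ℕ) < m ∧ z ∈ range fun u => e (a i u)} =
      ⋃ i, range fun u => e (a i u) := by
    ext z
    simp only [mem_ofPred_eq, mem_iUnion]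
    constructor
    · rintro (h1 | ⟨i, -, h1⟩)
      · exact ⟨⟨0, hm⟩, 0, by rw [h1, ← h0]⟩
      · exact ⟨i, h1⟩
    · exact fun ⟨i, h1⟩ => Or.inr ⟨i, i.2, h1⟩
  rw [hK] at hN
  have hT : g '' (⋃ i, range fun u => e (a i u)) = ⋃ i, range (a i) := by
    rw [image_iUnion]
    refine iUnion_congr fun i => ?_
    rw [← range_comp]
    exact congrArg range (funext fun u => hge _ (hao i u))
  refine ⟨⟨hT ▸ hN.1.image g hg.continuous.continuousOn, m, a, h.arc, rfl, h.meet⟩, ⟨o, ho⟩, ?_⟩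
  have hP := (TreeA.compl_conn (isCompact_iUnion fun i => isCompact_range (ec i)) hN).image g
    hg.continuous.continuousOn
  refine hP.subset_closure ?_ (((TreeA.dense_o o).open_subset_closure_inter hTo).trans
    (closure_mono ?_))
  · rintro _ ⟨z, hz, rfl⟩ h1
    rw [← hT] at h1
    obtain ⟨w, hw, h2⟩ := h1
    exact hz (hg.injective h2 ▸ hw)
  · rintro y ⟨h1, h2⟩
    refine ⟨e y, fun h3 => h1 ?_, hge y h2⟩
    rw [← hT]
    exact ⟨e y, h3, hge y h2⟩

end Pool.Agent.P.MP_cb5d8b_an.Pt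

namespace Pool.Agent.P.MP_cb5d8b_an.Pt

open Set Metric Filter Topology

namespace HdA

theorem inv_unif {X : Type*} [MetricSpace X] {c : unitInterval → X} (hc : Continuous c)
    (hi : Function.Injective c) {θ : ℝ}
    (hθ : 0 < θ) : ∃ μ > 0, ∀ s t, dist (c s) (c t) < μ → dist s t < θ := by
  have hK : IsCompact {p : unitInterval × unitInterval | θ ≤ dist p.1 p.2} :=
    (isClosed_le continuous_const continuous_dist).isCompact
  have hf : Continuous fun p : unitInterval × unitInterval => dist (c p.1) (c p.2) := by fun_prop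
  obtain ⟨μ, hμ, h⟩ := hK.exists_forall_le' (a := 0) hf.continuousOn fun p hp =>
      dist_pos.2 fun e => by
        have h1 : θ ≤ dist p.1 p.2 := hp
        rw [hi e, dist_self] at h1
        exact h1.not_gt hθ
  exact ⟨μ, hμ, fun s t hst => not_le.1 fun h' => (h (s, t) h').not_gt hst⟩

end HdA

theorem p_HD : S_HD := by
  intro c hc hi ε hε
  obtain ⟨θ, hθ, h1⟩ := Metric.uniformContinuous_iff.1
    (CompactSpace.uniformContinuous_of_continuous hc) (ε / 4) (by positivity)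
  obtain ⟨μ, hμ, h2⟩ := HdA.inv_unif hc hi hθ
  refine ⟨min (μ / 2) (ε / 4), by positivity, fun K hK hsub h0 h1' => ?_⟩
  set ρ := min (μ / 2) (ε / 4) with hρ
  have hρ1 : ρ ≤ μ / 2 := min_le_left _ _
  have hρ2 : ρ ≤ ε / 4 := min_le_right _ _
  refine lt_of_le_of_lt (hausdorffDist_le_of_mem_dist (r := ε / 2) (by positivity)
    (fun y hy => ?_) ?_) (by linarith)
  · obtain ⟨z, hz, h⟩ := mem_thickening_iff.1 (hsub hy)
    exact ⟨z, hz, by linarith⟩
  rintro _ ⟨t, rfl⟩
  by_contra hn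
  push Not at hn
  have hfar : ∀ y ∈ K, ∀ s, dist y (c s) < ρ → ε / 4 ≤ dist (c s) (c t) := fun y hy s hs => by
    have h3 := hn y hy
    have h4 := dist_triangle_right (c t) y (c s)
    rw [dist_comm (c s)]
    linarith
  obtain ⟨z, -, hzU, hzV⟩ := hK (⋃ s ∈ {s | s ≤ t ∧ ε / 4 ≤ dist (c s) (c t)}, ball (c s) ρ)
    (⋃ s ∈ {s | t ≤ s ∧ ε / 4 ≤ dist (c s) (c t)}, ball (c s) ρ)
    (isOpen_biUnion fun _ _ => isOpen_ball) (isOpen_biUnion fun _ _ => isOpen_ball)
    (fun y hy => by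
      obtain ⟨_, ⟨s, rfl⟩, h⟩ := mem_thickening_iff.1 (hsub hy)
      rcases le_total s t with hs | hs
      · exact Or.inl (mem_biUnion (show s ∈ {s | s ≤ t ∧ _} from ⟨hs, hfar y hy s h⟩) h)
      · exact Or.inr (mem_biUnion (show s ∈ {s | t ≤ s ∧ _} from ⟨hs, hfar y hy s h⟩) h))
    (by
      obtain ⟨y, hy, h⟩ := h0
      exact ⟨y, hy, mem_biUnion (show (0 : unitInterval) ∈ {s | s ≤ t ∧ _} from
        ⟨unitInterval.nonneg', hfar y hy 0 h⟩) h⟩)
    (by
      obtain ⟨y, hy, h⟩ := h1'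
      exact ⟨y, hy, mem_biUnion (show (1 : unitInterval) ∈ {s | t ≤ s ∧ _} from
        ⟨unitInterval.le_one', hfar y hy 1 h⟩) h⟩)
  obtain ⟨s, ⟨hs, hs'⟩, hz⟩ := mem_iUnion₂.1 hzU
  obtain ⟨s', ⟨ht, -⟩, hz'⟩ := mem_iUnion₂.1 hzV
  have h3 : dist s s' < θ := h2 s s' (by
    have := dist_triangle_left (c s) (c s') z
    rw [mem_ball] at hz hz'
    linarith)
  have h4 : dist s t ≤ dist s s' := by
    have a : (s : ℝ) ≤ t := hs
    have b : (t : ℝ) ≤ s' := ht
    rw [Subtype.dist_eq, Subtype.dist_eq, Real.dist_eq, Real.dist_eq, abs_sub_comm,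
      abs_sub_comm (s : ℝ), abs_of_nonneg (by linarith), abs_of_nonneg (by linarith)]
    linarith
  exact (h1 (h4.trans_lt h3)).not_ge hs'

end Pool.Agent.P.MP_cb5d8b_an.Pt

/-!
Every finite subset of the sphere has a fitting drawing: a comb in the upper half disc.
-/

namespace Pool.Agent.P.MP_cb5d8b_an.Pt

open Set Metric Filter Topology

namespace ModelA

/-- a finite set of the plane is moved onto the upper half of the unit circle -/
theorem move (Q : Set ℂ) (hQ : Q.Finite) : ∃ h : ℂ ≃ₜ ℂ,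
    (∀ z ∈ Q, ‖h z‖ = 1 ∧ 0 < (h z).im) ∧ InjOn (fun z => (h z).re) Q := by
  classical
  obtain ⟨s, hs⟩ := ((hQ.prod hQ).image fun p : ℂ × ℂ =>
    (p.1.re - p.2.re) / (p.1.im - p.2.im)).exists_notMem
  obtain ⟨R, hR0, hR⟩ : ∃ R : ℝ, 0 < R ∧ ∀ z ∈ Q, |z.re - s * z.im| < R := by
    obtain ⟨R, hR⟩ := (hQ.image fun z : ℂ => |z.re - s * z.im|).bddAbove
    exact ⟨|R| + 1, by positivity, fun z hz =>
      (hR (mem_image_of_mem _ hz)).trans_lt (by linarith [le_abs_self R])⟩
  let u : ℂ := ⟨1 / R, s / R⟩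
  have hu : u ≠ 0 := fun c => by
    have : (1 / R : ℝ) = 0 := congrArg Complex.re c
    exact absurd this (by positivity)
  have ure : ∀ z : ℂ, (u * z).re = (z.re - s * z.im) / R := fun z => by
    simp only [u, Complex.mul_re]
    ring
  have inj : InjOn (fun z : ℂ => (u * z).re) Q := fun z hz w hw c => by
    simp only [ure] at c
    have c' : z.re - s * z.im = w.re - s * w.im := by
      field_simp at c
      linarith
    by_cases d : z.im = w.im
    · exact Complex.ext (by rw [d] at c'; linarith) d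
    · refine absurd ⟨(z, w), ⟨hz, hw⟩, ?_⟩ hs
      have : z.im - w.im ≠ 0 := sub_ne_zero.2 d
      field_simp
      linarith
  have lt1 : ∀ z ∈ Q, (u * z).re ^ 2 < 1 := fun z hz => by
    rw [sq_lt_one_iff_abs_lt_one, ure, abs_div, abs_of_pos hR0, div_lt_one hR0]
    exact hR z hz
  let W : Polynomial ℝ := Lagrange.interpolate hQ.toFinset (fun z : ℂ => (u * z).re)
    fun z => √(1 - (u * z).re ^ 2) - (u * z).im
  have hW : ∀ z ∈ Q, W.eval (u * z).re = √(1 - (u * z).re ^ 2) - (u * z).im := fun z hz =>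
    Lagrange.eval_interpolate_at_node (v := fun z : ℂ => (u * z).re) _
      (by simpa using inj) (hQ.mem_toFinset.2 hz)
  have cW : Continuous fun z : ℂ => ((W.eval z.re : ℝ) : ℂ) * Complex.I :=
    (Complex.continuous_ofReal.comp (W.continuous.comp Complex.continuous_re)).mul continuous_const
  let k : ℂ ≃ₜ ℂ :=
    { toFun := fun z => z + ((W.eval z.re : ℝ) : ℂ) * Complex.I
      invFun := fun z => z - ((W.eval z.re : ℝ) : ℂ) * Complex.I
      left_inv := fun z => by simp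
      right_inv := fun z => by simp
      continuous_toFun := continuous_id.add cW
      continuous_invFun := continuous_id.sub cW }
  have kre : ∀ z, (k z).re = z.re := fun z => by simp [k]
  have kim : ∀ z, (k z).im = z.im + W.eval z.re := fun z => by simp [k]
  refine ⟨(Homeomorph.mulLeft₀ u hu).trans k, fun z hz => ?_, fun z hz w hw c => inj hz hw ?_⟩
  · have a : (k (u * z)).im = √(1 - (u * z).re ^ 2) := by rw [kim, hW z hz]; ring
    have b : 0 < 1 - (u * z).re ^ 2 := by linarith [lt1 z hz]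
    change ‖k (u * z)‖ = 1 ∧ 0 < (k (u * z)).im
    refine ⟨?_, a ▸ Real.sqrt_pos.2 b⟩
    rw [← sq_eq_sq₀ (norm_nonneg _) zero_le_one, Complex.sq_norm, Complex.normSq_apply, a, kre,
      Real.mul_self_sqrt b.le]
    ring
  · change (k (u * z)).re = (k (u * w)).re at c
    simpa only [kre] using c

/-- the vertices of the comb with teeth `T` -/
noncomputable def vx (T : ℕ → ℂ) (v : ℕ) : ℂ :=
  ⟨(T (v / 2)).re, if v % 2 = 0 then 0 else (T (v / 2)).im⟩

/-- the edges of the comb with teeth `T` -/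
noncomputable def ed (T : ℕ → ℂ) (i : ℕ) (t : ℝ) : ℂ :=
  AffineMap.lineMap (vx T (2 * (i / 2))) (vx T (i + 1)) t

theorem ed_even (T : ℕ → ℂ) (j : ℕ) (t : ℝ) :
    (ed T (2 * j) t).re = (T j).re ∧ (ed T (2 * j) t).im = t * (T j).im := by
  have c : (2 * j + 1) / 2 = j := by omega
  simp [ed, vx, AffineMap.lineMap_apply, c]

theorem ed_odd (T : ℕ → ℂ) (j : ℕ) (t : ℝ) :
    (ed T (2 * j + 1) t).re = (T j).re + t * ((T (j + 1)).re - (T j).re) ∧
      (ed T (2 * j + 1) t).im = 0 := by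
  have b : (2 * j + 1) / 2 = j := by omega
  have c : (2 * j + 1 + 1) / 2 = j + 1 := by omega
  have d : (2 * j + 1 + 1) % 2 = 0 := by omega
  simp [ed, vx, AffineMap.lineMap_apply, b, c, d]
  ring

variable {T : ℕ → ℂ} {N : ℕ}

theorem vx_inj (hm : StrictMonoOn (fun j => (T j).re) (Iic N)) (him : ∀ j ≤ N, 0 < (T j).im)
    {v w : ℕ} (hv : v ≤ 2 * N + 1) (hw : w ≤ 2 * N + 1) (h : vx T v = vx T w) : v = w := by
  have a : v / 2 = w / 2 := hm.injOn (show v / 2 ≤ N by omega) (show w / 2 ≤ N by omega)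
    (congrArg Complex.re h : (vx T v).re = (vx T w).re)
  have b := congrArg Complex.im h
  have c := him (w / 2) (by omega)
  simp only [vx, a] at b
  split_ifs at b with d e e
  · omega
  · exact absurd b c.ne
  · exact absurd b c.ne'
  · omega

theorem ed_meet (hm : StrictMonoOn (fun j => (T j).re) (Iic N)) (him : ∀ j ≤ N, 0 < (T j).im)
    {i j : ℕ} (hi : i ≤ 2 * N) (hj : j ≤ 2 * N) {s t : ℝ} (s0 : 0 < s) (s1 : s < 1)
    (t0 : 0 ≤ t) (t1 : t ≤ 1) (h : ed T i s = ed T j t) : i = j := by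
  have lt : ∀ a b, a < b → b ≤ N → (T a).re < (T b).re := fun a b hab hb =>
    hm (show a ≤ N by omega) hb hab
  have le : ∀ a b, a ≤ b → b ≤ N → (T a).re ≤ (T b).re := fun a b hab hb =>
    hm.monotoneOn (show a ≤ N by omega) hb hab
  have hre := congrArg Complex.re h
  have hi' := congrArg Complex.im h
  obtain ⟨p, rfl | rfl⟩ := Nat.even_or_odd' i <;> obtain ⟨q, rfl | rfl⟩ := Nat.even_or_odd' j
  · rw [(ed_even T p s).1, (ed_even T q t).1] at hre
    rw [hm.injOn (show p ≤ N by omega) (show q ≤ N by omega) hre]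
  · rw [(ed_even T p s).2, (ed_odd T q t).2] at hi'
    exact absurd hi' (mul_pos s0 (him p (by omega))).ne'
  · rw [(ed_odd T p s).1, (ed_even T q t).1] at hre
    have a := lt p (p + 1) (by omega) (by omega)
    rcases le_or_gt q p with c | c
    · have := le q p c (by omega)
      nlinarith
    · have := le (p + 1) q c (by omega)
      nlinarith
  · rw [(ed_odd T p s).1, (ed_odd T q t).1] at hre
    have a := lt p (p + 1) (by omega) (by omega)
    have b := lt q (q + 1) (by omega) (by omega)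
    rcases lt_trichotomy p q with c | c | c
    · have := le (p + 1) q c (by omega)
      nlinarith
    · rw [c]
    · have := le (q + 1) p c (by omega)
      nlinarith

theorem ed_ball (him : ∀ j ≤ N, 0 < (T j).im) (hn : ∀ j ≤ N, ‖T j‖ ≤ 1) {i : ℕ}
    (hi : i ≤ 2 * N) {t : ℝ} (t0 : 0 ≤ t) (t1 : t ≤ 1) :
    ‖ed T i t‖ < 1 ∨ ∃ j ≤ N, ed T i t = T j := by
  have sq : ∀ j ≤ N, (T j).re * (T j).re + (T j).im * (T j).im ≤ 1 := fun j hj => by
    rw [← Complex.normSq_apply, ← Complex.sq_norm]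
    exact pow_le_one₀ (norm_nonneg _) (hn j hj)
  have ab : ∀ j ≤ N, |(T j).re| < 1 := fun j hj => by
    rw [← sq_lt_one_iff_abs_lt_one]
    nlinarith [sq j hj, him j hj]
  obtain ⟨p, rfl | rfl⟩ := Nat.even_or_odd' i
  · rcases t1.lt_or_eq with c | c
    · left
      rw [← sq_lt_one_iff₀ (norm_nonneg _), Complex.sq_norm, Complex.normSq_apply,
        (ed_even T p t).1, (ed_even T p t).2]
      have a := sq p (by omega)
      have b := him p (by omega)
      have d : 0 < (1 - t * t) * ((T p).im * (T p).im) :=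
        mul_pos (by nlinarith) (mul_pos b b)
      nlinarith
    · exact Or.inr ⟨p, by omega,
        Complex.ext (ed_even T p t).1 (by rw [(ed_even T p t).2, c, one_mul])⟩
  · left
    rw [← sq_lt_one_iff₀ (norm_nonneg _), Complex.sq_norm, Complex.normSq_apply,
      (ed_odd T p t).1, (ed_odd T p t).2, mul_zero, add_zero, ← pow_two, sq_lt_one_iff_abs_lt_one]
    have a := abs_lt.1 (ab p (by omega))
    have b := abs_lt.1 (ab (p + 1) (by omega))
    rw [abs_lt]
    rcases le_total (T p).re (T (p + 1)).re with c | c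
    · constructor <;> nlinarith
    · constructor <;> nlinarith

/-- enumeration by increasing real part -/
theorem enum (Q : Set ℂ) (hQ : Q.Finite) (hne : Q.Nonempty) (inj : InjOn Complex.re Q) :
    ∃ (N : ℕ) (T : ℕ → ℂ), StrictMonoOn (fun j => (T j).re) (Iic N) ∧ (∀ j ≤ N, T j ∈ Q) ∧
      ∀ z ∈ Q, ∃ j ≤ N, T j = z := by
  have hR := hQ.image Complex.re
  obtain ⟨N, hN⟩ : ∃ N, hR.toFinset.card = N + 1 := Nat.exists_eq_add_one.2
    (Finset.card_pos.2 (hR.toFinset_nonempty.2 (hne.image _)))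
  let c := hR.toFinset.orderEmbOfFin hN
  have : ∀ j : ℕ, ∃ z : ℂ, ∀ h : j ≤ N, z ∈ Q ∧ z.re = c ⟨j, by omega⟩ := fun j => by
    by_cases h : j ≤ N
    · obtain ⟨z, a, b⟩ := hR.mem_toFinset.1 (hR.toFinset.orderEmbOfFin_mem hN ⟨j, by omega⟩)
      exact ⟨z, fun _ => ⟨a, b⟩⟩
    · exact ⟨0, fun h' => absurd h' h⟩
  choose T hT using this
  refine ⟨N, T, fun i hi j hj hij => ?_, fun j hj => (hT j hj).1, fun z hz => ?_⟩
  · simp only [(hT i hi).2, (hT j hj).2]
    exact c.strictMono hij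
  · have : z.re ∈ range c := by
      rw [Finset.range_orderEmbOfFin]
      exact hR.mem_toFinset.2 (mem_image_of_mem _ hz)
    obtain ⟨j, hj⟩ := this
    have a : (j : ℕ) ≤ N := by omega
    exact ⟨j, a, inj (hT j a).1 hz ((hT j a).2.trans hj)⟩

end ModelA

open ModelA in
theorem p_MODEL : S_MODEL := by
  intro P hP
  have : Infinite S2 := by
    obtain ⟨g, _, hg, _⟩ := Jct.chart ⟨EuclideanSpace.single 0 1, by simp⟩
    exact Infinite.of_injective g hg.injective
  obtain ⟨o, ho⟩ := hP.exists_notMem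
  obtain ⟨g, e, hg, hgo, -, hge⟩ := Jct.chart o
  have hr : range g = {o}ᶜ :=
    Subset.antisymm (range_subset_iff.2 hgo) fun y hy => ⟨e y, hge y hy⟩
  have hQ0 : (g ⁻¹' P).Finite := hP.preimage hg.injective.injOn
  obtain ⟨h, h1, h2⟩ := move _ hQ0
  let Φ : OnePoint ℂ ≃ₜ S2 :=
    h.symm.onePointCongr.trans (OnePoint.equivOfIsEmbeddingOfRangeEq o g hg hr)
  let φ : ℂ → S2 := fun z => Φ z
  have hφ : ∀ z, φ z = g (h.symm z) := fun _ => rfl
  have φc : Continuous φ := hg.continuous.comp h.symm.continuous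
  have φi : Function.Injective φ := hg.injective.comp h.symm.injective
  have hPQ : ∀ p ∈ P, ∃ z ∈ g ⁻¹' P, φ (h z) = p := fun p hp => by
    have a := hge p fun c => ho (c ▸ hp)
    exact ⟨e p, by rw [mem_preimage, a]; exact hp, by rw [hφ, h.symm_apply_apply, a]⟩
  have hQP : ∀ z, φ z ∈ P ↔ z ∈ h '' (g ⁻¹' P) := fun z =>
    ⟨fun c => ⟨h.symm z, c, h.apply_symm_apply z⟩, by
      rintro ⟨w, a, rfl⟩
      rw [hφ, h.symm_apply_apply]
      exact a⟩
  obtain ⟨Q, Q1, Q2, Q3, Q4, Q5⟩ : ∃ Q : Set ℂ, Q.Finite ∧ Q.Nonempty ∧ InjOn Complex.re Q ∧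
      h '' (g ⁻¹' P) ⊆ Q ∧ ∀ z ∈ Q, 0 < z.im ∧ ‖z‖ ≤ 1 ∧ (φ z ∉ P → ‖z‖ < 1) := by
    rcases (h '' (g ⁻¹' P)).eq_empty_or_nonempty with c | c
    · refine ⟨{Complex.I / 2}, finite_singleton _, singleton_nonempty _, injOn_singleton _ _,
        c ▸ empty_subset _, ?_⟩
      rintro z rfl
      norm_num
    · refine ⟨_, hQ0.image h, c, ?_, Subset.rfl, ?_⟩
      · rintro _ ⟨z, hz, rfl⟩ _ ⟨w, hw, rfl⟩ d
        rw [h2 hz hw d]
      · rintro _ ⟨z, hz, rfl⟩
        exact ⟨(h1 z hz).2, (h1 z hz).1.le, fun d => absurd ((hQP _).2 ⟨z, hz, rfl⟩) d⟩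
  obtain ⟨N, T, hm, T1, T2⟩ := enum Q Q1 Q2 Q3
  have him : ∀ j ≤ N, 0 < (T j).im := fun j hj => (Q5 _ (T1 j hj)).1
  have hn : ∀ j ≤ N, ‖T j‖ ≤ 1 := fun j hj => (Q5 _ (T1 j hj)).2.1
  have key : ∀ i j : Fin (2 * N + 1), i ≠ j → ∀ s t : unitInterval,
      φ (ed T i s) = φ (ed T j t) → s = 0 ∨ s = 1 := fun i j hij s t c => by
    by_contra d
    rw [not_or] at d
    exact hij (Fin.ext (ed_meet hm him (by omega) (by omega) (unitInterval.pos_iff_ne_zero.2 d.1)
      (unitInterval.lt_one_iff_ne_one.2 d.2) t.2.1 t.2.2 (φi c)))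
  refine ⟨2 * N + 1, fun i => ⟨2 * (i / 2), by omega⟩, fun v => φ (vx T v),
    fun i t => φ (ed T i t), ⟨fun i => ?_, fun v w c => ?_, fun i => ⟨?_, ?_⟩, fun i => ?_, ?_⟩,
    ⟨by omega, fun v => ?_, fun p hp => ?_, fun i c => ?_, Φ, fun p hp => ?_, fun i t c => ?_⟩⟩
  · show 2 * ((i : ℕ) / 2) ≤ i
    omega
  · exact Fin.ext (vx_inj hm him (by omega) (by omega) (φi c))
  · exact φc.comp (AffineMap.lineMap_continuous.comp continuous_subtype_val)
  · refine φi.comp ((AffineMap.lineMap_injective ℝ fun c => ?_).comp Subtype.val_injective)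
    have := vx_inj hm him (by omega) (by omega) c
    omega
  · simp [ed]
  · rintro i j hij _ ⟨⟨s, rfl⟩, t, c⟩
    constructor
    · rcases key i j hij s t c.symm with rfl | rfl
      · exact Or.inl rfl
      · exact Or.inr rfl
    · rcases key j i hij.symm t s c with rfl | rfl
      · exact Or.inl c.symm
      · exact Or.inr c.symm
  · have a : ({(v : ℕ), (v : ℕ) + 1, (v : ℕ) - 1} : Set ℕ).ncard ≤ 3 :=
      (ncard_insert_le _ _).trans (Nat.succ_le_succ ((ncard_insert_le _ _).trans (by simp)))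
    refine le_trans (ncard_le_ncard_of_injOn Fin.val ?_ Fin.val_injective.injOn (toFinite _)) a
    intro i hi
    simp only [mem_ofPred_eq, Fin.ext_iff, Fin.val_succ] at hi
    simp only [mem_insert_iff, mem_singleton_iff]
    omega
  · obtain ⟨z, hz, rfl⟩ := hPQ p hp
    obtain ⟨j, hj, c⟩ := T2 _ (Q4 ⟨z, hz, rfl⟩)
    refine ⟨⟨2 * j + 1, by omega⟩, congrArg φ ?_⟩
    have a : (2 * j + 1) / 2 = j := by omega
    rw [← c]
    simp [vx, a]
  · have a := (Q5 _ (Q4 ((hQP _).1 c))).1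
    simp [vx] at a
  · obtain ⟨z, hz, rfl⟩ := hPQ p hp
    exact ⟨h z, mem_sphere_zero_iff_norm.2 (h1 z hz).1, rfl⟩
  · refine ⟨ed T i t, mem_ball_zero_iff.2 ?_, rfl⟩
    rcases ed_ball him hn (i := i) (by omega) t.2.1 t.2.2 with d | ⟨j, hj, d⟩
    · exact d
    · rw [d]
      exact (Q5 _ (T1 j hj)).2.2 (d ▸ c)

end Pool.Agent.P.MP_cb5d8b_an.Pt

/-!
The two descriptions of a drawing of a rooted tree.
-/

namespace Pool.Agent.P.MP_cb5d8b_an.Pt

open Set Metric Filter Topology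

namespace ConvA

variable {m : ℕ} {par : Fin m → Fin (m + 1)} {x : Fin (m + 1) → S2}
  {a : Fin m → unitInterval → S2}

theorem ends_b (h : IsDrawing par x a) (e : Fin m) (b : Bool) :
    a e (bI b) = x (if b then e.succ else par e) := by
  cases b
  · simpa [bI] using (h.ends e).1
  · simpa [bI] using (h.ends e).2

theorem end_of_mem (h : IsDrawing par x a) (e : Fin m) (s : unitInterval)
    (hs : a e s ∈ ({a e 0, a e 1} : Set S2)) : ∃ b, s = bI b := by
  rcases hs with hs | hs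
  · exact ⟨false, by simpa [bI] using (h.arc e).2 hs⟩
  · exact ⟨true, by simpa [bI] using (h.arc e).2 hs⟩

theorem dr_of (h : IsDrawing par x a) : Dr (fun i b => if b then i.succ else par i) x a where
  inj := h.inj
  cont := fun e => (h.arc e).1
  ends := fun e b => ends_b h e b
  meet := by
    intro e s e' t hst
    by_cases he : e = e'
    · subst he
      exact Or.inl ⟨rfl, (h.arc e).2 hst⟩
    · have hm := h.meet e e' he (⟨⟨s, rfl⟩, ⟨t, hst.symm⟩⟩ : a e s ∈ range (a e) ∩ range (a e'))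
      obtain ⟨b, hb⟩ := end_of_mem h e s hm.1
      obtain ⟨b', hb'⟩ := end_of_mem h e' t (hst ▸ hm.2)
      refine Or.inr ⟨he, b, b', hb, hb', h.inj ?_⟩
      rw [← ends_b h e b, ← ends_b h e' b', ← hb, ← hb', hst]

theorem conn_zero (hp : ∀ i, (par i : ℕ) ≤ i) (R : Fin (m + 1) → Fin (m + 1) → Prop)
    (h1 : ∀ i, R (par i) i.succ) (h2 : ∀ i, R i.succ (par i)) (n : ℕ) :
    ∀ v : Fin (m + 1), (v : ℕ) ≤ n →
      Relation.ReflTransGen R v 0 ∧ Relation.ReflTransGen R 0 v := by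
  induction n with
  | zero =>
    intro v hv
    have : v = 0 := Fin.ext (by simpa using hv)
    subst this
    exact ⟨Relation.ReflTransGen.refl, Relation.ReflTransGen.refl⟩
  | succ n ih =>
    intro v hv
    rcases Fin.eq_zero_or_eq_succ v with rfl | ⟨i, rfl⟩
    · exact ⟨Relation.ReflTransGen.refl, Relation.ReflTransGen.refl⟩
    · have hi : (par i : ℕ) ≤ n := by
        have := hp i
        simp only [Fin.val_succ] at hv
        omega
      obtain ⟨k1, k2⟩ := ih (par i) hi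
      exact ⟨Relation.ReflTransGen.head (h2 i) k1, Relation.ReflTransGen.tail k2 (h1 i)⟩

theorem par_ne (hp : ∀ i, (par i : ℕ) ≤ i) (i : Fin m) : par i ≠ i.succ := by
  intro h
  have h1 := hp i
  rw [h] at h1
  simp only [Fin.val_succ] at h1
  omega

theorem sur_of (hp : ∀ i, (par i : ℕ) ≤ i) (hm : 0 < m) (v : Fin (m + 1)) :
    ∃ (e : Fin m) (b : Bool), (if b then e.succ else par e) = v := by
  rcases Fin.eq_zero_or_eq_succ v with rfl | ⟨i, rfl⟩
  · refine ⟨⟨0, hm⟩, false, Fin.ext ?_⟩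
    simpa using hp ⟨0, hm⟩
  · exact ⟨i, true, by simp⟩

theorem adm_of {P : Set S2} (h : IsDrawing par x a) (hf : Fits P par x a) :
    Adm P (fun i b => if b then i.succ else par i) x a where
  dr := dr_of h
  conn := by
    intro v w
    have key := conn_zero h.early
      (fun v w => ∃ (e : Fin m) (b : Bool), (if b then e.succ else par e) = v ∧
        (if (!b) then e.succ else par e) = w)
      (fun i => ⟨i, false, by simp, by simp⟩) (fun i => ⟨i, true, by simp, by simp⟩)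
    exact (key v v le_rfl).1.trans (key w w le_rfl).2
  sur := sur_of h.early hf.pos
  deg := by
    intro v
    refine le_trans (Set.ncard_le_ncard_of_injOn Prod.fst ?_ ?_ (Set.toFinite _)) (hf.deg v)
    · rintro ⟨e, b⟩ hb
      cases b
      · exact Or.inl (by simpa using hb)
      · exact Or.inr (by simpa using hb)
    · rintro ⟨e, b⟩ hb ⟨e', b'⟩ hb' he
      simp only at he
      subst he
      have hne := par_ne h.early e
      cases b <;> cases b'
      · rfl
      · exact absurd ((by simpa using hb : par e = v).trans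
          (by simpa using hb' : e.succ = v).symm) hne
      · exact absurd ((by simpa using hb' : par e = v).trans
          (by simpa using hb : e.succ = v).symm) hne
      · rfl
  sub := hf.sub
  src := fun e => by simpa using hf.leaf e
  leafu := fun e e' _ he => by simpa using he
  avoid := by
    intro e t ht hP
    obtain ⟨v, hv⟩ := hf.sub hP
    obtain ⟨e', b', hb'⟩ := sur_of h.early hf.pos v
    have h1 : a e t = a e' (bI b') := by rw [ends_b h e' b', hb', hv]
    have h2 : ∃ b, t = bI b := by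
      rcases (dr_of h).meet e t e' (bI b') h1 with ⟨_, h3⟩ | ⟨_, b, _, h3, _⟩
      · exact ⟨b', h3⟩
      · exact ⟨b, h3⟩
    obtain ⟨b, rfl⟩ := h2
    cases b
    · rw [ends_b h e false] at hP
      exact hf.leaf e (by simpa using hP)
    · exact ht (by simp [bI])

theorem drawing_of (hp : ∀ i, (par i : ℕ) ≤ i)
    (h : Dr (fun i b => if b then i.succ else par i) x a) : IsDrawing par x a where
  early := hp
  inj := h.inj
  arc := by
    intro i
    refine ⟨h.cont i, fun s t hst => ?_⟩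
    rcases h.meet i s i t hst with ⟨_, h1⟩ | ⟨h1, _⟩
    · exact h1
    · exact absurd rfl h1
  ends := fun i => ⟨by simpa [bI] using h.ends i false, by simpa [bI] using h.ends i true⟩
  meet := by
    rintro i j hij z ⟨⟨s, hs⟩, ⟨t, ht⟩⟩
    rcases h.meet i s j t (hs.trans ht.symm) with ⟨h1, _⟩ | ⟨_, b, b', rfl, rfl, _⟩
    · exact absurd h1 hij
    · constructor
      · cases b
        · exact Or.inl (by simpa [bI] using hs.symm)
        · exact Or.inr (by simpa [bI] using hs.symm)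
      · cases b'
        · exact Or.inl (by simpa [bI] using ht.symm)
        · exact Or.inr (by simpa [bI] using ht.symm)

end ConvA

theorem p_CONV : S_CONV := fun _ _ =>
  ⟨fun _ _ _ h hf => ConvA.adm_of h hf, fun _ _ hp h => ConvA.drawing_of hp h⟩

end Pool.Agent.P.MP_cb5d8b_an.Pt

/-! The final statement. -/

namespace Pool.Agent.P.MP_cb5d8b_an.Pt

open Set Metric Filter Topology

-- deps: BC STAR SL SM RAY WALK COR L1 INST TREE HD MODEL CONV
/-- every fitting drawing is close to an invariant drawing -/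
def S_MAIN : Prop := ∀ f : S2 → S2, IsThurston f → IsExpanding f →
  ∀ P : Set S2, P.Finite → post f ⊆ P → MapsTo f P P →
    (∃ (m : ℕ) (par : Fin m → Fin (m + 1)) (x : Fin (m + 1) → S2)
      (a : Fin m → unitInterval → S2), IsDrawing par x a ∧ Fits P par x a) ∧
    ∀ (m : ℕ) (par : Fin m → Fin (m + 1)) (x : Fin (m + 1) → S2)
      (a : Fin m → unitInterval → S2), IsDrawing par x a → Fits P par x a →
      ∀ ε : ℝ, 0 < ε → ∀ᶠ n : ℕ in atTop,
        ∃ (x' : Fin (m + 1) → S2) (a' : Fin m → unitInterval → S2),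
          IsDrawing par x' a' ∧ (∀ v, x v ∈ P → x' v = x v) ∧ (∀ v, dist (x' v) (x v) < ε) ∧
          (∀ i, hausdorffDist (range (a' i)) (range (a i)) < ε) ∧
          IsTree (⋃ i, range (a' i)) ∧ P ⊆ ⋃ i, range (a' i) ∧
          f^[n] '' (⋃ i, range (a' i)) ⊆ ⋃ i, range (a' i)

end Pool.Agent.P.MP_cb5d8b_an.Pt

/-! The steps give the final statement. -/

namespace Pool.Agent.P.MP_cb5d8b_an.Pt

open Set Metric Filter Topology

namespace GlueA

theorem cor_mono {V E : Type} {P : Set S2} {en : E → Bool → V} {x : V → S2}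
    {a : E → unitInterval → S2} {D : Set S2} {G : E → Set S2} {ε ρ ρ' : ℝ}
    {KF KN : E → Bool → Set S2} (h : Cor P en x a D G ε ρ KF KN) (hρ : ρ' ≤ ρ) :
    Cor P en x a D G ε ρ' KF KN where
  cF := h.cF
  cN := h.cN
  mid := h.mid
  link := h.link
  vert := h.vert
  sep e b e' b' h1 h2 :=
    (h.sep e b e' b' h1 h2).mono (thickening_mono hρ _) (thickening_mono hρ _)
  hh e b e' b' h1 h2 :=
    (h.hh e b e' b' h1 h2).mono (thickening_mono hρ _) (thickening_mono hρ _)
  opp e b := (h.opp e b).mono (thickening_mono hρ _) (thickening_mono hρ _)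
  inD e b h1 := (thickening_mono hρ _).trans (h.inD e b h1)
  inG e b := (thickening_mono hρ _).trans (h.inG e b)
  near v := (thickening_mono hρ _).trans (h.near v)
  thin e b := (thickening_mono hρ _).trans (h.thin e b)

theorem emb (Φ : OnePoint ℂ ≃ₜ S2) : IsOpenEmbedding (fun z : ℂ => Φ z) :=
  Φ.isOpenEmbedding.comp OnePoint.isOpenEmbedding_coe

theorem notP (Φ : OnePoint ℂ ≃ₜ S2) {P : Set S2}
    (hPs : P ⊆ (fun z : ℂ => Φ z) '' sphere 0 1) {z : ℂ} (hz : z ∈ ball (0 : ℂ) 1) :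
    Φ (z : ℂ) ∉ P := by
  intro hzP
  obtain ⟨w, hw, hwz⟩ := hPs hzP
  have h : w = z := (emb Φ).injective hwz
  subst h
  rw [mem_sphere] at hw
  rw [mem_ball] at hz
  linarith

theorem preS (Φ : OnePoint ℂ ≃ₜ S2) {P : Set S2}
    (hPs : P ⊆ (fun z : ℂ => Φ z) '' sphere 0 1) :
    (fun z : ℂ => Φ z) ⁻¹' P ⊆ sphere 0 1 := by
  intro z hz
  obtain ⟨w, hw, hwz⟩ := hPs hz
  have h : w = z := (emb Φ).injective hwz
  exact h ▸ hw

theorem stars (hRAY : S_RAY) {V E : Type} {P : Set S2} {en : E → Bool → V} {x : V → S2}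
    {a : E → unitInterval → S2} (hA : Adm P en x a) (Φ : OnePoint ℂ ≃ₜ S2) (hP : P.Finite)
    (hPs : P ⊆ (fun z : ℂ => Φ z) '' sphere 0 1)
    (ha : ∀ e t, a e t ∉ P → a e t ∈ (fun z : ℂ => Φ z) '' ball 0 1) (e : E) :
    ∃ (S : Set ℂ) (c : ℂ), IsOpen S ∧ StarConvex ℝ c S ∧ c ∈ S ∧ ball 0 1 ⊆ S ∧
      Φ (c : ℂ) = x (en e true) ∧ (∀ z ∈ S, Φ (z : ℂ) ∈ P → z = c) ∧
      (x (en e true) ∉ P → S = ball 0 1) := by
  by_cases hx : x (en e true) ∈ P
  · obtain ⟨p, -, hp⟩ := hPs hx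
    have hp' : Φ (p : ℂ) = x (en e true) := hp
    have hpQ : p ∈ (fun z : ℂ => Φ z) ⁻¹' P := by
      show Φ (p : ℂ) ∈ P
      rw [hp']
      exact hx
    obtain ⟨S, h1, h2, h3, h4, h5⟩ :=
      (hRAY _ (hP.preimage (emb Φ).injective.injOn) (preS Φ hPs)).2 p hpQ
    exact ⟨S, p, h1, h2, h3, h4, hp', fun z hz hzP => h5 z hzP hz, fun h => absurd hx h⟩
  · have h1 : a e (bI true) = x (en e true) := hA.dr.ends e true
    obtain ⟨c, hc, hc'⟩ := ha e (bI true) (by rw [h1]; exact hx)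
    refine ⟨ball 0 1, c, isOpen_ball, (convex_ball 0 1).starConvex hc, hc, Subset.rfl, ?_,
      fun z hz hzP => absurd hzP (notP Φ hPs hz), fun _ => rfl⟩
    rw [← h1]
    exact hc'

theorem fmin {E : Type} [Finite E] (r : E → ℝ) (hr : ∀ e, 0 < r e) {ε : ℝ} (hε : 0 < ε) :
    ∃ s : ℝ, 0 < s ∧ s ≤ ε ∧ ∀ e, s ≤ r e := by
  have h1 : ∀ᶠ s in 𝓝[>] (0 : ℝ), ∀ e, s ≤ r e :=
    eventually_all.2 fun e => (eventually_le_nhds (hr e)).filter_mono nhdsWithin_le_nhds
  have h2 : ∀ᶠ s in 𝓝[>] (0 : ℝ), s ≤ ε :=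
    (eventually_le_nhds hε).filter_mono nhdsWithin_le_nhds
  have h3 : ∀ᶠ s in 𝓝[>] (0 : ℝ), 0 < s := self_mem_nhdsWithin
  obtain ⟨s, hs⟩ := (h3.and (h2.and h1)).exists
  exact ⟨s, hs.1, hs.2.1, hs.2.2⟩

end GlueA

open GlueA in
theorem p_MAIN (hBC : S_BC) (hSTAR : S_STAR) (hSL : S_SL) (hSM : S_SM) (hRAY : S_RAY)
    (hWALK : S_WALK) (hCOR : S_COR) (hL1 : S_L1) (hINST : S_INST) (hTREE : S_TREE) (hHD : S_HD)
    (hMODEL : S_MODEL) (hCONV : S_CONV) : S_MAIN := by
  intro f hT hE P hP hpost hmap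
  refine ⟨hMODEL P hP, ?_⟩
  intro m par x a hD hF ε hε
  obtain ⟨en, hen⟩ : ∃ en : Fin m → Bool → Fin (m + 1),
      en = fun i b => if b then i.succ else par i := ⟨_, rfl⟩
  have hA : Adm P en x a := hen ▸ (hCONV m par).1 P x a hD hF
  obtain ⟨Φ, hPs, ha⟩ := hF.disc
  have hemb := emb Φ
  have hBr : ∀ n : ℕ, Br f^[n] P := (hBC f hT).2 P hP hpost hmap
  have hRE := hSL f hT hE
  have hQf : ((fun z : ℂ => Φ z) ⁻¹' P).Finite := hP.preimage hemb.injective.injOn
  obtain ⟨⟨A, B, hR⟩, -⟩ := hRAY _ hQf (preS Φ hPs)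
  choose S c hSo hSs hSc hSb hSx hSP hSD using stars hRAY hA Φ hP hPs ha
  obtain ⟨D, hDd⟩ : ∃ D : Set S2, D = (fun z : ℂ => Φ z) '' ball 0 1 := ⟨_, rfl⟩
  obtain ⟨G, hGd⟩ : ∃ G : Fin m → Set S2, ∀ e, G e = (fun z : ℂ => Φ z) '' S e :=
    ⟨_, fun _ => rfl⟩
  have haD : ∀ e t, a e t ∉ P → a e t ∈ D := hDd ▸ ha
  have hDo : IsOpen D := hDd ▸ hemb.isOpenMap _ isOpen_ball
  have hGo : ∀ e, IsOpen (G e) := fun e => hGd e ▸ hemb.isOpenMap _ (hSo e)
  have hDG : ∀ e, D ⊆ G e := fun e => by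
    rw [hDd, hGd]
    exact image_mono (hSb e)
  have haG : ∀ e t, a e t ∈ G e := by
    intro e t
    by_cases h : a e t ∈ P
    · have ht : t = 1 := by
        by_contra ht
        exact hA.avoid e t ht h
      have h1 : a e 1 = x (en e true) := hA.dr.ends e true
      rw [ht, h1, ← hSx e, hGd]
      exact ⟨c e, hSc e, rfl⟩
    · exact hDG e (haD e t h)
  have hDP : Disjoint D P := by
    rw [hDd, Set.disjoint_left]
    rintro _ ⟨z, hz, rfl⟩
    exact notP Φ hPs hz
  have hGP : ∀ e, ∀ p ∈ G e, p ∈ P → p = x (en e true) := by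
    intro e p hp hpP
    rw [hGd] at hp
    obtain ⟨z, hz, rfl⟩ := hp
    rw [← hSx e, hSP e z hz hpP]
  have hGD : ∀ e, x (en e true) ∉ P → G e = D := fun e h => by rw [hGd, hDd, hSD e h]
  choose r hr hr' using fun e => hHD (a e) (hD.arc e).1 (hD.arc e).2 ε hε
  obtain ⟨s, hs, hsε, hsr⟩ := fmin r hr hε
  obtain ⟨ρ, hρ, KF, KN, hC⟩ := hCOR _ _ P en x a D G hA hDo hGo hDG haG haD (s / 2)
    (by positivity)
  obtain ⟨δ, hδ, hδρ, hδs⟩ : ∃ δ : ℝ, 0 < δ ∧ 4 * δ ≤ ρ ∧ δ ≤ s / 4 :=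
    ⟨min (ρ / 4) (s / 4), by positivity, by linarith [min_le_left (ρ / 4) (s / 4)],
      min_le_right _ _⟩
  have hC' := cor_mono hC hδρ
  have h0 : (0 : ℂ) ∈ ball (0 : ℂ) 1 := mem_ball_self one_pos
  have e1 : ∀ᶠ n : ℕ in atTop, Sm f^[n] ((fun z : ℂ => Φ z) '' A) (δ / 3) :=
    hSM f P hBr hRE Φ A 0 hR.oA hR.sA (hR.bA h0)
      (fun z hz hzP => absurd hzP (Set.disjoint_left.1 hR.dA hz)) _ (by positivity)
  have e2 : ∀ᶠ n : ℕ in atTop, ∀ p ∈ (fun z : ℂ => Φ z) ⁻¹' P,
      Sm f^[n] ((fun z : ℂ => Φ z) '' B p) (δ / 3) := by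
    refine (eventually_all_finite hQf).2 fun p hp => ?_
    refine hSM f P hBr hRE Φ (B p) p (hR.oB p hp) (hR.sB p hp) (hR.mB p hp) ?_ _ (by positivity)
    intro z hz hzP
    by_contra hne
    exact Set.disjoint_left.1 (hR.dB z hzP p hp hne) (hR.mB z hzP) hz
  have e3 : ∀ η : ℝ, 0 < η → ∀ᶠ n : ℕ in atTop, ∀ e, Sm f^[n] (G e) η := by
    intro η hη
    refine eventually_all.2 fun e => ?_
    rw [hGd]
    exact hSM f P hBr hRE Φ (S e) (c e) (hSo e) (hSs e) (hSc e) (hSP e) η hη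
  filter_upwards [e1, e2, e3 δ hδ, eventually_ge_atTop 1] with n h1 h2 h3 hn
  have hBg : ∀ j : ℕ, Br (f^[n])^[j] P := fun j => by
    rw [← Function.iterate_mul]
    exact hBr _
  have : Nonempty (Fin m) := ⟨⟨0, hF.pos⟩⟩
  have hW : WalkP f^[n] x a (3 * (δ / 3)) :=
    hWALK _ _ f^[n] P en x a Φ A B (δ / 3) (hBr n) hA (hPs.trans (image_subset_range _ _)) ha hR
      (by positivity) h1 (fun p hp => h2 p hp)
  rw [show 3 * (δ / 3) = δ by ring] at hW
  obtain ⟨nv, len, k, y, H, hL, hnv, hH⟩ :=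
    hL1 _ _ f^[n] P en x a D G (s / 2) δ KF KN hA (hBr n).inv hδ hC' hW
  have hBij : ∀ j : ℕ, Bij (f^[n])^[j] D := fun j => by
    rw [hDd]
    exact (hSTAR _ P (hBg j) _ hemb (ball 0 1) 0 isOpen_ball ((convex_ball 0 1).starConvex h0) h0
      (fun z hz hzP => absurd hzP (notP Φ hPs hz))).2 (notP Φ hPs h0)
  have hCtr : ∀ (j : ℕ) e, Ctr (f^[n])^[j] (G e) (x (en e true)) := fun j e => by
    rw [hGd, ← hSx e]
    exact (hSTAR _ P (hBg j) _ hemb (S e) (c e) (hSo e) (hSs e) (hSc e) (hSP e)).1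
  have hSmj : ∀ η : ℝ, 0 < η → ∀ᶠ j : ℕ in atTop, ∀ e, Sm (f^[n])^[j] (G e) η := by
    intro η hη
    have ht : Tendsto (fun j : ℕ => n * j) atTop atTop :=
      tendsto_atTop_mono (fun j => Nat.le_mul_of_pos_left j hn) tendsto_id
    filter_upwards [ht.eventually (e3 η hη)] with j hj e
    rw [← Function.iterate_mul]
    exact hj e
  obtain ⟨x', a', hDr, hxP, hxd, haH, hinv⟩ := hINST _ _ f^[n] P en x a D G δ nv len k y H hBg hA
    hL hδ hDP haD hDG haG hGP hGD hBij hCtr h3 hSmj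
  have hD' : IsDrawing par x' a' := (hCONV m par).2 x' a' hD.early (hen ▸ hDr)
  have hd : ∀ v, dist (x' v) (x v) < s := fun v => by
    linarith [dist_triangle (x' v) (nv v) (x v), hxd v, hnv v]
  refine ⟨x', a', hD', hxP, fun v => (hd v).trans_le hsε, fun e => ?_,
    hTREE m par x' a' hF.pos hD', ?_, ?_⟩
  · refine hr' e _ (isPreconnected_range (hDr.cont e)) ?_ ?_ ?_
    · rintro _ ⟨t, rfl⟩
      refine thickening_mono (by linarith [hsr e] : s / 2 ≤ r e) _ ?_
      rcases haH e t with h | h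
      · exact hH e false h
      · exact hH e true h
    · have h4 : a e 0 = x (en e false) := hA.dr.ends e false
      refine ⟨x' (en e false), ⟨_, hDr.ends e false⟩, ?_⟩
      rw [mem_ball, h4]
      exact (hd _).trans_le (hsr e)
    · have h4 : a e 1 = x (en e true) := hA.dr.ends e true
      refine ⟨x' (en e true), ⟨_, hDr.ends e true⟩, ?_⟩
      rw [mem_ball, h4]
      exact (hd _).trans_le (hsr e)
  · intro p hp
    obtain ⟨v, rfl⟩ := hA.sub hp
    obtain ⟨e, b, rfl⟩ := hA.sur v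
    exact mem_iUnion.2 ⟨e, bI b, (hDr.ends e b).trans (hxP _ hp)⟩
  · rintro _ ⟨_, hz, rfl⟩
    obtain ⟨e, t, rfl⟩ := mem_iUnion.1 hz
    obtain ⟨e', t', h⟩ := hinv e t
    exact mem_iUnion.2 ⟨e', t', h.symm⟩

end Pool.Agent.P.MP_cb5d8b_an.Pt
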