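import Pool.Agent.P.MP_cb5d8b_an.Defs

/-!
Drawings of finite rooted trees on the 2-sphere.
-/

namespace Pool.Agent.P.MP_cb5d8b_an.Pt

open Set Metric

/-- A drawing of the tree with vertices `0, …, m` in which the vertex `i + 1` is joined to the
earlier vertex `par i`: distinct points `x v`, and arcs `a i` from `x (par i)` to `x (i + 1)`,
two of which meet at most in common endpoints. -/
structure IsDrawing {m : ℕ} (par : Fin m → Fin (m + 1)) (x : Fin (m + 1) → S2)
    (a : Fin m → unitInterval → S2) : Prop where
  early : ∀ i, (par i : ℕ) ≤ i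
  inj : Function.Injective x
  arc : ∀ i, Continuous (a i) ∧ Function.Injective (a i)
  ends : ∀ i, a i 0 = x (par i) ∧ a i 1 = x i.succ
  meet : ∀ i j, i ≠ j → range (a i) ∩ range (a j) ⊆ {a i 0, a i 1} ∩ {a j 0, a j 1}

/-- The drawing fits the set `P`: it has an edge, every vertex lies on at most three edges, the
points of `P` are vertices without children, and for some homeomorphism of the Riemann sphere onto
the sphere `P` lies on the image of the unit circle and the rest of the drawing in the image of
the open unit disc. -/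
structure Fits (P : Set S2) {m : ℕ} (par : Fin m → Fin (m + 1)) (x : Fin (m + 1) → S2)
    (a : Fin m → unitInterval → S2) : Prop where
  pos : 0 < m
  deg : ∀ v, {i | par i = v ∨ i.succ = v}.ncard ≤ 3
  sub : P ⊆ range x
  leaf : ∀ i, x (par i) ∉ P
  disc : ∃ Φ : OnePoint ℂ ≃ₜ S2, P ⊆ (fun z : ℂ => Φ z) '' sphere 0 1 ∧
    ∀ i t, a i t ∉ P → a i t ∈ (fun z : ℂ => Φ z) '' ball 0 1

end Pool.Agent.P.MP_cb5d8b_an.Pt
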