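import Pool.Agent.P.MP_cb5d8b_an.Pt.Defs

/-!
Invariant trees for high iterates of expanding Thurston maps: the steps of the proof.
-/

namespace Pool.Agent.P.MP_cb5d8b_an.Pt

open Set Metric Filter Topology

/-- the end point `b` of the unit interval -/
def bI (b : Bool) : unitInterval := if b then 1 else 0

/-- reversal of the parameter when `b` holds -/
def flp (b : Bool) (t : unitInterval) : unitInterval := if b then unitInterval.symm t else t

/-- the component of the preimage of `U` that contains `y` (empty if `g y ∉ U`) -/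
def cc (g : S2 → S2) (U : Set S2) (y : S2) : Set S2 := connectedComponentIn (g ⁻¹' U) y

/-- what is used of a branched covering whose critical values lie in the invariant set `P` -/
structure Br (g : S2 → S2) (P : Set S2) : Prop where
  cont : Continuous g
  fib : ∀ z, (g ⁻¹' {z}).Finite
  loc : IsLocalHomeomorphOn g (g ⁻¹' Pᶜ)
  fin : P.Finite
  inv : MapsTo g P P

/-- every component of the preimage of `U` has exactly one point over `u` -/
def Ctr (g : S2 → S2) (U : Set S2) (u : S2) : Prop :=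
  (∀ y, g y ∈ U → ∃ q ∈ cc g U y, g q = u) ∧
    ∀ q q', g q = u → g q' = u → q' ∈ cc g U q → q' = q

/-- every component of the preimage of `U` is mapped bijectively onto `U` -/
def Bij (g : S2 → S2) (U : Set S2) : Prop :=
  (∀ y, ∀ y' ∈ cc g U y, g y' = g y → y' = y) ∧
    ∀ y, g y ∈ U → ∀ u ∈ U, ∃ y' ∈ cc g U y, g y' = u

/-- the components of the preimage of `U` are `ε`-small -/
def Sm (g : S2 → S2) (U : Set S2) (ε : ℝ) : Prop := ∀ y, ∀ z ∈ cc g U y, dist z y ≤ ε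

/-- robust expansion -/
def RE (f : S2 → S2) : Prop :=
  ∃ η : ℝ, 0 < η ∧ ∀ ε : ℝ, 0 < ε → ∀ᶠ n : ℕ in atTop, ∀ x, Sm f^[n] (ball x η) ε

/-- a simple path of length `n` for the relation `R` -/
def Pth {α : Type} (R : α → α → Prop) (p : ℕ → α) (n : ℕ) : Prop :=
  (∀ i < n, R (p i) (p (i + 1))) ∧ InjOn p (Iic n)

/-- joined by a walk inside `D` -/
def Rch {α : Type} (R : α → α → Prop) (D : Set α) : α → α → Prop :=
  Relation.ReflTransGen fun u v => u ∈ D ∧ v ∈ D ∧ R u v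

section graph

variable {V E : Type}

/-- a drawing of the graph with vertices `V`, edges `E` and end points `en` -/
structure Dr (en : E → Bool → V) (x : V → S2) (a : E → unitInterval → S2) : Prop where
  inj : Function.Injective x
  cont : ∀ e, Continuous (a e)
  ends : ∀ e b, a e (bI b) = x (en e b)
  meet : ∀ e s e' t, a e s = a e' t → (e = e' ∧ s = t) ∨
    (e ≠ e' ∧ ∃ b b', s = bI b ∧ t = bI b' ∧ en e b = en e' b')

/-- a connected drawing of degree at most three with the points of `P` as leaves -/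
structure Adm (P : Set S2) (en : E → Bool → V) (x : V → S2) (a : E → unitInterval → S2) :
    Prop where
  dr : Dr en x a
  conn : ∀ v w, Relation.ReflTransGen (fun v w => ∃ e b, en e b = v ∧ en e (!b) = w) v w
  sur : ∀ v, ∃ e b, en e b = v
  deg : ∀ v, {h : E × Bool | en h.1 h.2 = v}.ncard ≤ 3
  sub : P ⊆ range x
  src : ∀ e, x (en e false) ∉ P
  leafu : ∀ e e', x (en e true) ∈ P → en e true = en e' true → e = e'
  avoid : ∀ e t, t ≠ 1 → a e t ∉ P

/-- a lift of the edge `e` runs from `u` to `v` -/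
def Le (g : S2 → S2) (a : E → unitInterval → S2) (e : E) (u v : S2) : Prop :=
  ∃ d : unitInterval → S2, Continuous d ∧ d 0 = u ∧ d 1 = v ∧ ∀ t, g (d t) = a e t

/-- `u` and `v` are the ends of a lifted edge -/
def St (g : S2 → S2) (a : E → unitInterval → S2) (u v : S2) : Prop :=
  ∃ e, Le g a e u v ∨ Le g a e v u

/-- the preimage of the drawing is `δ`-dense and locally connected at scale `δ` -/
def WalkP (g : S2 → S2) (x : V → S2) (a : E → unitInterval → S2) (δ : ℝ) : Prop :=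
  (∀ z, ∃ u, g u ∈ range x ∧ dist u z < δ) ∧
    ∀ N : Set S2, IsOpen N → IsPreconnected N → ∀ u ∈ N, ∀ v ∈ N, g u ∈ range x →
      g v ∈ range x → Rch (St g a) (thickening δ N) u v

/-- the union of the sets `K` of the half edges at `v` -/
def Kst (en : E → Bool → V) (K : E → Bool → Set S2) (v : V) : Set S2 :=
  {z | ∃ e b, en e b = v ∧ z ∈ K e b}

/-- far and near parts of the half edges, separated at scale `ρ` -/
structure Cor (P : Set S2) (en : E → Bool → V) (x : V → S2) (a : E → unitInterval → S2)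
    (D : Set S2) (G : E → Set S2) (ε ρ : ℝ) (KF KN : E → Bool → Set S2) : Prop where
  cF : ∀ e b, IsPreconnected (KF e b)
  cN : ∀ e b, IsPreconnected (KN e b)
  mid : ∀ e, (KF e false ∩ KF e true).Nonempty
  link : ∀ e b, (KF e b ∩ KN e b).Nonempty
  vert : ∀ e b, x (en e b) ∈ KN e b
  sep : ∀ e b e' b', en e b = en e' b' → (e, b) ≠ (e', b') →
    Disjoint (thickening ρ (KF e b)) (thickening ρ (KF e' b' ∪ KN e' b'))
  hh : ∀ e b e' b', e ≠ e' → en e b ≠ en e' b' →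
    Disjoint (thickening ρ (KF e b ∪ Kst en KN (en e b)))
      (thickening ρ (KF e' b' ∪ Kst en KN (en e' b')))
  opp : ∀ e b, Disjoint (thickening ρ (Kst en KN (en e b)))
    (thickening ρ (KF e (!b) ∪ Kst en KN (en e (!b))))
  inD : ∀ e b, x (en e b) ∉ P → thickening ρ (KF e b ∪ Kst en KN (en e b)) ⊆ D
  inG : ∀ e b, thickening ρ (KF e b ∪ Kst en KN (en e b)) ⊆ G e
  near : ∀ v, thickening ρ (Kst en KN v) ⊆ ball (x v) ε
  thin : ∀ e b, thickening ρ (KF e b ∪ Kst en KN (en e b)) ⊆ thickening ε (range (a e))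

/-- a copy of the graph in the preimage of the drawing: new vertices `nv v`, for every edge a
simple chain `y e 0, …, y e (len e)` of lifted edges, whose first part runs in `H e false` and
whose second part runs in `H e true` -/
structure L1 (g : S2 → S2) (P : Set S2) (en : E → Bool → V) (x : V → S2)
    (a : E → unitInterval → S2) (D : Set S2) (G : E → Set S2) (δ : ℝ) (nv : V → S2)
    (len k : E → ℕ) (y : E → ℕ → S2) (H : E → Bool → Set S2) : Prop where
  two : ∀ e, 2 ≤ len e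
  kle : ∀ e, k e ≤ len e
  ends : ∀ e b, y e (if b then len e else 0) = nv (en e b)
  step : ∀ e, ∀ i < len e, St g a (y e i) (y e (i + 1))
  simple : ∀ e e' i i', i ≤ len e → i' ≤ len e' → y e i = y e' i' → (e = e' ∧ i = i') ∨
    ∃ b b' : Bool, i = (if b then len e else 0) ∧ i' = (if b' then len e' else 0) ∧
      en e b = en e' b'
  leaf : ∀ v, x v ∈ P → nv v = x v
  locF : ∀ e, ∀ i ≤ k e, closedBall (y e i) δ ⊆ H e false
  locT : ∀ e i, k e ≤ i → i ≤ len e → closedBall (y e i) δ ⊆ H e true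
  hG : ∀ e b, H e b ⊆ G e
  hD : ∀ e b, x (en e b) ∉ P → H e b ⊆ D
  hH : ∀ e b e' b', (H e b ∩ H e' b').Nonempty → e = e' ∨ (en e b = en e' b' ∧ x (en e b) ∉ P)

end graph

/-- the plane minus the radial rays from the points of `Q`, and thin neighbourhoods of the rays -/
structure Ray (Q A : Set ℂ) (B : ℂ → Set ℂ) : Prop where
  oA : IsOpen A
  sA : StarConvex ℝ 0 A
  bA : ball 0 1 ⊆ A
  dA : Disjoint A Q
  oB : ∀ p ∈ Q, IsOpen (B p)
  sB : ∀ p ∈ Q, StarConvex ℝ p (B p)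
  mB : ∀ p ∈ Q, p ∈ B p
  cB : ∀ p ∈ Q, IsPathConnected (A ∩ B p)
  dB : ∀ p ∈ Q, ∀ q ∈ Q, p ≠ q → Disjoint (B p) (B q)
  cov : ∀ z, z ∈ A ∨ ∃ p ∈ Q, z ∈ B p

/-- the curve of `l` is the concatenation of the curves of its children -/
def SelfSim {X L : Type} (len : L → ℕ) (ch : L → ℕ → L) (fl : L → ℕ → Bool)
    (Γ : L → unitInterval → X) : Prop :=
  ∀ l, ∀ i < len l, ∀ s t : unitInterval, (len l : ℝ) * s = i + t →
    Γ l s = Γ (ch l i) (flp (fl l i) t)

-- deps: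
/-- iterates of a Thurston map -/
def S_BC : Prop := ∀ f : S2 → S2, IsThurston f → MapsTo f (post f) (post f) ∧
  ∀ P : Set S2, P.Finite → post f ⊆ P → MapsTo f P P → ∀ n : ℕ, Br f^[n] P

-- deps:
/-- path lifting -/
def S_LIFT : Prop := ∀ (g : S2 → S2) (P : Set S2), Br g P →
  IsCoveringMapOn g Pᶜ ∧ (∀ U : Set S2, Dense U → Dense (g ⁻¹' U)) ∧
  (∀ c : unitInterval → S2, Continuous c → (∀ t, t ≠ 1 → c t ∉ P) → ∀ y, g y = c 0 →
    ∃ d : unitInterval → S2, Continuous d ∧ d 0 = y ∧ ∀ t, g (d t) = c t) ∧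
  ∀ d d' : unitInterval → S2, Continuous d → Continuous d' → (∀ t, g (d t) = g (d' t)) →
    (∀ t, t ≠ 0 → t ≠ 1 → g (d t) ∉ P) → ∀ t₀, g (d t₀) ∉ P → d t₀ = d' t₀ → d = d'

-- deps: LIFT
/-- preimages of star shaped sets -/
def S_STAR : Prop := ∀ (g : S2 → S2) (P : Set S2), Br g P → ∀ φ : ℂ → S2, IsOpenEmbedding φ →
  ∀ (S : Set ℂ) (c : ℂ), IsOpen S → StarConvex ℝ c S → c ∈ S → (∀ z ∈ S, φ z ∈ P → z = c) →
    Ctr g (φ '' S) (φ c) ∧ (φ c ∉ P → Bij g (φ '' S))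

-- deps:
/-- a Jordan curve has dense complement, and near a point `x` of the curve the local
complementary components accumulate at `x` -/
def S_LJ : Prop := ∀ C : Set S2, IsJordanCurve C → IsClosed C ∧ Dense Cᶜ ∧
  ∀ x ∈ C, ∀ B ∈ 𝓝 x, ∃ B' ∈ 𝓝 x, ∀ z ∈ B' \ C, x ∈ closure (connectedComponentIn (B \ C) z)

-- deps: BC LIFT STAR LJ
/-- expansion is robust -/
def S_SL : Prop := ∀ f : S2 → S2, IsThurston f → IsExpanding f → RE f

-- deps: LIFT STAR
/-- star shaped sets have small lifts -/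
def S_SM : Prop := ∀ (f : S2 → S2) (P : Set S2), (∀ n : ℕ, Br f^[n] P) → RE f →
  ∀ (Φ : OnePoint ℂ ≃ₜ S2) (S : Set ℂ) (c : ℂ), IsOpen S → StarConvex ℝ c S → c ∈ S →
    (∀ z ∈ S, Φ (z : ℂ) ∈ P → z = c) →
    ∀ ε : ℝ, 0 < ε → ∀ᶠ n : ℕ in atTop, Sm f^[n] ((fun z : ℂ => Φ z) '' S) ε

-- deps:
/-- connectedness on the sphere -/
def S_BALL : Prop :=
  (∀ (K : Set S2) (r : ℝ), IsPreconnected K → IsPreconnected (thickening r K)) ∧
  ∀ U Z : Set S2, IsOpen U → IsPreconnected U → Z.Finite → IsPreconnected (U \ Z)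

-- deps:
/-- the rays, and star shaped neighbourhoods of the disc -/
def S_RAY : Prop := ∀ Q : Set ℂ, Q.Finite → Q ⊆ sphere 0 1 → (∃ A B, Ray Q A B) ∧
  ∀ p ∈ Q, ∃ S : Set ℂ, IsOpen S ∧ StarConvex ℝ p S ∧ p ∈ S ∧ ball 0 1 ⊆ S ∧
    ∀ q ∈ Q, q ∈ S → q = p

-- deps: LIFT STAR BALL
/-- walks in the preimage of the drawing -/
def S_WALK : Prop := ∀ (V E : Type) [Nonempty E] (g : S2 → S2) (P : Set S2) (en : E → Bool → V)
  (x : V → S2) (a : E → unitInterval → S2) (Φ : OnePoint ℂ ≃ₜ S2) (A : Set ℂ) (B : ℂ → Set ℂ)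
  (δ : ℝ), Br g P → Adm P en x a → P ⊆ range (fun z : ℂ => Φ z) →
    (∀ e t, a e t ∉ P → a e t ∈ (fun z : ℂ => Φ z) '' ball 0 1) →
    Ray ((fun z : ℂ => Φ z) ⁻¹' P) A B → 0 < δ → Sm g ((fun z : ℂ => Φ z) '' A) δ →
    (∀ p : ℂ, Φ p ∈ P → Sm g ((fun z : ℂ => Φ z) '' B p) δ) → WalkP g x a (3 * δ)

-- deps:
/-- loop erasure, and joining two simple paths at the first hit -/
def S_PATH : Prop :=
  (∀ (α : Type) (R : α → α → Prop) (D : Set α) (u v : α), u ∈ D → Rch R D u v →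
    ∃ p n, Pth R p n ∧ p 0 = u ∧ p n = v ∧ ∀ i ≤ n, p i ∈ D) ∧
  ∀ (α : Type) (R : α → α → Prop) (p q : ℕ → α) (n m : ℕ), Pth R p n → Pth R q m → p n = q 0 →
    ∃ k ≤ n, ∃ k' ≤ m, p k = q k' ∧ (∀ i < k, ∀ j ≤ m, p i ≠ q j) ∧
      Pth R (fun i => if i ≤ k then p i else q (k' + (i - k))) (k + (m - k'))

-- deps: PATH
/-- a star with at most three legs -/
def S_LEGS : Prop := ∀ (α J : Type) [Finite J] (R : α → α → Prop) (W : Set α)
  (Far Near : J → Set α) (h m : J → α) (o : α), (∀ u v, R u v → R v u) → Nat.card J ≤ 3 →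
    o ∈ W → (∀ j, Near j ⊆ W) → (∀ j, h j ∈ Far j) → (∀ j, m j ∈ Near j) →
    (∀ j, Rch R (Far j) (h j) (m j)) → (∀ j, Rch R (Near j) (m j) o) →
    (∀ i j, i ≠ j → Disjoint (Far i) (Far j ∪ Near j)) →
    ∃ (v : α) (q : J → ℕ → α) (n : J → ℕ), v ∈ W ∧ (Nat.card J ≤ 1 → v = o) ∧
      (∀ j, Pth R (q j) (n j) ∧ q j 0 = v ∧ q j (n j) = h j ∧ ∀ i ≤ n j, q j i ∈ Far j ∪ W) ∧
      ∀ j j', j ≠ j' → ∀ i ≤ n j, ∀ i' ≤ n j', q j i = q j' i' → i = 0 ∧ i' = 0

-- deps: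
/-- corridors -/
def S_COR : Prop := ∀ (V E : Type) [Finite V] [Finite E] (P : Set S2) (en : E → Bool → V)
  (x : V → S2) (a : E → unitInterval → S2) (D : Set S2) (G : E → Set S2), Adm P en x a →
    IsOpen D → (∀ e, IsOpen (G e)) → (∀ e, D ⊆ G e) → (∀ e t, a e t ∈ G e) →
    (∀ e t, a e t ∉ P → a e t ∈ D) →
    ∀ ε : ℝ, 0 < ε → ∃ ρ : ℝ, 0 < ρ ∧ ∃ KF KN, Cor P en x a D G ε ρ KF KN

-- deps: BALL PATH LEGS
/-- the copy of the graph in the preimage -/
def S_L1 : Prop := ∀ (V E : Type) [Finite V] [Finite E] (g : S2 → S2) (P : Set S2)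
  (en : E → Bool → V) (x : V → S2) (a : E → unitInterval → S2) (D : Set S2) (G : E → Set S2)
  (ε δ : ℝ) (KF KN : E → Bool → Set S2), Adm P en x a → MapsTo g P P → 0 < δ →
    Cor P en x a D G ε (4 * δ) KF KN → WalkP g x a δ →
    ∃ nv len k y H, L1 g P en x a D G δ nv len k y H ∧ (∀ v, dist (nv v) (x v) < ε) ∧
      ∀ e b, H e b ⊆ thickening ε (range (a e))

-- deps:
/-- curves from a nested system of chains -/
def S_ABS : Prop := ∀ (X : Type) [MetricSpace X] [CompleteSpace X] (L O : Type) (lev : L → ℕ)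
  (vx : L → Bool → O) (nx : O → O) (len : L → ℕ) (ch : L → ℕ → L) (fl : L → ℕ → Bool)
  (cv : L → ℕ → O) (pos : O → X) (Xs : L → Set X), (∀ l, 2 ≤ len l) →
    (∀ l, ∀ i < len l, lev (ch l i) = lev l + 1) →
    (∀ l b, cv l (if b then len l else 0) = nx (vx l b)) →
    (∀ l, ∀ i < len l, vx (ch l i) (fl l i) = cv l i ∧ vx (ch l i) (!fl l i) = cv l (i + 1)) →
    (∀ l b, pos (vx l b) ∈ Xs l) → (∀ l, ∀ i < len l, closure (Xs (ch l i)) ⊆ Xs l) →
    (∀ ε : ℝ, 0 < ε → ∃ N, ∀ l, N ≤ lev l → ∀ u ∈ Xs l, ∀ v ∈ Xs l, dist u v ≤ ε) →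
    ∃ Γ : L → unitInterval → X, (∀ l, Continuous (Γ l)) ∧ (∀ l t, Γ l t ∈ Xs l) ∧
      SelfSim len ch fl Γ ∧
      ∀ l b, Tendsto (fun n : ℕ => pos (nx^[n] (vx l b))) atTop (𝓝 (Γ l (bI b)))

-- deps:
/-- the curves are simple and meet only at common vertices -/
def S_INJ : Prop := ∀ (X L O : Type) (lev : L → ℕ) (vx : L → Bool → O) (len : L → ℕ)
  (ch : L → ℕ → L) (fl : L → ℕ → Bool) (cv : L → ℕ → O) (Γ : L → unitInterval → X),
    (∀ l, 2 ≤ len l) → (∀ l, ∀ i < len l, lev (ch l i) = lev l + 1) →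
    (∀ l, ∀ i < len l, vx (ch l i) (fl l i) = cv l i ∧ vx (ch l i) (!fl l i) = cv l (i + 1)) →
    SelfSim len ch fl Γ → (∀ l, vx l false ≠ vx l true) →
    (∀ l l' i i', i ≤ len l → i' ≤ len l' → cv l i = cv l' i' → (l = l' ∧ i = i') ∨
      ∃ b b' : Bool, i = (if b then len l else 0) ∧ i' = (if b' then len l' else 0) ∧
        vx l b = vx l' b') →
    (∀ l l' s t, lev l = lev l' → Γ l s = Γ l' t → l = l' ∨ ∃ b b', vx l b = vx l' b') →
    ∀ l l' s t, lev l = lev l' → Γ l s = Γ l' t → (l = l' ∧ s = t) ∨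
      (l ≠ l' ∧ ∃ b b', s = bI b ∧ t = bI b' ∧ vx l b = vx l' b')

-- deps:
/-- two self similar families that are close at high levels agree -/
def S_UQ : Prop := ∀ (X : Type) [MetricSpace X] (L : Type) (lev : L → ℕ) (len : L → ℕ)
  (ch : L → ℕ → L) (fl : L → ℕ → Bool) (Γ Γ' : L → unitInterval → X),
    (∀ l, 1 ≤ len l) → (∀ l, ∀ i < len l, lev (ch l i) = lev l + 1) →
    SelfSim len ch fl Γ → SelfSim len ch fl Γ' →
    (∀ ε : ℝ, 0 < ε → ∃ N, ∀ l, N ≤ lev l → ∀ t, dist (Γ l t) (Γ' l t) ≤ ε) → Γ = Γ'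

-- deps: LIFT ABS INJ UQ
/-- the invariant drawing -/
def S_INST : Prop := ∀ (V E : Type) [Finite E] (g : S2 → S2) (P : Set S2) (en : E → Bool → V)
  (x : V → S2) (a : E → unitInterval → S2) (D : Set S2) (G : E → Set S2) (δ : ℝ) (nv : V → S2)
  (len k : E → ℕ) (y : E → ℕ → S2) (H : E → Bool → Set S2), (∀ j : ℕ, Br g^[j] P) →
    Adm P en x a → L1 g P en x a D G δ nv len k y H → 0 < δ → Disjoint D P →
    (∀ e t, a e t ∉ P → a e t ∈ D) → (∀ e, D ⊆ G e) → (∀ e t, a e t ∈ G e) →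
    (∀ e, ∀ p ∈ G e, p ∈ P → p = x (en e true)) → (∀ e, x (en e true) ∉ P → G e = D) →
    (∀ j : ℕ, Bij g^[j] D) → (∀ (j : ℕ) e, Ctr g^[j] (G e) (x (en e true))) →
    (∀ e, Sm g (G e) δ) → (∀ ε : ℝ, 0 < ε → ∀ᶠ j : ℕ in atTop, ∀ e, Sm g^[j] (G e) ε) →
    ∃ x' a', Dr en x' a' ∧ (∀ v, x v ∈ P → x' v = x v) ∧ (∀ v, dist (x' v) (nv v) ≤ δ) ∧
      (∀ e t, a' e t ∈ H e false ∪ H e true) ∧ ∀ e t, ∃ e' t', g (a' e t) = a' e' t'

-- deps:
/-- a drawing is a tree -/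
def S_TREE : Prop := ∀ (m : ℕ) (par : Fin m → Fin (m + 1)) (x : Fin (m + 1) → S2)
  (a : Fin m → unitInterval → S2), 0 < m → IsDrawing par x a → IsTree (⋃ i, range (a i))

-- deps:
/-- a connected set near an arc that comes close to both ends is Hausdorff close to the arc -/
def S_HD : Prop := ∀ c : unitInterval → S2, Continuous c → Function.Injective c →
  ∀ ε : ℝ, 0 < ε → ∃ ρ : ℝ, 0 < ρ ∧ ∀ K : Set S2, IsPreconnected K →
    K ⊆ thickening ρ (range c) → (K ∩ ball (c 0) ρ).Nonempty → (K ∩ ball (c 1) ρ).Nonempty →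
    hausdorffDist K (range c) < ε

-- deps:
/-- every finite set has a fitting drawing -/
def S_MODEL : Prop := ∀ P : Set S2, P.Finite →
  ∃ (m : ℕ) (par : Fin m → Fin (m + 1)) (x : Fin (m + 1) → S2) (a : Fin m → unitInterval → S2),
    IsDrawing par x a ∧ Fits P par x a

-- deps:
/-- the two descriptions of a drawing -/
def S_CONV : Prop := ∀ (m : ℕ) (par : Fin m → Fin (m + 1)),
  (∀ P x a, IsDrawing par x a → Fits P par x a →
    Adm P (fun i b => if b then i.succ else par i) x a) ∧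
  ∀ x a, (∀ i, (par i : ℕ) ≤ i) → Dr (fun i b => if b then i.succ else par i) x a →
    IsDrawing par x a

end Pool.Agent.P.MP_cb5d8b_an.Pt
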